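import Mathlib

open Filter Topology Metric MeasureTheory

namespace Pool.Agent.Helper960.Crg

/-- support function `H D z = sup {Re (ζ z) : ζ ∈ D}` -/
noncomputable def H (D : Set ℂ) (z : ℂ) : ℝ := sSup ((fun ζ : ℂ => (ζ * z).re) '' D)

section support

variable {D : Set ℂ} (hD : IsCompact D) (hne : D.Nonempty)

include hD in
lemma bddAbove_img (z : ℂ) : BddAbove ((fun ζ : ℂ => (ζ * z).re) '' D) :=
  (hD.image (Complex.continuous_re.comp (continuous_id.mul continuous_const))).bddAbove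

include hD in
lemma le_H {ζ : ℂ} (hζ : ζ ∈ D) (z : ℂ) : (ζ * z).re ≤ H D z :=
  le_csSup (bddAbove_img hD z) ⟨ζ, hζ, rfl⟩

include hne in
lemma H_le {z : ℂ} {c : ℝ} (h : ∀ ζ ∈ D, (ζ * z).re ≤ c) : H D z ≤ c := by
  apply csSup_le (hne.image _)
  rintro _ ⟨ζ, hζ, rfl⟩
  exact h ζ hζ

include hD hne in
lemma exists_H (z : ℂ) : ∃ ζ ∈ D, (ζ * z).re = H D z := by
  have h := (hD.image (Complex.continuous_re.comp
    (continuous_id.mul (continuous_const (y := z))))).sSup_mem (hne.image _)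
  obtain ⟨ζ, hζ, h⟩ := h
  exact ⟨ζ, hζ, h⟩

include hD hne in
lemma H_smul (z : ℂ) {t : ℝ} (ht : 0 ≤ t) : H D ((t : ℂ) * z) = t * H D z := by
  have e : ∀ ζ : ℂ, (ζ * ((t : ℂ) * z)).re = t * (ζ * z).re := by
    intro ζ
    rw [show ζ * ((t : ℂ) * z) = (t : ℂ) * (ζ * z) by ring, Complex.re_ofReal_mul]
  apply le_antisymm
  · apply H_le hne
    intro ζ hζ
    rw [e]
    exact mul_le_mul_of_nonneg_left (le_H hD hζ z) ht
  · obtain ⟨ζ, hζ, h⟩ := exists_H hD hne z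
    rw [← h, ← e]
    exact le_H hD hζ _

include hD hne in
lemma H_add_le (z w : ℂ) : H D (z + w) ≤ H D z + H D w := by
  apply H_le hne
  intro ζ hζ
  rw [mul_add, Complex.add_re]
  exact add_le_add (le_H hD hζ z) (le_H hD hζ w)

include hne in
lemma H_le_norm {σ : ℝ} (hσ : ∀ ζ ∈ D, ‖ζ‖ ≤ σ) (z : ℂ) : H D z ≤ σ * ‖z‖ := by
  apply H_le hne
  intro ζ hζ
  calc (ζ * z).re ≤ ‖ζ * z‖ := Complex.re_le_norm _
    _ = ‖ζ‖ * ‖z‖ := norm_mul _ _
    _ ≤ σ * ‖z‖ := mul_le_mul_of_nonneg_right (hσ ζ hζ) (norm_nonneg _)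

include hD hne in
lemma H_lip {σ : ℝ} (hσ : ∀ ζ ∈ D, ‖ζ‖ ≤ σ) (z w : ℂ) : H D z ≤ H D w + σ * ‖z - w‖ := by
  have h1 := H_add_le hD hne w (z - w)
  rw [add_sub_cancel] at h1
  linarith [H_le_norm hne hσ (z - w)]

include hD hne in
lemma H_lip' {σ : ℝ} (hσ : ∀ ζ ∈ D, ‖ζ‖ ≤ σ) (z w : ℂ) : |H D z - H D w| ≤ σ * ‖z - w‖ := by
  rw [abs_le]
  have h1 := H_lip hD hne hσ z w
  have h2 := H_lip hD hne hσ w z
  rw [norm_sub_rev] at h2
  constructor <;> linarith

include hD hne in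
lemma H_zero : H D 0 = 0 := by
  have := H_smul hD hne 0 (le_refl (0 : ℝ))
  simpa using this

include hD hne in
lemma H_cont : Continuous (H D) := by
  obtain ⟨σ, hσ⟩ := hD.isBounded.exists_norm_le
  have h : LipschitzWith (Real.toNNReal σ) (H D) := by
    apply LipschitzWith.of_dist_le_mul
    intro z w
    rw [Real.dist_eq, dist_eq_norm]
    have h0 : 0 ≤ σ := (norm_nonneg _).trans (hσ _ hne.some_mem)
    rw [Real.coe_toNNReal _ h0]
    exact H_lip' hD hne hσ z w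
  exact h.continuous

include hD hne in
lemma neg_H_le {σ : ℝ} (hσ : ∀ ζ ∈ D, ‖ζ‖ ≤ σ) (z : ℂ) : - (σ * ‖z‖) ≤ H D z := by
  have := H_lip hD hne hσ 0 z
  rw [H_zero hD hne, zero_sub, norm_neg] at this
  linarith

end support

/-- uniform upper growth bound -/
def UB (f : ℂ → ℂ) (D : Set ℂ) : Prop :=
  ∀ ε > 0, ∃ C > 0, ∀ z, ‖f z‖ ≤ C * Real.exp (H D z + ε * ‖z‖)

/-- lower bound in the direction `u` (somewhere in small discs around `r u`) -/
def PL (f : ℂ → ℂ) (D : Set ℂ) (u : ℂ) : Prop :=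
  ∀ δ > 0, ∀ η > 0, ∃ R : ℝ, ∀ r ≥ R, ∃ w : ℂ, ‖w - r * u‖ ≤ δ * r ∧
    Real.exp (H D w - η * r) ≤ ‖f w‖

lemma not_PL {f : ℂ → ℂ} {D : Set ℂ} {u : ℂ} (h : ¬ PL f D u) :
    ∃ δ > 0, ∃ η > 0, ∀ R : ℝ, ∃ r ≥ R, ∀ w : ℂ, ‖w - r * u‖ ≤ δ * r →
      ‖f w‖ < Real.exp (H D w - η * r) := by
  unfold PL at h
  push Not at h
  obtain ⟨δ, hδ, η, hη, h⟩ := h
  exact ⟨δ, hδ, η, hη, h⟩

lemma PL_closed (f : ℂ → ℂ) (D : Set ℂ) : IsClosed {u : ℂ | PL f D u} := by
  rw [← isOpen_compl_iff, Metric.isOpen_iff]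
  intro u hu
  obtain ⟨δ, hδ, η, hη, h⟩ := not_PL hu
  refine ⟨δ / 2, by positivity, ?_⟩
  intro v hv hPL
  rw [mem_ball, dist_eq_norm] at hv
  obtain ⟨R, hR⟩ := hPL (δ / 2) (by positivity) η hη
  obtain ⟨r, hr, hw⟩ := h (max R 0)
  have hr0 : 0 ≤ r := (le_max_right _ _).trans hr
  obtain ⟨w, hw1, hw2⟩ := hR r ((le_max_left _ _).trans hr)
  have : ‖w - r * u‖ ≤ δ * r := by
    calc ‖w - r * u‖ = ‖(w - r * v) + r * (v - u)‖ := by ring_nf
      _ ≤ ‖w - r * v‖ + ‖(r : ℂ) * (v - u)‖ := norm_add_le _ _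
      _ ≤ δ / 2 * r + r * (δ / 2) := by
        rw [norm_mul, Complex.norm_real, Real.norm_eq_abs, abs_of_nonneg hr0]
        gcongr
      _ = δ * r := by ring
  exact absurd (hw w this) (not_lt.mpr hw2)

/-- if `X s^k ≤ k! Y e^{a s}` for all `s > 0` then `X ≤ Y b^{k+1} / (b - a)` -/
lemma int_trick {X Y a b : ℝ} {k : ℕ} (hX : 0 ≤ X) (hY : 0 ≤ Y) (hb : 0 < b) (hab : a < b)
    (h : ∀ s : ℝ, 0 < s → X * s ^ k ≤ k.factorial * Y * Real.exp (a * s)) :
    X ≤ Y * b ^ (k + 1) / (b - a) := by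
  have hba : 0 < b - a := by linarith
  have e1 : ∫ s in Set.Ioi (0 : ℝ), s ^ k * Real.exp (-(b * s)) = k.factorial / b ^ (k + 1) := by
    have h1 := Real.integral_rpow_mul_exp_neg_mul_Ioi (a := (k : ℝ) + 1) (r := b)
      (by positivity) hb
    rw [Real.Gamma_nat_eq_factorial] at h1
    have h2 : (1 / b) ^ ((k : ℝ) + 1) = 1 / b ^ (k + 1) := by
      rw [← Nat.cast_succ, Real.rpow_natCast, one_div, inv_pow, one_div]
    rw [h2] at h1
    rw [div_eq_mul_one_div, mul_comm, ← h1]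
    apply setIntegral_congr_fun measurableSet_Ioi
    intro t ht
    simp only [add_sub_cancel_right, Real.rpow_natCast]
  have i1 : IntegrableOn (fun s : ℝ => s ^ k * Real.exp (-(b * s))) (Set.Ioi 0) := by
    have := integrableOn_rpow_mul_exp_neg_mul_rpow (s := (k : ℝ)) (p := 1) (b := b)
      (by linarith [(Nat.cast_nonneg k : (0 : ℝ) ≤ k)]) one_pos hb
    refine this.congr_fun (fun t ht => ?_) measurableSet_Ioi
    simp only [Real.rpow_natCast, Real.rpow_one, neg_mul]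
  have hab' : a - b < 0 := by linarith
  have e2 : ∫ s in Set.Ioi (0 : ℝ), Real.exp ((a - b) * s) = 1 / (b - a) := by
    rw [integral_exp_mul_Ioi hab' 0, mul_zero, Real.exp_zero, neg_div, ← div_neg, neg_sub]
  have i2 : IntegrableOn (fun s : ℝ => Real.exp ((a - b) * s)) (Set.Ioi 0) :=
    integrableOn_exp_mul_Ioi hab' 0
  have h3 : ∫ s in Set.Ioi (0 : ℝ), X * (s ^ k * Real.exp (-(b * s))) ≤
      ∫ s in Set.Ioi (0 : ℝ), (k.factorial * Y) * Real.exp ((a - b) * s) := by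
    apply setIntegral_mono_on (i1.const_mul X) (i2.const_mul _) measurableSet_Ioi
    intro s hs
    have h4 := h s hs
    have h5 : Real.exp ((a - b) * s) = Real.exp (a * s) * Real.exp (-(b * s)) := by
      rw [← Real.exp_add]; ring_nf
    rw [h5]
    calc X * (s ^ k * Real.exp (-(b * s))) = (X * s ^ k) * Real.exp (-(b * s)) := by ring
      _ ≤ (k.factorial * Y * Real.exp (a * s)) * Real.exp (-(b * s)) :=
        mul_le_mul_of_nonneg_right h4 (Real.exp_pos _).le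
      _ = _ := by ring
  rw [integral_const_mul, integral_const_mul, e1, e2] at h3
  have hk : (0 : ℝ) < k.factorial := by exact_mod_cast k.factorial_pos
  have h6 : X * (k.factorial / b ^ (k + 1)) = k.factorial * (X / b ^ (k + 1)) := by ring
  have h7 : (k.factorial : ℝ) * Y * (1 / (b - a)) = k.factorial * (Y / (b - a)) := by ring
  rw [h6, h7] at h3
  have h8 := le_of_mul_le_mul_left h3 hk
  rw [div_le_div_iff₀ (by positivity) hba] at h8
  rw [le_div_iff₀ hba]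
  linarith

/-- growth of all derivatives -/
lemma deriv_bound {f : ℂ → ℂ} {D : Set ℂ} (hf : Differentiable ℂ f) (hD : IsCompact D)
    (hne : D.Nonempty) (hUB : UB f D) {σ : ℝ} (hσ : ∀ ζ ∈ D, ‖ζ‖ ≤ σ) {b ε : ℝ} (hε : 0 < ε)
    (hb : σ + ε < b) :
    ∃ C > 0, ∀ (k : ℕ) (z : ℂ), ‖iteratedDeriv k f z‖ ≤ C * b ^ k * Real.exp (H D z + ε * ‖z‖) := by
  obtain ⟨C, hC, hC'⟩ := hUB ε hε
  have hσ0 : 0 ≤ σ := (norm_nonneg _).trans (hσ _ hne.some_mem)
  have hb0 : 0 < b := by linarith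
  have hba : 0 < b - (σ + ε) := by linarith
  refine ⟨C * b / (b - (σ + ε)), by positivity, ?_⟩
  intro k z
  have h1 := int_trick (X := ‖iteratedDeriv k f z‖) (Y := C * Real.exp (H D z + ε * ‖z‖))
    (a := σ + ε) (b := b) (k := k) (norm_nonneg _) (by positivity) hb0 hb (by
      intro s hs
      have h2 := Complex.norm_iteratedDeriv_le_of_forall_mem_sphere_norm_le (c := z) (R := s)
        (f := f) (C := C * Real.exp (H D z + ε * ‖z‖) * Real.exp ((σ + ε) * s)) k hs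
        hf.diffContOnCl (by
          intro w hw
          rw [mem_sphere, dist_eq_norm] at hw
          refine (hC' w).trans ?_
          rw [mul_assoc, ← Real.exp_add]
          apply mul_le_mul_of_nonneg_left _ hC.le
          apply Real.exp_le_exp.mpr
          have h3 := H_lip hD hne hσ w z
          rw [hw] at h3
          have h4 : ‖w‖ ≤ ‖z‖ + s := by
            have := norm_add_le (w - z) z
            rw [sub_add_cancel, hw] at this
            linarith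
          nlinarith)
      rw [le_div_iff₀ (by positivity)] at h2
      linarith)
  calc ‖iteratedDeriv k f z‖ ≤ _ := h1
    _ = C * b / (b - (σ + ε)) * b ^ k * Real.exp (H D z + ε * ‖z‖) := by
      rw [pow_succ]; ring

end Pool.Agent.Helper960.Crg
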