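import Pool.Agent.Helper960.Crg.Exc

open Filter Topology Metric MeasureTheory

namespace Pool.Agent.Helper960.Crg

lemma choose_delta {σ ε : ℝ} (hε : 0 < ε) :
    ∃ δ : ℝ, 0 < δ ∧ δ ≤ 1 ∧
      2 * σ * δ + (4 + 4 * Real.log (72 / (ε * δ / 81))) * (4 * σ * δ) ≤ ε / 2 := by
  have h1 : Tendsto (fun δ : ℝ => Real.log δ * δ) (𝓝[>] 0) (𝓝 0) :=
    by
      have h := tendsto_log_mul_rpow_nhdsGT_zero zero_lt_one
      simpa only [Real.rpow_one] using h
  have h2 : Tendsto (fun δ : ℝ => δ) (𝓝[>] 0) (𝓝 0) := tendsto_id.mono_left nhdsWithin_le_nhds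
  have h3 : Tendsto (fun δ : ℝ => (18 * σ + 16 * σ * Real.log (5832 / ε)) * δ -
      16 * σ * (Real.log δ * δ)) (𝓝[>] 0) (𝓝 0) := by
    have := (h2.const_mul (18 * σ + 16 * σ * Real.log (5832 / ε))).sub (h1.const_mul (16 * σ))
    simpa using this
  have h4 : ∀ᶠ δ : ℝ in 𝓝[>] 0, δ < 1 :=
    (eventually_lt_nhds one_pos).filter_mono nhdsWithin_le_nhds
  have h5 : ∀ᶠ δ : ℝ in 𝓝[>] 0, 0 < δ := self_mem_nhdsWithin
  obtain ⟨δ, hδ1, hδ2, hδ3⟩ :=
    ((h3.eventually_le_const (show (0 : ℝ) < ε / 2 by positivity)).and (h4.and h5)).exists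
  refine ⟨δ, hδ3, hδ2.le, ?_⟩
  have h6 : Real.log (72 / (ε * δ / 81)) = Real.log (5832 / ε) - Real.log δ := by
    rw [← Real.log_div (by positivity) (by positivity)]
    congr 1
    field_simp
    norm_num
  rw [h6]
  linarith

lemma annulus {g : ℂ → ℂ} {D : Set ℂ} (hg : Differentiable ℂ g) (hD : IsCompact D)
    (hne : D.Nonempty) (hUB : UB g D) (hPL : ∀ u, PL g D u) {ε : ℝ} (hε : 0 < ε) (hε1 : ε ≤ 1) :
    ∀ᶠ r : ℝ in atTop, ∃ (ι : Type) (_ : Fintype ι) (c : ι → ℂ) (ρ : ι → ℝ),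
      (∀ i, 0 < ρ i) ∧ ∑ i, ρ i ≤ ε * r ∧
      ∀ z : ℂ, r ≤ ‖z‖ → ‖z‖ ≤ 2 * r → (∀ i, z ∉ closedBall (c i) (ρ i)) →
        Real.exp (H D z - ε * r) ≤ ‖g z‖ := by
  obtain ⟨σ, hσ⟩ := hD.isBounded.exists_norm_le
  have hσ0 : 0 ≤ σ := (norm_nonneg _).trans (hσ _ hne.some_mem)
  obtain ⟨δ, hδ0, hδ1, hδ2⟩ := choose_delta (σ := σ) hε
  set κ := ε * δ / 81 with hκ
  have hκ0 : 0 < κ := by positivity
  have hκ1 : κ ≤ 1 := by
    rw [hκ, div_le_one (by norm_num)]
    nlinarith
  set Lc := 4 + 4 * Real.log (72 / κ) with hLc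
  have hLc0 : 0 < Lc := by
    have : 0 ≤ Real.log (72 / κ) := by
      apply Real.log_nonneg
      rw [le_div_iff₀ hκ0]; linarith
    rw [hLc]; linarith
  set ε' := ε / (2 * (1 + 15 * Lc)) with hε'
  have hε'0 : 0 < ε' := by positivity
  have hε'1 : ε' * (1 + 15 * Lc) = ε / 2 := by rw [hε']; field_simp
  obtain ⟨C, hC, hCb⟩ := hUB ε' hε'0
  set M : ℤ := ⌈2 / δ⌉ + 1 with hM
  have hMr : (M : ℝ) ≤ 2 / δ + 2 := by
    rw [hM]; push_cast
    linarith [Int.ceil_lt_add_one (2 / δ)]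
  have hMr' : 2 / δ + 1 ≤ (M : ℝ) := by
    rw [hM]; push_cast
    linarith [Int.le_ceil (2 / δ)]
  have hM0 : (0 : ℝ) ≤ M := by
    have : 0 < 2 / δ := by positivity
    linarith
  set grid : Finset (ℤ × ℤ) := Finset.Icc (-M) M ×ˢ Finset.Icc (-M) M with hgrid
  set pt : ℤ × ℤ → ℂ := fun p => δ * ((p.1 : ℂ) + p.2 * Complex.I) with hpt
  have hptn : ∀ p ∈ grid, ‖pt p‖ ≤ 8 := by
    intro p hp
    rw [hgrid, Finset.mem_product, Finset.mem_Icc, Finset.mem_Icc] at hp
    have h1 : |(p.1 : ℝ)| ≤ M := by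
      rw [abs_le]; exact ⟨by exact_mod_cast hp.1.1, by exact_mod_cast hp.1.2⟩
    have h2 : |(p.2 : ℝ)| ≤ M := by
      rw [abs_le]; exact ⟨by exact_mod_cast hp.2.1, by exact_mod_cast hp.2.2⟩
    have h3 : ‖((p.1 : ℂ) + p.2 * Complex.I)‖ ≤ M + M := by
      refine (norm_add_le _ _).trans ?_
      rw [norm_mul, Complex.norm_I, mul_one]
      have e1 : ‖(p.1 : ℂ)‖ = |(p.1 : ℝ)| := by
        rw [← Complex.ofReal_intCast, Complex.norm_real, Real.norm_eq_abs]
      have e2 : ‖(p.2 : ℂ)‖ = |(p.2 : ℝ)| := by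
        rw [← Complex.ofReal_intCast, Complex.norm_real, Real.norm_eq_abs]
      rw [e1, e2]
      linarith
    simp only [hpt]
    rw [norm_mul, Complex.norm_real, Real.norm_eq_abs, abs_of_pos hδ0]
    calc δ * ‖((p.1 : ℂ) + p.2 * Complex.I)‖ ≤ δ * (M + M) := by gcongr
      _ ≤ δ * ((2 / δ + 2) + (2 / δ + 2)) := by gcongr
      _ = 4 + 4 * δ := by field_simp; ring
      _ ≤ 8 := by linarith
  have hcard : (grid.card : ℝ) ≤ 81 / δ ^ 2 := by
    rw [hgrid, Finset.card_product, Int.card_Icc]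
    have h1 : ((M + 1 - -M).toNat : ℝ) = 2 * M + 1 := by
      have h2 : (0 : ℤ) ≤ M + 1 - -M := by
        have : (0 : ℤ) ≤ M := by exact_mod_cast hM0
        linarith
      have h3 : (((M + 1 - -M).toNat : ℤ) : ℝ) = ((M + 1 - -M : ℤ) : ℝ) := by
        rw [Int.toNat_of_nonneg h2]
      rw [← Int.cast_natCast, h3]
      push_cast
      ring
    push_cast
    rw [h1]
    have h4 : 2 * (M : ℝ) + 1 ≤ 9 / δ := by
      have h5 : 1 ≤ 1 / δ := by rw [le_div_iff₀ hδ0]; linarith
      have h6 : 9 / δ = 2 * (2 / δ) + 5 * (1 / δ) := by field_simp; norm_num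
      rw [h6]
      linarith
    calc (2 * (M : ℝ) + 1) * (2 * M + 1) ≤ (9 / δ) * (9 / δ) := by gcongr
      _ = 81 / δ ^ 2 := by field_simp; norm_num
  have hev : ∀ p ∈ grid, ∀ᶠ r : ℝ in atTop, ∃ w : ℂ, ‖w - r * pt p‖ ≤ δ * r ∧
      Real.exp (H D w - ε' * r) ≤ ‖g w‖ := by
    intro p _
    obtain ⟨R, hR⟩ := hPL (pt p) δ hδ0 ε' hε'0
    exact eventually_atTop.mpr ⟨R, hR⟩
  have hev' := (Filter.eventually_all_finset grid).mpr hev
  have hlogC : ∀ᶠ r : ℝ in atTop, Real.log C ≤ ε' * r := by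
    have := (tendsto_id.const_mul_atTop hε'0 : Tendsto (fun r : ℝ => ε' * r) atTop atTop)
    exact this.eventually_ge_atTop _
  filter_upwards [hev', hlogC, eventually_gt_atTop 0] with r hw hlog hr0
  choose! w hw1 hw2 using hw
  set s := δ * r with hs
  have hs0 : 0 < s := by positivity
  have hsC : (s : ℂ) ≠ 0 := by exact_mod_cast hs0.ne'
  set m := (4 * σ * δ + 15 * ε') * r with hm
  have hm0 : 0 < m := by positivity
  have hwn : ∀ p ∈ grid, ‖w p‖ ≤ 9 * r := by
    intro p hp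
    have h1 := hw1 p hp
    have h2 : ‖w p‖ ≤ ‖w p - r * pt p‖ + ‖(r : ℂ) * pt p‖ := by
      have := norm_add_le (w p - r * pt p) (r * pt p)
      rwa [sub_add_cancel] at this
    rw [norm_mul, Complex.norm_real, Real.norm_eq_abs, abs_of_pos hr0] at h2
    have h3 := hptn p hp
    nlinarith
  have hS : ∀ p ∈ grid, ∃ S : Finset (ℂ × ℝ), (∀ q ∈ S, 0 < q.2) ∧ ∑ q ∈ S, q.2 ≤ κ ∧
      ∀ ζ : ℂ, ‖ζ‖ ≤ 2 → (∀ q ∈ S, ζ ∉ closedBall q.1 q.2) →
        Real.exp (-(Lc * m)) ≤ ‖g (w p + s * ζ) / g (w p)‖ := by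
    intro p hp
    have hgw : 0 < ‖g (w p)‖ := lt_of_lt_of_le (Real.exp_pos _) (hw2 p hp)
    have hgw' : g (w p) ≠ 0 := norm_pos_iff.mp hgw
    apply min_mod (G := fun ζ => g (w p + s * ζ) / g (w p)) _ hm0 _ _ hκ0 hκ1
    · exact (hg.comp ((differentiable_const _).add (differentiable_id.const_mul _))).div_const _
    · simp [div_self hgw']
    · intro ζ hζ
      rw [norm_div, div_le_iff₀ hgw]
      refine (hCb _).trans ?_
      have h1 : C = Real.exp (Real.log C) := (Real.exp_log hC).symm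
      calc C * Real.exp (H D (w p + s * ζ) + ε' * ‖w p + s * ζ‖)
          = Real.exp (Real.log C + (H D (w p + s * ζ) + ε' * ‖w p + s * ζ‖)) := by
            rw [Real.exp_add (Real.log C), Real.exp_log hC]
        _ ≤ Real.exp (m + (H D (w p) - ε' * r)) := by
            apply Real.exp_le_exp.mpr
            have h2 := H_lip hD hne hσ (w p + s * ζ) (w p)
            rw [add_sub_cancel_left] at h2
            have h3 : ‖(s : ℂ) * ζ‖ ≤ 4 * s := by
              rw [norm_mul, Complex.norm_real, Real.norm_eq_abs, abs_of_pos hs0]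
              nlinarith
            have h4 : ‖w p + s * ζ‖ ≤ 13 * r := by
              have := norm_add_le (w p) (s * ζ)
              have h5 := hwn p hp
              have h6 : s ≤ r := by rw [hs]; nlinarith
              linarith
            have h7 : σ * ‖(s : ℂ) * ζ‖ ≤ σ * (4 * s) := by gcongr
            have h8 : ε' * ‖w p + s * ζ‖ ≤ ε' * (13 * r) := by gcongr
            rw [hm]
            have h9 : σ * (4 * s) = 4 * σ * δ * r := by rw [hs]; ring
            nlinarith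
        _ = Real.exp m * Real.exp (H D (w p) - ε' * r) := Real.exp_add _ _
        _ ≤ Real.exp m * ‖g (w p)‖ := by gcongr; exact hw2 p hp
  choose! S hS1 hS2 hS3 using hS
  refine ⟨Σ x : {x // x ∈ grid}, {q // q ∈ S x.1}, inferInstance,
    fun i => w i.1.1 + s * i.2.1.1, fun i => s * i.2.1.2, ?_, ?_, ?_⟩
  · rintro ⟨x, q⟩
    exact mul_pos hs0 (hS1 x.1 x.2 q.1 q.2)
  · rw [Fintype.sum_sigma]
    have h1 : ∀ x : {x // x ∈ grid}, ∑ q : {q // q ∈ S x.1}, s * q.1.2 ≤ s * κ := by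
      intro x
      rw [← Finset.mul_sum, Finset.sum_coe_sort (S x.1) (fun q => q.2)]
      have := hS2 x.1 x.2
      gcongr
    calc ∑ x : {x // x ∈ grid}, ∑ q : {q // q ∈ S x.1}, s * q.1.2
        ≤ ∑ x : {x // x ∈ grid}, s * κ := Finset.sum_le_sum (fun x _ => h1 x)
      _ = grid.card * (s * κ) := by
          rw [Finset.sum_const, nsmul_eq_mul, Finset.card_univ, Fintype.card_coe]
      _ ≤ (81 / δ ^ 2) * (s * κ) := by gcongr
      _ = ε * r := by rw [hs, hκ]; field_simp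
  · intro z hz1 hz2 hzS
    -- nearest grid point
    set i : ℤ := round (z.re / (r * δ)) with hi
    set j : ℤ := round (z.im / (r * δ)) with hj
    have hrd : 0 < r * δ := by positivity
    have hi1 := abs_sub_round (z.re / (r * δ))
    have hj1 := abs_sub_round (z.im / (r * δ))
    rw [← hi] at hi1
    rw [← hj] at hj1
    have hre : |z.re / (r * δ)| ≤ 2 / δ := by
      rw [abs_div, abs_of_pos hrd, div_le_div_iff₀ hrd hδ0]
      have := Complex.abs_re_le_norm z
      nlinarith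
    have him : |z.im / (r * δ)| ≤ 2 / δ := by
      rw [abs_div, abs_of_pos hrd, div_le_div_iff₀ hrd hδ0]
      have := Complex.abs_im_le_norm z
      nlinarith
    have hiM : |(i : ℝ)| ≤ M := by
      have h1 : |(i : ℝ)| ≤ |z.re / (r * δ)| + |z.re / (r * δ) - i| := by
        have := abs_sub_abs_le_abs_sub (i : ℝ) (z.re / (r * δ))
        rw [abs_sub_comm] at this
        linarith
      linarith
    have hjM : |(j : ℝ)| ≤ M := by
      have h1 : |(j : ℝ)| ≤ |z.im / (r * δ)| + |z.im / (r * δ) - j| := by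
        have := abs_sub_abs_le_abs_sub (j : ℝ) (z.im / (r * δ))
        rw [abs_sub_comm] at this
        linarith
      linarith
    have hmem : (i, j) ∈ grid := by
      rw [hgrid, Finset.mem_product, Finset.mem_Icc, Finset.mem_Icc]
      rw [abs_le] at hiM hjM
      refine ⟨⟨?_, ?_⟩, ⟨?_, ?_⟩⟩
      · exact_mod_cast hiM.1
      · exact_mod_cast hiM.2
      · exact_mod_cast hjM.1
      · exact_mod_cast hjM.2
    set x : ℤ × ℤ := (i, j) with hx
    have hzx : ‖z - r * pt x‖ ≤ δ * r := by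
      have h1 : z - r * pt x = ((r * δ : ℝ) : ℂ) *
          (((z.re / (r * δ) - i : ℝ) : ℂ) + ((z.im / (r * δ) - j : ℝ) : ℂ) * Complex.I) := by
        have ha : z.re = r * δ * (z.re / (r * δ)) := by field_simp
        have hb : z.im = r * δ * (z.im / (r * δ)) := by field_simp
        have hz : z = ((r * δ * (z.re / (r * δ)) : ℝ) : ℂ) +
            ((r * δ * (z.im / (r * δ)) : ℝ) : ℂ) * Complex.I := by
          rw [← ha, ← hb]; exact (Complex.re_add_im z).symm
        conv_lhs => rw [hz]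
        generalize z.re / (r * δ) = a
        generalize z.im / (r * δ) = b
        simp only [hpt, hx]
        push_cast
        ring
      rw [h1, norm_mul, Complex.norm_real, Real.norm_eq_abs, abs_of_pos hrd]
      have h2 : ‖(((z.re / (r * δ) - i : ℝ) : ℂ) + ((z.im / (r * δ) - j : ℝ) : ℂ) * Complex.I)‖ ≤ 1 := by
        refine (norm_add_le _ _).trans ?_
        rw [norm_mul, Complex.norm_I, mul_one, Complex.norm_real, Complex.norm_real,
          Real.norm_eq_abs, Real.norm_eq_abs]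
        linarith
      nlinarith
    set ζ := (z - w x) / s with hζ
    have hzw : ‖z - w x‖ ≤ 2 * s := by
      calc ‖z - w x‖ = ‖(z - r * pt x) - (w x - r * pt x)‖ := by ring_nf
        _ ≤ ‖z - r * pt x‖ + ‖w x - r * pt x‖ := norm_sub_le _ _
        _ ≤ δ * r + δ * r := add_le_add hzx (hw1 x hmem)
        _ = 2 * s := by rw [hs]; ring
    have hζn : ‖ζ‖ ≤ 2 := by
      rw [hζ, norm_div, Complex.norm_real, Real.norm_eq_abs, abs_of_pos hs0, div_le_iff₀ hs0]
      exact hzw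
    have hzeq : w x + s * ζ = z := by rw [hζ]; field_simp; ring
    have h1 := hS3 x hmem ζ hζn (by
      intro q hq hmemq
      apply hzS ⟨⟨x, hmem⟩, ⟨q, hq⟩⟩
      rw [mem_closedBall, dist_eq_norm] at hmemq ⊢
      show ‖z - (w x + s * q.1)‖ ≤ s * q.2
      have : z - (w x + s * q.1) = s * (ζ - q.1) := by
        rw [← hzeq]; ring
      rw [this, norm_mul, Complex.norm_real, Real.norm_eq_abs, abs_of_pos hs0]
      gcongr)
    rw [hzeq] at h1
    have hgw : 0 < ‖g (w x)‖ := lt_of_lt_of_le (Real.exp_pos _) (hw2 x hmem)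
    rw [norm_div, le_div_iff₀ hgw] at h1
    refine le_trans ?_ h1
    calc Real.exp (H D z - ε * r) ≤ Real.exp (-(Lc * m) + (H D (w x) - ε' * r)) := by
          apply Real.exp_le_exp.mpr
          have h2 := H_lip hD hne hσ z (w x)
          have h3 : σ * ‖z - w x‖ ≤ σ * (2 * s) := by gcongr
          have h4 : σ * (2 * s) = 2 * σ * δ * r := by rw [hs]; ring
          have h5 : Lc * m = (Lc * (4 * σ * δ) + 15 * Lc * ε') * r := by rw [hm]; ring
          rw [h5]
          have h6 : 2 * σ * δ + Lc * (4 * σ * δ) ≤ ε / 2 := hδ2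
          have h7 : (2 * σ * δ + Lc * (4 * σ * δ) + ε' * (1 + 15 * Lc)) * r ≤ ε * r := by
            gcongr
            linarith
          nlinarith
      _ = Real.exp (-(Lc * m)) * Real.exp (H D (w x) - ε' * r) := Real.exp_add _ _
      _ ≤ Real.exp (-(Lc * m)) * ‖g (w x)‖ := by gcongr; exact hw2 x hmem

/-! ### Assembling the exceptional set -/

lemma diag {P : ℕ → ℝ → Prop} (h : ∀ ε > 0, ε ≤ 1 → ∀ᶠ n in atTop, P n ε) :
    ∃ e : ℕ → ℝ, (∀ n, 0 < e n) ∧ (∀ n, e n ≤ 1) ∧ Tendsto e atTop (𝓝 0) ∧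
      ∀ᶠ n in atTop, P n (e n) := by
  classical
  set k : ℕ → ℕ := fun n => Nat.findGreatest (fun k => P n (1 / ((k : ℝ) + 1))) n with hk
  have hle : ∀ k : ℕ, 1 / ((k : ℝ) + 1) ≤ 1 := by
    intro k
    rw [div_le_one (by positivity)]
    linarith [(Nat.cast_nonneg k : (0 : ℝ) ≤ k)]
  refine ⟨fun n => 1 / ((k n : ℝ) + 1), fun n => by positivity, fun n => hle _, ?_, ?_⟩
  · have hkt : Tendsto k atTop atTop := by
      rw [tendsto_atTop_atTop]
      intro K
      obtain ⟨N, hN⟩ := eventually_atTop.mp (h (1 / ((K : ℝ) + 1)) (by positivity) (hle K))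
      refine ⟨max N K, fun n hn => ?_⟩
      exact Nat.le_findGreatest ((le_max_right _ _).trans hn) (hN n ((le_max_left _ _).trans hn))
    exact tendsto_one_div_add_atTop_nhds_zero_nat.comp hkt
  · filter_upwards [h (1 / (((0 : ℕ) : ℝ) + 1)) (by norm_num) (hle 0)] with n hn
    exact Nat.findGreatest_spec (P := fun k => P n (1 / ((k : ℝ) + 1))) (Nat.zero_le n) hn

lemma sum_small {e : ℕ → ℝ} (he0 : ∀ n, 0 < e n) (he : Tendsto e atTop (𝓝 0)) :
    Tendsto (fun R : ℝ => (∑' n : ℕ, if (2 : ℝ) ^ n / 2 < R then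
      ENNReal.ofReal (2 * e n * 2 ^ n) else 0) / ENNReal.ofReal R) atTop (𝓝 0) := by
  rw [ENNReal.tendsto_nhds_zero]
  intro τ' hτ'
  obtain ⟨τ, hτ, hττ'⟩ : ∃ τ : ℝ, 0 < τ ∧ ENNReal.ofReal τ ≤ τ' := by
    rcases eq_or_ne τ' ⊤ with rfl | hne
    · exact ⟨1, one_pos, le_top⟩
    · exact ⟨τ'.toReal, ENNReal.toReal_pos hτ'.ne' hne, (ENNReal.ofReal_toReal hne).le⟩
  obtain ⟨n₀, hn₀⟩ := eventually_atTop.mp (he.eventually (gt_mem_nhds (show 0 < τ / 16 by
    positivity)))
  set A := ∑ n ∈ Finset.range n₀, 2 * e n * 2 ^ n with hA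
  have hA0 : 0 ≤ A := Finset.sum_nonneg (fun n _ => by have := he0 n; positivity)
  filter_upwards [eventually_ge_atTop (max 1 (2 * A / τ))] with R hR
  have hR1 : 1 ≤ R := (le_max_left _ _).trans hR
  have hR0 : 0 < R := by linarith
  have hRA : A ≤ τ / 2 * R := by
    have := (le_max_right _ _).trans hR
    rw [div_le_iff₀ hτ] at this
    linarith
  refine le_trans ?_ hττ'
  rw [ENNReal.div_le_iff (by rwa [Ne, ENNReal.ofReal_eq_zero, not_le]) ENNReal.ofReal_ne_top,
    ← ENNReal.ofReal_mul hτ.le]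
  -- a cut-off `N`
  obtain ⟨N, hN1, hN2⟩ : ∃ N : ℕ, 2 * R ≤ 2 ^ N ∧ (2 : ℝ) ^ N ≤ 4 * R := by
    obtain ⟨M, hM⟩ := pow_unbounded_of_one_lt (2 * R) (by norm_num : (1 : ℝ) < 2)
    have hex : ∃ N : ℕ, 2 * R ≤ 2 ^ N := ⟨M, hM.le⟩
    classical
    refine ⟨Nat.find hex, Nat.find_spec hex, ?_⟩
    rcases Nat.eq_zero_or_pos (Nat.find hex) with h0 | hpos
    · rw [h0]; norm_num; linarith
    · have h1 := Nat.find_min hex (m := Nat.find hex - 1) (by omega)
      push Not at h1
      have h2 : (2 : ℝ) ^ Nat.find hex = 2 * 2 ^ (Nat.find hex - 1) := by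
        conv_lhs => rw [show Nat.find hex = (Nat.find hex - 1) + 1 by omega]
        rw [pow_succ]; ring
      rw [h2]; linarith
  have h1 : (∑' n : ℕ, if (2 : ℝ) ^ n / 2 < R then ENNReal.ofReal (2 * e n * 2 ^ n) else 0) ≤
      ∑ n ∈ Finset.range N, ENNReal.ofReal (2 * e n * 2 ^ n) := by
    rw [tsum_eq_sum (s := Finset.range N)]
    · apply Finset.sum_le_sum
      intro n _
      split_ifs
      · exact le_rfl
      · exact zero_le
    · intro n hn
      rw [Finset.mem_range, not_lt] at hn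
      rw [if_neg]
      rw [not_lt]
      have : (2 : ℝ) ^ N ≤ 2 ^ n := pow_le_pow_right₀ (by norm_num) hn
      linarith
  refine h1.trans ?_
  rw [← ENNReal.ofReal_sum_of_nonneg (fun n _ => by have := he0 n; positivity)]
  apply ENNReal.ofReal_le_ofReal
  have h2 : ∀ n ∈ Finset.range N, 2 * e n * 2 ^ n ≤
      (if n < n₀ then 2 * e n * 2 ^ n else 0) + τ / 8 * 2 ^ n := by
    intro n _
    have hp : (0 : ℝ) < 2 ^ n := by positivity
    split_ifs with hlt
    · have : 0 ≤ τ / 8 * 2 ^ n := by positivity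
      linarith
    · have h3 := hn₀ n (by omega)
      nlinarith
  refine (Finset.sum_le_sum h2).trans ?_
  rw [Finset.sum_add_distrib, ← Finset.mul_sum]
  have h4 : ∑ n ∈ Finset.range N, (if n < n₀ then 2 * e n * 2 ^ n else 0) ≤ A := by
    rw [← Finset.sum_filter]
    apply Finset.sum_le_sum_of_subset_of_nonneg
    · intro n hn
      rw [Finset.mem_filter] at hn
      rw [Finset.mem_range]
      exact hn.2
    · intro n _ _
      have := he0 n
      positivity
  have h5 : ∑ n ∈ Finset.range N, (2 : ℝ) ^ n ≤ 2 ^ N := by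
    rw [geom_sum_eq (by norm_num)]
    norm_num
  have h6 : τ / 8 * ∑ n ∈ Finset.range N, (2 : ℝ) ^ n ≤ τ / 8 * (4 * R) := by
    gcongr
    linarith
  linarith

lemma to_nat {ι : Type} [Countable ι] (c : ι → ℂ) (ρ : ι → ℝ) (h0 : ∀ i, 0 ≤ ρ i) :
    ∃ (c' : ℕ → ℂ) (ρ' : ℕ → ℝ), (∀ j, 0 ≤ ρ' j) ∧
      (∀ R : ℝ, (∑' j, if ‖c' j‖ < R then ENNReal.ofReal (ρ' j) else 0) =
        ∑' i, if ‖c i‖ < R then ENNReal.ofReal (ρ i) else 0) ∧
      ∀ z : ℂ, (∀ j, ρ' j ≤ ‖z - c' j‖) → ∀ i, ρ i ≤ ‖z - c i‖ := by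
  classical
  obtain ⟨e, he⟩ := exists_injective_nat ι
  set c' : ℕ → ℂ := fun n => if h : ∃ i, e i = n then c h.choose else 0 with hc'
  set ρ' : ℕ → ℝ := fun n => if h : ∃ i, e i = n then ρ h.choose else 0 with hρ'
  have hce : ∀ i, c' (e i) = c i := by
    intro i
    have h : ∃ i', e i' = e i := ⟨i, rfl⟩
    simp only [hc', dif_pos h]
    rw [he h.choose_spec]
  have hρe : ∀ i, ρ' (e i) = ρ i := by
    intro i
    have h : ∃ i', e i' = e i := ⟨i, rfl⟩
    simp only [hρ', dif_pos h]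
    rw [he h.choose_spec]
  refine ⟨c', ρ', ?_, ?_, ?_⟩
  · intro j
    simp only [hρ']
    split_ifs with h
    · exact h0 _
    · exact le_rfl
  · intro R
    rw [← he.tsum_eq]
    · congr 1
      funext i
      rw [hce, hρe]
    · intro n hn
      rw [Function.mem_support] at hn
      by_contra hcon
      apply hn
      have h : ¬ ∃ i, e i = n := fun ⟨i, hi⟩ => hcon ⟨i, hi⟩
      have : ρ' n = 0 := by simp only [hρ', dif_neg h]
      rw [this, ENNReal.ofReal_zero, ite_self]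
  · intro z hz i
    have := hz (e i)
    rwa [hce, hρe] at this

/-- upper bounds and many lower bounds give regular growth -/
lemma exists_reg {g : ℂ → ℂ} {D : Set ℂ} (hg : Differentiable ℂ g) (hD : IsCompact D)
    (hne : D.Nonempty) (hUB : UB g D) (hPL : ∀ u, PL g D u) :
    ∃ (c : ℕ → ℂ) (ρ : ℕ → ℝ), Thin c ρ ∧ Reg g D c ρ := by
  classical
  set P : ℕ → ℝ → Prop := fun n ε => ∃ (k : ℕ) (c : Fin k → ℂ) (ρ : Fin k → ℝ),
      (∀ i, 0 < ρ i) ∧ ∑ i, ρ i ≤ ε * 2 ^ n ∧
      ∀ z : ℂ, 2 ^ n ≤ ‖z‖ → ‖z‖ ≤ 2 * 2 ^ n → (∀ i, z ∉ closedBall (c i) (ρ i)) →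
        Real.exp (H D z - ε * 2 ^ n) ≤ ‖g z‖ with hP
  have hP1 : ∀ ε > 0, ε ≤ 1 → ∀ᶠ n in atTop, P n ε := by
    intro ε hε hε1
    have h1 : Tendsto (fun n : ℕ => (2 : ℝ) ^ n) atTop atTop :=
      tendsto_pow_atTop_atTop_of_one_lt (by norm_num)
    filter_upwards [h1.eventually (annulus hg hD hne hUB hPL hε hε1)] with n hn
    obtain ⟨ι, hι, c, ρ, a1, a2, a3⟩ := hn
    set q := Fintype.equivFin ι
    refine ⟨Fintype.card ι, fun i => c (q.symm i), fun i => ρ (q.symm i), fun i => a1 _, ?_, ?_⟩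
    · rw [Equiv.sum_comp q.symm ρ]
      exact a2
    · intro z hz1 hz2 hz3
      apply a3 z hz1 hz2
      intro i
      have := hz3 (q i)
      simpa using this
  obtain ⟨e, he0, he1, het, heP⟩ := diag hP1
  obtain ⟨N, hN⟩ := eventually_atTop.mp heP
  obtain ⟨N₂, hN₂⟩ := eventually_atTop.mp (het.eventually (gt_mem_nhds (show (0 : ℝ) < 1 / 2 by
    norm_num)))
  choose! ι c ρ hρ hsum hlow using hN
  -- the total family
  set N₁ := max N N₂ with hN₁
  set J := Σ n : {n : ℕ // N₁ ≤ n}, Fin (ι n.1) with hJ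
  have hcount : Countable J := by
    rw [hJ]
    infer_instance
  set cc : J → ℂ := fun x => c x.1.1 x.2 with hcc
  set rr : J → ℝ := fun x => if 2 ^ x.1.1 ≤ ‖c x.1.1 x.2‖ + ρ x.1.1 x.2 then
    2 * ρ x.1.1 x.2 else 0 with hrr
  have hrr0 : ∀ x, 0 ≤ rr x := by
    intro x
    simp only [hrr]
    split_ifs
    · have := hρ x.1.1 ((le_max_left _ _).trans x.1.2) x.2
      linarith
    · exact le_rfl
  obtain ⟨c', ρ', h1, h2, h3⟩ := to_nat cc rr hrr0
  refine ⟨c', ρ', ⟨h1, ?_⟩, ?_⟩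
  · -- density zero
    refine tendsto_of_tendsto_of_tendsto_of_le_of_le tendsto_const_nhds (sum_small he0 het)
      (fun R => zero_le) (fun R => ?_)
    apply ENNReal.div_le_div_right
    rw [h2 R]
    have hJ2 : (∑' x : J, if ‖cc x‖ < R then ENNReal.ofReal (rr x) else 0) =
        ∑' n : {n : ℕ // N₁ ≤ n}, ∑' i : Fin (ι n.1),
          if ‖cc ⟨n, i⟩‖ < R then ENNReal.ofReal (rr ⟨n, i⟩) else 0 := ENNReal.tsum_sigma' _
    rw [hJ2]
    have h4 : ∀ n : {n : ℕ // N₁ ≤ n}, (∑' i : Fin (ι n.1),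
          if ‖cc ⟨n, i⟩‖ < R then ENNReal.ofReal (rr ⟨n, i⟩) else 0) ≤
        (fun m : ℕ => if (2 : ℝ) ^ m / 2 < R then
          ENNReal.ofReal (2 * e m * 2 ^ m) else 0) n.1 := by
      intro n
      have hsn := hsum n.1 ((le_max_left _ _).trans n.2)
      have hρn := hρ n.1 ((le_max_left _ _).trans n.2)
      have hen := (hN₂ n.1 ((le_max_right _ _).trans n.2)).le
      have hp : (0 : ℝ) < 2 ^ n.1 := by positivity
      have hρle : ∀ i, ρ n.1 i ≤ 2 ^ n.1 / 2 := by
        intro i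
        have h5 : ρ n.1 i ≤ ∑ i, ρ n.1 i :=
          Finset.single_le_sum (fun j _ => (hρn j).le) (Finset.mem_univ i)
        nlinarith
      show _ ≤ if (2 : ℝ) ^ n.1 / 2 < R then ENNReal.ofReal (2 * e n.1 * 2 ^ n.1) else 0
      split_ifs with hR
      · rw [tsum_fintype]
        calc ∑ i : Fin (ι n.1), (if ‖cc ⟨n, i⟩‖ < R then ENNReal.ofReal (rr ⟨n, i⟩) else 0)
            ≤ ∑ i : Fin (ι n.1), ENNReal.ofReal (2 * ρ n.1 i) := by
              apply Finset.sum_le_sum
              intro i _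
              split_ifs
              · apply ENNReal.ofReal_le_ofReal
                simp only [hrr]
                split_ifs
                · exact le_rfl
                · have := hρn i
                  linarith
              · exact zero_le
          _ = ENNReal.ofReal (∑ i : Fin (ι n.1), 2 * ρ n.1 i) :=
              (ENNReal.ofReal_sum_of_nonneg (fun i _ => by have := hρn i; linarith)).symm
          _ ≤ ENNReal.ofReal (2 * e n.1 * 2 ^ n.1) := by
              apply ENNReal.ofReal_le_ofReal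
              rw [← Finset.mul_sum]
              linarith
      · rw [nonpos_iff_eq_zero, ENNReal.tsum_eq_zero]
        intro i
        split_ifs with hlt
        · simp only [hrr]
          rw [if_neg, ENNReal.ofReal_zero]
          intro hcon
          have h6 := hρle i
          apply hR
          have h7 : ‖c n.1 i‖ < R := hlt
          have h8 : (2 : ℝ) ^ n.1 ≤ ‖c n.1 i‖ + ρ n.1 i := hcon
          linarith
        · rfl
    refine (ENNReal.tsum_le_tsum h4).trans ?_
    exact ENNReal.tsum_comp_le_tsum_of_injective Subtype.val_injective _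
  · -- regularity
    intro ε hε
    obtain ⟨C, hC, hCb⟩ := hUB (ε / 2) (by positivity)
    obtain ⟨N₃, hN₃⟩ := eventually_atTop.mp (het.eventually (gt_mem_nhds hε))
    refine ⟨max (2 ^ (max N₁ N₃)) (2 * |Real.log C| / ε), fun w hw havoid => ⟨?_, ?_⟩⟩
    · have hw1 : (2 : ℝ) ^ (max N₁ N₃) ≤ ‖w‖ := (le_max_left _ _).trans hw
      have hw0 : (1 : ℝ) ≤ ‖w‖ := (one_le_pow₀ (by norm_num)).trans hw1
      obtain ⟨n, hn1, hn2⟩ := exists_nat_pow_near hw0 (by norm_num : (1 : ℝ) < 2)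
      have hnN : max N₁ N₃ ≤ n := by
        by_contra hlt
        push Not at hlt
        have : (2 : ℝ) ^ (n + 1) ≤ 2 ^ (max N₁ N₃) := pow_le_pow_right₀ (by norm_num) (by omega)
        linarith
      have hn1' : N₁ ≤ n := (le_max_left _ _).trans hnN
      have h4 := hlow n ((le_max_left _ _).trans hn1') w hn1 (by rw [pow_succ] at hn2; linarith) (by
        intro i hmem
        have h5 := h3 w havoid ⟨⟨n, hn1'⟩, i⟩
        have h6 := hρ n ((le_max_left _ _).trans hn1') i
        rw [mem_closedBall, dist_eq_norm] at hmem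
        have h7 : (2 : ℝ) ^ n ≤ ‖c n i‖ + ρ n i := by
          have := norm_add_le (w - c n i) (c n i)
          rw [sub_add_cancel] at this
          linarith
        have h8 : rr ⟨⟨n, hn1'⟩, i⟩ = 2 * ρ n i := by
          simp only [hrr]
          rw [if_pos h7]
        rw [h8] at h5
        have h9 : 2 * ρ n i ≤ ‖w - c n i‖ := h5
        linarith)
      refine le_trans ?_ h4
      apply Real.exp_le_exp.mpr
      have h5 := (hN₃ n ((le_max_right _ _).trans hnN)).le
      have h6 := he0 n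
      have h7 : e n * 2 ^ n ≤ ε * ‖w‖ := by
        apply mul_le_mul h5 hn1 (by positivity) hε.le
      linarith
    · have hw1 : 2 * |Real.log C| / ε ≤ ‖w‖ := (le_max_right _ _).trans hw
      rw [div_le_iff₀ hε] at hw1
      refine (hCb w).trans ?_
      have h4 : C = Real.exp (Real.log C) := (Real.exp_log hC).symm
      calc C * Real.exp (H D w + ε / 2 * ‖w‖)
          = Real.exp (Real.log C + (H D w + ε / 2 * ‖w‖)) := by
            rw [Real.exp_add (Real.log C), Real.exp_log hC]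
        _ ≤ _ := by
            apply Real.exp_le_exp.mpr
            have := le_abs_self (Real.log C)
            linarith

/-- upper bounds and many lower bounds give completely regular growth -/
theorem crg_of {g : ℂ → ℂ} {D : Set ℂ} (hg : Differentiable ℂ g) (hD : IsCompact D)
    (hne : D.Nonempty) (hUB : UB g D) (hPL : ∀ u, PL g D u) : CRG g := by
  obtain ⟨σ, hσ⟩ := hD.isBounded.exists_norm_le
  have hσ0 : 0 ≤ σ := (norm_nonneg _).trans (hσ _ hne.some_mem)
  obtain ⟨c, ρ, hT, hR⟩ := exists_reg hg hD hne hUB hPL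
  have hnorm : ∀ r : ℝ, 0 ≤ r → ∀ θ : ℝ, ‖(r : ℂ) * Complex.exp (θ * Complex.I)‖ = r := by
    intro r hr θ
    rw [norm_mul, Complex.norm_exp_ofReal_mul_I, mul_one, Complex.norm_real, Real.norm_eq_abs,
      abs_of_nonneg hr]
  have hHr : ∀ r : ℝ, 0 ≤ r → ∀ θ : ℝ, H D ((r : ℂ) * Complex.exp (θ * Complex.I)) =
      r * H D (Complex.exp (θ * Complex.I)) := fun r hr θ => H_smul hD hne _ hr
  refine ⟨⟨hg, ?_⟩, ?_, fun θ => H D (Complex.exp (θ * Complex.I)), ?_, c, ρ, hT.1, hT.2, ?_⟩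
  · obtain ⟨C, hC, hCb⟩ := hUB 1 one_pos
    refine ⟨C, σ + 1, fun z => (hCb z).trans ?_⟩
    have := H_le_norm hne hσ z
    gcongr
    linarith
  · obtain ⟨R, hR'⟩ := hPL 0 1 one_pos 1 one_pos
    obtain ⟨w, -, hw⟩ := hR' R le_rfl
    refine ⟨w, ?_⟩
    intro h0
    rw [h0, norm_zero] at hw
    linarith [Real.exp_pos (H D w - 1 * R)]
  · intro θ
    apply indicator_of
    · intro ε hε
      obtain ⟨C, hC, hCb⟩ := hUB (ε / 2) (by positivity)
      have h1 : ∀ᶠ r : ℝ in atTop, Real.log C ≤ ε / 2 * r :=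
        (tendsto_id.const_mul_atTop (show (0 : ℝ) < ε / 2 by positivity)).eventually_ge_atTop _
      filter_upwards [h1, eventually_ge_atTop 0] with r hr hr0
      refine (hCb _).trans ?_
      rw [hnorm r hr0 θ, hHr r hr0 θ]
      calc C * Real.exp (r * H D (Complex.exp (θ * Complex.I)) + ε / 2 * r)
          = Real.exp (Real.log C + (r * H D (Complex.exp (θ * Complex.I)) + ε / 2 * r)) := by
            rw [Real.exp_add (Real.log C), Real.exp_log hC]
        _ ≤ _ := by
            apply Real.exp_le_exp.mpr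
            linarith
    · intro ε hε
      rw [frequently_atTop]
      intro R₁
      obtain ⟨R₂, hR₂⟩ := hR ε hε
      obtain ⟨R₀, hR₀, hc⟩ := circ hT (δ := 1 / 2) (by norm_num) le_rfl
      set r := max R₀ (max |R₁| |R₂|) with hr
      have hr0 : 0 < r := lt_of_lt_of_le hR₀ (le_max_left _ _)
      obtain ⟨s, hs0, hs1, hs2⟩ := hc ((r : ℂ) * Complex.exp (θ * Complex.I)) (by
        rw [hnorm r hr0.le θ]; exact le_max_left _ _)
      refine ⟨r + s, ?_, ?_⟩
      · have h1 : |R₁| ≤ r := (le_max_left _ _).trans (le_max_right _ _)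
        have := le_abs_self R₁
        linarith
      · have h1 : |R₂| ≤ r := (le_max_right _ _).trans (le_max_right _ _)
        have h2 := le_abs_self R₂
        have h3 := (hR₂ (((r + s : ℝ) : ℂ) * Complex.exp (θ * Complex.I)) (by
          rw [hnorm (r + s) (by linarith) θ]; linarith) (hs2 _ (by
          have : ((r + s : ℝ) : ℂ) * Complex.exp (θ * Complex.I) -
              (r : ℂ) * Complex.exp (θ * Complex.I) = (s : ℂ) * Complex.exp (θ * Complex.I) := by
            push_cast; ring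
          rw [this, hnorm s hs0.le θ]))).1
        rw [hnorm (r + s) (by linarith) θ, hHr (r + s) (by linarith) θ] at h3
        refine le_trans (le_of_eq ?_) h3
        congr 1
        ring
  · intro ε hε
    obtain ⟨R₂, hR₂⟩ := hR ε hε
    refine ⟨max R₂ 0, fun r hr θ havoid => ?_⟩
    have hr0 : 0 ≤ r := (le_max_right _ _).trans hr
    have h1 := hR₂ ((r : ℂ) * Complex.exp (θ * Complex.I)) (by
      rw [hnorm r hr0 θ]; exact (le_max_left _ _).trans hr) havoid
    rw [hnorm r hr0 θ, hHr r hr0 θ] at h1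
    constructor
    · refine le_trans (le_of_eq ?_) h1.1
      congr 1; ring
    · refine h1.2.trans (le_of_eq ?_)
      congr 1; ring

end Pool.Agent.Helper960.Crg
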