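import Pool.Agent.Helper960.Crg.Hopf

open Filter Topology Metric

namespace Pool.Agent.Helper960.Crg

/-! ### Geometry of the cone at a point of the diagram -/

lemma disc_lemma {D : Set ℂ} {q p : ℂ} {c : ℝ} (hc : 0 < c)
    (hq : ∀ ζ ∈ D, (ζ * q).re + c * ‖ζ‖ ≤ 0) (hp0 : p ≠ 0)
    (hp : ∀ ζ ∈ D, ζ ≠ 0 → (ζ * p).re < 0) :
    ∃ (a : ℂ) (R : ℝ), 0 < R ∧ ‖p - a‖ = R ∧ ∀ ζ ∈ D, ζ ≠ 0 → (ζ * a).re + R * ‖ζ‖ < 0 := by
  have hpn : 0 < ‖p‖ := norm_pos_iff.mpr hp0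
  set α := (q / p).re with hα
  set β := (q / p).im with hβ
  obtain ⟨s, hs1, hs2⟩ : ∃ s : ℝ, (s = 1 ∨ s = -1) ∧ s * β = |β| := by
    rcases le_total 0 β with h | h
    · exact ⟨1, Or.inl rfl, by rw [abs_of_nonneg h, one_mul]⟩
    · exact ⟨-1, Or.inr rfl, by rw [abs_of_nonpos h]; ring⟩
  have hss : s * s = 1 := by rcases hs1 with rfl | rfl <;> norm_num
  have habs : |s| = 1 := by rcases hs1 with rfl | rfl <;> norm_num
  set ρ := min (1 / 2) (c / ‖p‖ / (4 * (|α| + 1))) with hρ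
  have hρ0 : 0 < ρ := lt_min (by norm_num) (by positivity)
  have hρ1 : ρ ≤ 1 / 2 := min_le_left _ _
  have hρ2 : 4 * ρ * (|α| + 1) ≤ c / ‖p‖ := by
    have h1 : ρ ≤ c / ‖p‖ / (4 * (|α| + 1)) := min_le_right _ _
    rw [le_div_iff₀ (by positivity)] at h1
    linarith
  refine ⟨p * (1 + Complex.I * ((s * ρ : ℝ) : ℂ)), ρ * ‖p‖, by positivity, ?_, ?_⟩
  · have : p - p * (1 + Complex.I * ((s * ρ : ℝ) : ℂ)) = -(p * (Complex.I * ((s * ρ : ℝ) : ℂ))) := by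
      ring
    rw [this, norm_neg, norm_mul, norm_mul, Complex.norm_I, one_mul, Complex.norm_real,
      Real.norm_eq_abs, abs_mul, habs, abs_of_pos hρ0]
    ring
  · intro ζ hζ hζ0
    set x := (ζ * p).re with hx
    set y := (ζ * p).im with hy
    set n := ‖ζ * p‖ with hn
    have hn0 : 0 < n := norm_pos_iff.mpr (mul_ne_zero hζ0 hp0)
    have hx0 : x < 0 := hp ζ hζ hζ0
    have e1 : (ζ * (p * (1 + Complex.I * ((s * ρ : ℝ) : ℂ)))).re = x - s * ρ * y := by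
      have : ζ * (p * (1 + Complex.I * ((s * ρ : ℝ) : ℂ))) =
          ζ * p + ((s * ρ : ℝ) : ℂ) * (Complex.I * (ζ * p)) := by ring
      rw [this, Complex.add_re, Complex.re_ofReal_mul, Complex.I_mul_re]
      ring
    have e2 : ρ * ‖p‖ * ‖ζ‖ = ρ * n := by rw [hn, norm_mul]; ring
    have e3 : (ζ * q).re = x * α - y * β := by
      have : ζ * q = (ζ * p) * (q / p) := by field_simp
      rw [this, Complex.mul_re]
    have e4 : c * ‖ζ‖ = c / ‖p‖ * n := by rw [hn, norm_mul]; field_simp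
    have h1 := hq ζ hζ
    rw [e3, e4] at h1
    rw [e1, e2]
    have hny : |y| ≤ n := Complex.abs_im_le_norm _
    have hnxy : n ≤ |x| + |y| := Complex.norm_le_abs_re_add_abs_im _
    rw [abs_of_neg hx0] at hnxy
    rcases le_or_gt 0 (s * y) with h | h
    · have h2 : |y| = s * y := by
        rw [← abs_of_nonneg h, abs_mul, habs, one_mul]
      rw [h2] at hnxy
      nlinarith
    · have h2 : |y| = -(s * y) := by
        rw [← abs_of_neg h, abs_mul, habs, one_mul]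
      have h3 : y * β ≤ 0 := by
        have h4 : y * β = (s * y) * (s * β) := by
          have : (s * y) * (s * β) = (s * s) * (y * β) := by ring
          rw [this, hss, one_mul]
        rw [h4, hs2]
        exact mul_nonpos_of_nonpos_of_nonneg h.le (abs_nonneg _)
      have h4 : c / ‖p‖ * n ≤ -x * |α| := by
        have h5 : -(x * α) ≤ |x * α| := neg_le_abs _
        rw [abs_mul, abs_of_neg hx0] at h5
        linarith
      have h5 : 4 * ρ * n ≤ -x := by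
        have h6 : 4 * ρ * (|α| + 1) * n ≤ c / ‖p‖ * n := mul_le_mul_of_nonneg_right hρ2 hn0.le
        have h7 : 4 * ρ * n * (|α| + 1) ≤ -x * (|α| + 1) := by nlinarith
        exact le_of_mul_le_mul_right h7 (by positivity)
      nlinarith

/-- the polar cone -/
def C₀ (D : Set ℂ) : Set ℂ := {z | ∀ ζ ∈ D, (ζ * z).re ≤ 0}

lemma C₀_closed (D : Set ℂ) : IsClosed (C₀ D) := by
  have : C₀ D = ⋂ ζ ∈ D, {z : ℂ | (ζ * z).re ≤ 0} := by
    ext z; simp [C₀]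
  rw [this]
  exact isClosed_biInter (fun ζ _ => isClosed_le
    (Complex.continuous_re.comp (continuous_const.mul continuous_id)) continuous_const)

lemma exists_dir {D : Set ℂ} (hD0 : ∃ ζ ∈ D, ζ ≠ 0) {q : ℂ}
    (hq : q ∈ U₀ D) (e : ℝ) (he : e = 1 ∨ e = -1) :
    ∃ z : ℂ, z ∈ C₀ D ∧ z ∈ closure (C₀ D)ᶜ ∧ z ≠ 0 ∧ 0 < e * (z / q).im := by
  obtain ⟨c, hc, hqc⟩ := hq
  obtain ⟨ζ₀, hζ₀, hζ₀0⟩ := hD0
  have hn : 0 < ‖ζ₀‖ := norm_pos_iff.mpr hζ₀0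
  have hre : (ζ₀ * q).re < 0 := by
    have := hqc ζ₀ hζ₀
    nlinarith [mul_pos hc hn]
  have hq0 : q ≠ 0 := by
    rintro rfl
    simp at hre
  set γ : ℝ → ℂ := fun θ => q * Complex.exp ((e * θ : ℝ) * Complex.I) with hγ
  have hγc : Continuous γ := by
    apply Continuous.mul continuous_const
    apply Complex.continuous_exp.comp
    apply Continuous.mul _ continuous_const
    exact Complex.continuous_ofReal.comp (continuous_const.mul continuous_id)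
  have hγ0 : γ 0 = q := by simp [hγ]
  have hγπ : γ Real.pi = -q := by
    simp only [hγ]
    rcases he with rfl | rfl
    · rw [one_mul, Complex.exp_pi_mul_I]; ring
    · have : (((-1 * Real.pi : ℝ) : ℂ)) * Complex.I = -(Real.pi * Complex.I) := by
        push_cast; ring
      rw [this, Complex.exp_neg, Complex.exp_pi_mul_I]; norm_num
  have hqC : q ∈ interior (C₀ D) := by
    rw [mem_interior]
    refine ⟨U₀ D, fun z hz ζ hζ => ?_, U₀_open D, ⟨c, hc, hqc⟩⟩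
    obtain ⟨d, hd, hz⟩ := hz
    have := hz ζ hζ
    have h2 : 0 ≤ d * ‖ζ‖ := by positivity
    linarith
  have hnq : -q ∉ C₀ D := by
    intro h
    have := h ζ₀ hζ₀
    rw [mul_neg, Complex.neg_re] at this
    linarith
  have hpre : IsPreconnected (γ '' Set.Icc 0 Real.pi) :=
    isPreconnected_Icc.image _ hγc.continuousOn
  have h0 : q ∈ γ '' Set.Icc 0 Real.pi := ⟨0, ⟨le_refl _, Real.pi_pos.le⟩, hγ0⟩
  have hπ : -q ∈ γ '' Set.Icc 0 Real.pi := ⟨Real.pi, ⟨Real.pi_pos.le, le_refl _⟩, hγπ⟩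
  obtain ⟨z, ⟨θ, hθ, rfl⟩, hz1, hz2⟩ : ∃ z ∈ γ '' Set.Icc 0 Real.pi, z ∈ C₀ D ∧
      z ∉ interior (C₀ D) := by
    by_contra hcon
    push Not at hcon
    have h1 : γ '' Set.Icc 0 Real.pi ⊆ interior (C₀ D) ∪ (C₀ D)ᶜ := by
      intro z hz
      by_cases h : z ∈ C₀ D
      · exact Or.inl (hcon z hz h)
      · exact Or.inr h
    have h2 := hpre.subset_left_of_subset_union isOpen_interior (C₀_closed D).isOpen_compl
      (Set.disjoint_left.mpr (fun z hz hz' => hz' (interior_subset hz))) h1 ⟨q, h0, hqC⟩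
    exact hnq (interior_subset (h2 hπ))
  have hexp : Complex.exp ((e * θ : ℝ) * Complex.I) ≠ 0 := Complex.exp_ne_zero _
  refine ⟨γ θ, hz1, ?_, mul_ne_zero hq0 hexp, ?_⟩
  · rw [closure_compl]; exact hz2
  · have h1 : γ θ / q = Complex.exp ((e * θ : ℝ) * Complex.I) := by
      simp only [hγ]
      rw [mul_div_cancel_left₀ _ hq0]
    rw [h1, Complex.exp_ofReal_mul_I_im]
    have hθ0 : 0 < θ := by
      rcases hθ.1.eq_or_lt with h | h
      · exfalso; apply hz2; rw [← h, hγ0]; exact hqC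
      · exact h
    have hθπ : θ < Real.pi := by
      rcases hθ.2.eq_or_lt with h | h
      · exfalso; apply hnq; rw [← hγπ, ← h]; exact hz1
      · exact h
    have hsin := Real.sin_pos_of_pos_of_lt_pi hθ0 hθπ
    rcases he with rfl | rfl
    · simpa using hsin
    · rw [neg_one_mul, neg_one_mul, Real.sin_neg]; simpa using hsin

lemma geo {D : Set ℂ} (hD : IsCompact D) (hconv : Convex ℝ D) (h0 : (0 : ℂ) ∈ D)
    (hD0 : ∃ ζ ∈ D, ζ ≠ 0) {q : ℂ} (hq : q ∈ U₀ D) :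
    (∃ p : ℂ, p ∈ closure (C₀ D)ᶜ ∧ (∀ ζ ∈ D, ζ ≠ 0 → (ζ * p).re < 0) ∧
      ∃ (a : ℂ) (R : ℝ), 0 < R ∧ ‖p - a‖ = R ∧ ∀ ζ ∈ D, ζ ≠ 0 → (ζ * a).re + R * ‖ζ‖ < 0) ∨
    (∃ ζ₁ ∈ D, ∃ ζ₂ ∈ D, ∃ z₁ z₂ : ℂ, z₁ ≠ 0 ∧ z₂ ≠ 0 ∧ (∀ ζ ∈ D, (ζ * z₁).re ≤ 0) ∧
      (∀ ζ ∈ D, (ζ * z₂).re ≤ 0) ∧ (ζ₁ * z₁).re = 0 ∧ (ζ₂ * z₂).re = 0 ∧ ζ₁ ≠ 0 ∧ ζ₂ ≠ 0 ∧
      ∀ t : ℝ, ζ₂ ≠ t * ζ₁) ∨
    (∃ b : ℂ, b ≠ 0 ∧ D = segment ℝ 0 b) := by
  obtain ⟨z₁, h11, h12, h13, h14⟩ := exists_dir hD0 hq 1 (Or.inl rfl)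
  obtain ⟨z₂, h21, h22, h23, h24⟩ := exists_dir hD0 hq (-1) (Or.inr rfl)
  have hq' := hq
  obtain ⟨c, hc, hqc⟩ := hq
  by_cases hA : (∀ ζ ∈ D, ζ ≠ 0 → (ζ * z₁).re < 0)
  · left
    exact ⟨z₁, h12, hA, disc_lemma hc hqc h13 hA⟩
  by_cases hB : (∀ ζ ∈ D, ζ ≠ 0 → (ζ * z₂).re < 0)
  · left
    exact ⟨z₂, h22, hB, disc_lemma hc hqc h23 hB⟩
  right
  push Not at hA hB
  obtain ⟨ζ₁, hζ₁, hζ₁0, hr₁⟩ := hA
  obtain ⟨ζ₂, hζ₂, hζ₂0, hr₂⟩ := hB
  have hr₁' : (ζ₁ * z₁).re = 0 := le_antisymm (h11 ζ₁ hζ₁) hr₁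
  have hr₂' : (ζ₂ * z₂).re = 0 := le_antisymm (h21 ζ₂ hζ₂) hr₂
  by_cases hC : ∀ t : ℝ, ζ₂ ≠ t * ζ₁
  · left
    exact ⟨ζ₁, hζ₁, ζ₂, hζ₂, z₁, z₂, h13, h23, h11, h21, hr₁', hr₂', hζ₁0, hζ₂0, hC⟩
  right
  push Not at hC
  obtain ⟨t, ht⟩ := hC
  have ht0 : t ≠ 0 := by
    rintro rfl
    apply hζ₂0
    rw [ht]; simp
  have hr₃ : (ζ₁ * z₂).re = 0 := by
    rw [ht, mul_assoc, Complex.re_ofReal_mul] at hr₂'
    exact (mul_eq_zero.mp hr₂').resolve_left ht0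
  -- `ζ₁ * z₁ = i y₁`, `ζ₁ * z₂ = i y₂`
  set y₁ := (ζ₁ * z₁).im with hy₁
  set y₂ := (ζ₁ * z₂).im with hy₂
  have e1 : ζ₁ * z₁ = y₁ * Complex.I := by
    apply Complex.ext <;> simp [hr₁', hy₁]
  have e2 : ζ₁ * z₂ = y₂ * Complex.I := by
    apply Complex.ext <;> simp [hr₃, hy₂]
  have hy₁0 : y₁ ≠ 0 := by
    intro h
    rw [h, Complex.ofReal_zero, zero_mul] at e1
    exact (mul_ne_zero hζ₁0 h13) e1
  have hy₁C : (y₁ : ℂ) ≠ 0 := by exact_mod_cast hy₁0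
  set m : ℝ := y₂ / y₁ with hm
  have e3 : z₂ = (m : ℂ) * z₁ := by
    have h1 : ζ₁ * z₂ = ζ₁ * ((m : ℂ) * z₁) := by
      rw [show ζ₁ * ((m : ℂ) * z₁) = (m : ℂ) * (ζ₁ * z₁) by ring, e1, e2, hm]
      push_cast
      field_simp
    exact mul_left_cancel₀ hζ₁0 h1
  have hm0 : m < 0 := by
    have h1 : (z₂ / q).im = m * (z₁ / q).im := by
      rw [e3, mul_div_assoc, Complex.im_ofReal_mul]
    rw [h1] at h24
    nlinarith
  have hline : ∀ ζ ∈ D, (ζ * z₁).re = 0 := by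
    intro ζ hζ
    apply le_antisymm (h11 ζ hζ)
    have h1 := h21 ζ hζ
    rw [e3, show ζ * ((m : ℂ) * z₁) = (m : ℂ) * (ζ * z₁) by ring, Complex.re_ofReal_mul] at h1
    nlinarith
  have hcoord : ∀ ζ ∈ D, ζ = (((ζ * z₁).im / y₁ : ℝ) : ℂ) * ζ₁ := by
    intro ζ hζ
    have h1 : ζ * z₁ = (ζ * z₁).im * Complex.I := by
      apply Complex.ext <;> simp [hline ζ hζ]
    have h2 : ζ * z₁ = ((((ζ * z₁).im / y₁ : ℝ) : ℂ) * ζ₁) * z₁ := by
      rw [mul_assoc, e1]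
      conv_lhs => rw [h1]
      push_cast
      field_simp
    exact mul_right_cancel₀ h13 h2
  have hneg : (ζ₁ * q).re < 0 := by
    have h1 := hqc ζ₁ hζ₁
    have h2 : 0 < ‖ζ₁‖ := norm_pos_iff.mpr hζ₁0
    nlinarith [mul_pos hc h2]
  have hpos : ∀ ζ ∈ D, 0 ≤ (ζ * z₁).im / y₁ := by
    intro ζ hζ
    have h1 := hqc ζ hζ
    have h2 : (ζ * q).re = (ζ * z₁).im / y₁ * (ζ₁ * q).re := by
      conv_lhs => rw [hcoord ζ hζ]
      rw [mul_assoc, Complex.re_ofReal_mul]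
    rw [h2] at h1
    have h3 : 0 ≤ c * ‖ζ‖ := by positivity
    by_contra h4
    push Not at h4
    nlinarith
  obtain ⟨b, hb, hmax⟩ := hD.exists_isMaxOn ⟨0, h0⟩ continuous_norm.continuousOn
  obtain ⟨ζ₀, hζ₀, hζ₀0⟩ := hD0
  have hb0 : b ≠ 0 := by
    rintro rfl
    have h1 : ‖ζ₀‖ ≤ ‖(0 : ℂ)‖ := hmax hζ₀
    rw [norm_zero] at h1
    exact hζ₀0 (norm_le_zero_iff.mp h1)
  refine ⟨b, hb0, ?_⟩
  apply Set.Subset.antisymm
  · intro ζ hζ
    have h1 : ‖ζ‖ ≤ ‖b‖ := hmax hζ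
    set tζ := (ζ * z₁).im / y₁ with htζ
    set tb := (b * z₁).im / y₁ with htb
    have e4 := hcoord ζ hζ
    have e5 := hcoord b hb
    rw [← htζ] at e4
    rw [← htb] at e5
    have p1 : 0 ≤ tζ := hpos ζ hζ
    have p2 : 0 ≤ tb := hpos b hb
    have hn : 0 < ‖ζ₁‖ := norm_pos_iff.mpr hζ₁0
    have p3 : 0 < tb := by
      rcases p2.eq_or_lt with h | h
      · exfalso; apply hb0; rw [e5, ← h]; simp
      · exact h
    have p4 : tζ ≤ tb := by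
      rw [e4, e5, norm_mul, norm_mul, ofReal_norm' p1, ofReal_norm' p2] at h1
      exact le_of_mul_le_mul_right h1 hn
    rw [segment_eq_image]
    refine ⟨tζ / tb, ⟨by positivity, by rw [div_le_one p3]; exact p4⟩, ?_⟩
    have p3C : (tb : ℂ) ≠ 0 := by exact_mod_cast p3.ne'
    simp only [smul_zero, zero_add, Complex.real_smul]
    rw [e4]
    conv_lhs => rw [e5]
    push_cast
    field_simp
  · exact hconv.segment_subset h0 hb

end Pool.Agent.Helper960.Crg
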