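import Pool.Agent.Helper960.Crg.Min

open Filter Topology Metric

namespace Pool.Agent.Helper960.Crg

/-- `f` is an entire function of exponential type: `|f z| ≤ A e^{B |z|}`. -/
def ExpType (f : ℂ → ℂ) : Prop :=
  Differentiable ℂ f ∧ ∃ A B : ℝ, ∀ z, ‖f z‖ ≤ A * Real.exp (B * ‖z‖)

/-- The indicator `h_f(θ) = limsup_{r → ∞} r⁻¹ log |f (r e^{iθ})|`, with `log 0 = -∞`. -/
noncomputable def indicator (f : ℂ → ℂ) (θ : ℝ) : EReal :=
  limsup (fun r : ℝ =>
    ENNReal.log ‖f (r * Complex.exp (θ * Complex.I))‖ₑ / (r : EReal)) atTop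

/-- Completely regular growth (Levin, Pfluger; order 1) of an entire function `f ≢ 0` of
exponential type: with the exceptional set `E = ⋃ⱼ {|z - cⱼ| < ρⱼ}`, where
`R⁻¹ ∑_{|cⱼ| < R} ρⱼ → 0` as `R → ∞`, one has `r⁻¹ log |f (r e^{iθ})| - h_f(θ) → 0` as `r → ∞`,
`r e^{iθ} ∉ E`, uniformly in `θ`. -/
def CRG (f : ℂ → ℂ) : Prop :=
  ExpType f ∧ (∃ z, f z ≠ 0) ∧ ∃ h : ℝ → ℝ, (∀ θ, indicator f θ = h θ) ∧
    ∃ (c : ℕ → ℂ) (ρ : ℕ → ℝ), (∀ j, 0 ≤ ρ j) ∧
      Tendsto (fun R : ℝ =>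
        (∑' j, if ‖c j‖ < R then ENNReal.ofReal (ρ j) else 0) / ENNReal.ofReal R) atTop (𝓝 0) ∧
      ∀ ε > 0, ∃ R₀ : ℝ, ∀ r ≥ R₀, ∀ θ : ℝ,
        (∀ j, ρ j ≤ ‖r * Complex.exp (θ * Complex.I) - c j‖) →
          Real.exp ((h θ - ε) * r) ≤ ‖f (r * Complex.exp (θ * Complex.I))‖ ∧
          ‖f (r * Complex.exp (θ * Complex.I))‖ ≤ Real.exp ((h θ + ε) * r)

/-! ### The indicator -/

lemma elog_le_iff {x r b : ℝ} (hx : 0 ≤ x) (hr : 0 < r) :
    ENNReal.log (ENNReal.ofReal x) / (r : EReal) ≤ (b : EReal) ↔ x ≤ Real.exp (b * r) := by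
  rw [EReal.div_le_iff_le_mul (by exact_mod_cast hr) (EReal.coe_ne_top r)]
  have h1 : (r : EReal) * (b : EReal) = ((r * b : ℝ) : EReal) := by norm_cast
  rw [h1]
  have h2 : ((r * b : ℝ) : EReal) = ENNReal.log (ENNReal.ofReal (Real.exp (r * b))) := by
    rw [ENNReal.log_ofReal_of_pos (Real.exp_pos _), Real.log_exp]
  rw [h2, ENNReal.log_le_log_iff, ENNReal.ofReal_le_ofReal_iff (Real.exp_pos _).le, mul_comm]

lemma le_elog_iff {x r b : ℝ} (hx : 0 ≤ x) (hr : 0 < r) :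
    (b : EReal) ≤ ENNReal.log (ENNReal.ofReal x) / (r : EReal) ↔ Real.exp (b * r) ≤ x := by
  rw [EReal.le_div_iff_mul_le (by exact_mod_cast hr) (EReal.coe_ne_top r)]
  have h1 : (b : EReal) * (r : EReal) = ((r * b : ℝ) : EReal) := by
    rw [mul_comm]; norm_cast
  rw [h1]
  have h2 : ((r * b : ℝ) : EReal) = ENNReal.log (ENNReal.ofReal (Real.exp (r * b))) := by
    rw [ENNReal.log_ofReal_of_pos (Real.exp_pos _), Real.log_exp]
  rw [h2, ENNReal.log_le_log_iff, ENNReal.ofReal_le_ofReal_iff hx, mul_comm]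

lemma indicator_eq (f : ℂ → ℂ) (θ : ℝ) : indicator f θ = limsup (fun r : ℝ =>
    ENNReal.log (ENNReal.ofReal ‖f (r * Complex.exp (θ * Complex.I))‖) / (r : EReal)) atTop := by
  unfold indicator
  simp only [ofReal_norm]

/-- upper bounds from the indicator -/
lemma indicator_upper {f : ℂ → ℂ} {θ h b : ℝ} (hh : indicator f θ = h) (hb : h < b) :
    ∀ᶠ r : ℝ in atTop, ‖f (r * Complex.exp (θ * Complex.I))‖ ≤ Real.exp (b * r) := by
  rw [indicator_eq] at hh
  have h1 : limsup (fun r : ℝ =>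
      ENNReal.log (ENNReal.ofReal ‖f (r * Complex.exp (θ * Complex.I))‖) / (r : EReal)) atTop
      < (b : EReal) := by
    rw [hh]; exact_mod_cast hb
  have h2 := eventually_lt_of_limsup_lt h1
  filter_upwards [h2, eventually_gt_atTop 0] with r hr hr0
  exact (elog_le_iff (norm_nonneg _) hr0).mp hr.le

lemma indicator_lower {f : ℂ → ℂ} {θ h b : ℝ} (hh : indicator f θ = h)
    (hb : ∀ᶠ r : ℝ in atTop, ‖f (r * Complex.exp (θ * Complex.I))‖ ≤ Real.exp (b * r)) :
    h ≤ b := by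
  rw [indicator_eq] at hh
  have h1 : limsup (fun r : ℝ =>
      ENNReal.log (ENNReal.ofReal ‖f (r * Complex.exp (θ * Complex.I))‖) / (r : EReal)) atTop
      ≤ (b : EReal) := by
    apply limsup_le_of_le
    · isBoundedDefault
    · filter_upwards [hb, eventually_gt_atTop 0] with r hr hr0
      exact (elog_le_iff (norm_nonneg _) hr0).mpr hr
  rw [hh] at h1
  exact_mod_cast h1

lemma indicator_of {f : ℂ → ℂ} {θ h : ℝ}
    (h1 : ∀ ε > 0, ∀ᶠ r : ℝ in atTop,
      ‖f (r * Complex.exp (θ * Complex.I))‖ ≤ Real.exp ((h + ε) * r))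
    (h2 : ∀ ε > 0, ∃ᶠ r : ℝ in atTop,
      Real.exp ((h - ε) * r) ≤ ‖f (r * Complex.exp (θ * Complex.I))‖) :
    indicator f θ = h := by
  rw [indicator_eq]
  apply le_antisymm
  · apply EReal.le_of_forall_lt_iff_le.mp
    intro z hz
    have hz' : h < z := by exact_mod_cast hz
    apply limsup_le_of_le
    · isBoundedDefault
    · filter_upwards [h1 (z - h) (by linarith), eventually_gt_atTop 0] with r hr hr0
      rw [elog_le_iff (norm_nonneg _) hr0]
      rwa [add_sub_cancel] at hr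
  · apply EReal.ge_of_forall_gt_iff_ge.mp
    intro z hz
    have hz' : z < h := by exact_mod_cast hz
    apply le_limsup_of_frequently_le
    · have := (h2 (h - z) (by linarith)).and_eventually (eventually_gt_atTop 0)
      refine this.mono (fun r hr => ?_)
      rw [le_elog_iff (norm_nonneg _) hr.2]
      have h3 := hr.1
      rwa [sub_sub_cancel] at h3
    · isBoundedDefault

end Pool.Agent.Helper960.Crg
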