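import Pool.Agent.Helper960.Crg.Pol

open Filter Topology Metric MeasureTheory

namespace Pool.Agent.Helper960.Crg

lemma coeff_unique {a b : ℕ → ℂ} {F : ℂ → ℂ}
    (ha : ∀ᶠ z in 𝓝 (0 : ℂ), HasSum (fun n => a n * z ^ n) (F z))
    (hb : ∀ᶠ z in 𝓝 (0 : ℂ), HasSum (fun n => b n * z ^ n) (F z)) (n : ℕ) : a n = b n := by
  have h1 : HasFPowerSeriesAt F (FormalMultilinearSeries.ofScalars ℂ a) 0 := by
    rw [hasFPowerSeriesAt_iff]
    filter_upwards [ha] with z hz
    simp only [FormalMultilinearSeries.coeff_ofScalars, smul_eq_mul, zero_add]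
    simpa only [mul_comm] using hz
  have h2 : HasFPowerSeriesAt F (FormalMultilinearSeries.ofScalars ℂ b) 0 := by
    rw [hasFPowerSeriesAt_iff]
    filter_upwards [hb] with z hz
    simp only [FormalMultilinearSeries.coeff_ofScalars, smul_eq_mul, zero_add]
    simpa only [mul_comm] using hz
  have h3 := h1.eq_formalMultilinearSeries h2
  have h4 := congrArg (fun p => FormalMultilinearSeries.coeff p n) h3
  simpa only [FormalMultilinearSeries.coeff_ofScalars] using h4

lemma pser_zero (f : ℂ → ℂ) : pser f 0 = f 0 := by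
  unfold pser
  rw [tsum_eq_single 0 (fun n hn => by simp [hn])]
  simp

lemma pser_ray {f : ℂ → ℂ} (hf : Differentiable ℂ f) {C b : ℝ} (hb0 : 0 < b)
    (hC : ∀ n, ‖iteratedDeriv n f 0‖ ≤ C * b ^ n) {u : ℂ} (hu : ‖u‖ = 1) {s : ℝ} (hs : b < s) :
    pser f (u * (s : ℂ)⁻¹) =
      s * ∫ t in Set.Ioi (0 : ℝ), f (t * u) * Real.exp (-(s * t)) := by
  rw [laplace_ray hf hb0 hC hu hs, ← tsum_mul_left]
  unfold pser
  congr 1
  funext n
  have hs0 : (s : ℂ) ≠ 0 := by exact_mod_cast (hb0.trans hs).ne'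
  rw [mul_pow, inv_pow]
  field_simp
  ring

lemma shift_germ {f : ℂ → ℂ} (hf : Differentiable ℂ f) {A B : ℝ}
    (hA : ∀ z, ‖f z‖ ≤ A * Real.exp (B * ‖z‖)) {u : ℂ} (hu : ‖u‖ = 1) {M : ℝ} (hM : 0 ≤ M) :
    (∀ z, ‖f z * Complex.exp (M * u⁻¹ * z)‖ ≤ A * Real.exp ((B + M) * ‖z‖)) ∧
    ∀ᶠ v in 𝓝 (0 : ℂ), (1 + (-(M * u⁻¹)) * v)⁻¹ * pser f (v * (1 + (-(M * u⁻¹)) * v)⁻¹) =
      pser (fun z => f z * Complex.exp (M * u⁻¹ * z)) v := by
  have hu0 : u ≠ 0 := by rintro rfl; simp at hu
  have hA0 : 0 ≤ A := by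
    have := (norm_nonneg _).trans (hA 0)
    simpa using this
  set g : ℂ → ℂ := fun z => f z * Complex.exp (M * u⁻¹ * z) with hg
  have hgd : Differentiable ℂ g := hf.mul ((differentiable_id.const_mul _).cexp)
  have hgA : ∀ z, ‖g z‖ ≤ A * Real.exp ((B + M) * ‖z‖) := by
    intro z
    simp only [hg]
    rw [norm_mul, Complex.norm_exp]
    have h1 : (M * u⁻¹ * z).re ≤ M * ‖z‖ := by
      have h2 := Complex.re_le_norm (M * u⁻¹ * z)
      rwa [norm_mul, norm_mul, norm_inv, hu, inv_one, mul_one, ofReal_norm' hM] at h2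
    calc ‖f z‖ * Real.exp (M * u⁻¹ * z).re ≤ (A * Real.exp (B * ‖z‖)) * Real.exp (M * ‖z‖) := by
          gcongr
          exact hA z
      _ = _ := by rw [mul_assoc, ← Real.exp_add]; ring_nf
  refine ⟨hgA, ?_⟩
  set b : ℝ := |B| + M + 1 with hb
  have hb0 : 0 < b := by positivity
  have hBb : B < b := by
    have := le_abs_self B
    rw [hb]; linarith
  have hBb' : B + M < b := by
    have := le_abs_self B
    rw [hb]; linarith
  obtain ⟨C₁, hC₁, hC₁b⟩ := coefbound hf hA hBb hb0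
  obtain ⟨C₂, hC₂, hC₂b⟩ := coefbound hgd hgA hBb' hb0
  have hpf : AnalyticAt ℂ (pser f) 0 := by
    rw [Complex.analyticAt_iff_eventually_differentiableAt]
    have h1 : ∀ᶠ v in 𝓝 (0 : ℂ), b * ‖v‖ < 1 := by
      have : Tendsto (fun v : ℂ => b * ‖v‖) (𝓝 0) (𝓝 (b * ‖(0 : ℂ)‖)) :=
        (continuous_const.mul continuous_norm).tendsto 0
      rw [norm_zero, mul_zero] at this
      exact this.eventually (gt_mem_nhds one_pos)
    filter_upwards [h1] with v hv
    exact pser_diff hb0 hC₁b hv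
  have hpg : AnalyticAt ℂ (pser g) 0 := by
    rw [Complex.analyticAt_iff_eventually_differentiableAt]
    have h1 : ∀ᶠ v in 𝓝 (0 : ℂ), b * ‖v‖ < 1 := by
      have : Tendsto (fun v : ℂ => b * ‖v‖) (𝓝 0) (𝓝 (b * ‖(0 : ℂ)‖)) :=
        (continuous_const.mul continuous_norm).tendsto 0
      rw [norm_zero, mul_zero] at this
      exact this.eventually (gt_mem_nhds one_pos)
    filter_upwards [h1] with v hv
    exact pser_diff hb0 hC₂b hv
  have hinv : AnalyticAt ℂ (fun v : ℂ => (1 + (-(M * u⁻¹)) * v)⁻¹) 0 := by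
    apply AnalyticAt.inv
    · exact (((differentiable_id.const_mul (-((M : ℂ) * u⁻¹))).const_add 1)).analyticAt 0
    · simp
  have hin : AnalyticAt ℂ (fun v : ℂ => v * (1 + (-(M * u⁻¹)) * v)⁻¹) 0 := analyticAt_id.mul hinv
  have hP : AnalyticAt ℂ (fun v : ℂ => (1 + (-(M * u⁻¹)) * v)⁻¹ *
      pser f (v * (1 + (-(M * u⁻¹)) * v)⁻¹)) 0 := by
    apply hinv.mul
    apply AnalyticAt.comp_of_eq hpf hin
    simp
  refine (hP.frequently_eq_iff_eventually_eq hpg).mp ?_
  have ht : Tendsto (fun s : ℝ => u * (s : ℂ)⁻¹) atTop (𝓝[≠] (0 : ℂ)) := by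
    apply tendsto_nhdsWithin_of_tendsto_nhds_of_eventually_within
    · have h1 : Tendsto (fun s : ℝ => ((s⁻¹ : ℝ) : ℂ)) atTop (𝓝 ((0 : ℝ) : ℂ)) :=
        (Complex.continuous_ofReal.tendsto 0).comp tendsto_inv_atTop_zero
      have h2 := h1.const_mul u
      simpa using h2
    · filter_upwards [eventually_gt_atTop 0] with s hs
      have hs0 : (s : ℂ) ≠ 0 := by exact_mod_cast hs.ne'
      exact mul_ne_zero hu0 (inv_ne_zero hs0)
  apply ht.frequently
  apply Eventually.frequently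
  filter_upwards [eventually_gt_atTop (b + M)] with s hs
  have hs1 : b < s - M := by linarith
  have hs2 : b < s := by linarith
  have hsC : (s : ℂ) ≠ 0 := by exact_mod_cast (hb0.trans hs2).ne'
  have hsMC : (s : ℂ) - M ≠ 0 := by
    have : ((s - M : ℝ) : ℂ) ≠ 0 := by exact_mod_cast (hb0.trans hs1).ne'
    simpa using this
  have e1 : 1 + (-(M * u⁻¹)) * (u * (s : ℂ)⁻¹) = ((s : ℂ) - M) * (s : ℂ)⁻¹ := by
    field_simp
    ring
  have e2 : u * (s : ℂ)⁻¹ * (1 + (-(M * u⁻¹)) * (u * (s : ℂ)⁻¹))⁻¹ = u * ((s - M : ℝ) : ℂ)⁻¹ := by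
    rw [e1]
    push_cast
    field_simp
  rw [e2, e1, pser_ray hf hb0 hC₁b hu hs1, pser_ray hgd hb0 hC₂b hu hs2]
  have e3 : ∀ t : ℝ, g (t * u) * Real.exp (-(s * t)) = f (t * u) * Real.exp (-((s - M) * t)) := by
    intro t
    simp only [hg]
    have e4 : (M : ℂ) * u⁻¹ * (t * u) = M * t := by field_simp
    rw [e4, mul_assoc]
    congr 1
    push_cast
    rw [← Complex.exp_add]
    congr 1
    ring
  simp only [e3]
  rw [← mul_assoc]
  congr 1
  push_cast
  field_simp

/-- Analytic continuation of the Borel transform to a half-plane bounds the growth on a ray. -/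
theorem big_disc {f : ℂ → ℂ} (hf : Differentiable ℂ f) {A B : ℝ}
    (hA : ∀ z, ‖f z‖ ≤ A * Real.exp (B * ‖z‖)) {K : Set ℂ} (hK : IsClosed K) {F : ℂ → ℂ}
    (hF : DifferentiableOn ℂ F Kᶜ) {R : ℝ} (hR : ∀ w, R < ‖w‖ → w ∉ K → F w = borel f w)
    {u : ℂ} (hu : ‖u‖ = 1) {c c' : ℝ} (hc : ∀ ζ ∈ K, (ζ * u).re ≤ c) (hcc : c < c') :
    RB f u c' := by
  have hu0 : u ≠ 0 := by rintro rfl; simp at hu
  set b : ℝ := |B| + 1 with hb
  have hb0 : 0 < b := by positivity
  have hBb : B < b := by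
    have := le_abs_self B
    rw [hb]; linarith
  obtain ⟨C, hC, hCb⟩ := coefbound hf hA hBb hb0
  set R' : ℝ := |R| + b with hR'
  have hR'0 : 0 < R' := by positivity
  have hRR' : R ≤ R' := by
    have := le_abs_self R
    rw [hR']; linarith
  have hbR' : b ≤ R' := by
    have := abs_nonneg R
    rw [hR']; linarith
  set c₁ : ℝ := (c + c') / 2 with hc₁
  have hcc₁ : 0 < c₁ - c := by rw [hc₁]; linarith
  set M : ℝ := R' + 2 * |c| + |c'| + R' ^ 2 / (c₁ - c) with hM
  have hM0 : 0 < M := by positivity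
  have hMR : R' ≤ M := by
    have : 0 ≤ 2 * |c| + |c'| + R' ^ 2 / (c₁ - c) := by positivity
    rw [hM]; linarith
  have hMc : R' ^ 2 ≤ (c₁ - c) * M := by
    have h1 : R' ^ 2 / (c₁ - c) ≤ M := by
      have : 0 ≤ R' + 2 * |c| + |c'| := by positivity
      rw [hM]; linarith
    rw [div_le_iff₀ hcc₁] at h1
    linarith
  have hMc2 : R' + 2 * |c| + |c'| ≤ M := by
    have : 0 ≤ R' ^ 2 / (c₁ - c) := by positivity
    rw [hM]; linarith
  have hca := neg_abs_le c
  have hca' := neg_abs_le c'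
  have hcp := abs_nonneg c
  have hcp' := abs_nonneg c'
  have hρ₀0 : 0 < M + c₁ := by rw [hc₁]; linarith
  have hρ₁0 : 0 < M + c' := by linarith
  have hρ : M + c₁ < M + c' := by rw [hc₁]; linarith
  set c₀ : ℂ := -(M * u⁻¹) with hc₀
  have hc₀n : ‖c₀‖ = M := by
    rw [hc₀, norm_neg, norm_mul, norm_inv, hu, inv_one, mul_one, ofReal_norm' hM0.le]
  set G : ℂ → ℂ := fun w => if R' < ‖w‖ then borel f w else F w with hG
  have hGd : ∀ w : ℂ, M + c₁ < ‖w - c₀‖ → DifferentiableAt ℂ G w := by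
    intro w hw
    by_cases h : R' < ‖w‖
    · have h1 : G =ᶠ[𝓝 w] borel f := by
        filter_upwards [(isOpen_lt continuous_const continuous_norm).mem_nhds h] with z hz
        have hz' : R' < ‖z‖ := hz
        simp only [hG, hz', if_true]
      exact (borel_diff hb0 hCb (lt_of_le_of_lt hbR' h)).congr_of_eventuallyEq h1
    · have h1 : c < (w * u).re := by
        by_contra hcon
        push Not at hcon h
        have h2 : (w - c₀) * u = w * u + M := by
          rw [hc₀]; field_simp; ring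
        have h3 : ‖w - c₀‖ ^ 2 = ((w * u).re + M) ^ 2 + (w * u).im ^ 2 := by
          have : ‖w - c₀‖ = ‖(w - c₀) * u‖ := by rw [norm_mul, hu, mul_one]
          rw [this, h2, ← Complex.normSq_eq_norm_sq, Complex.normSq_apply]
          simp only [Complex.add_re, Complex.add_im, Complex.ofReal_re, Complex.ofReal_im]
          ring
        have h4 : |(w * u).re| ≤ R' := by
          have := Complex.abs_re_le_norm (w * u)
          rw [norm_mul, hu, mul_one] at this
          linarith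
        have h5 : |(w * u).im| ≤ R' := by
          have := Complex.abs_im_le_norm (w * u)
          rw [norm_mul, hu, mul_one] at this
          linarith
        have h6 : (w * u).im ^ 2 ≤ R' ^ 2 := by
          rw [← sq_abs]
          exact pow_le_pow_left₀ (abs_nonneg _) h5 2
        have h7 : ((w * u).re + M) ^ 2 ≤ (c + M) ^ 2 := by
          have h8 := (abs_le.mp h4).1
          apply pow_le_pow_left₀ (by linarith)
          linarith
        have h9 : (M + c₁) ^ 2 < ‖w - c₀‖ ^ 2 := pow_lt_pow_left₀ hw hρ₀0.le (by norm_num)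
        have h10 : (M + c₁) ^ 2 - (c + M) ^ 2 = (c₁ - c) * (2 * M + c₁ + c) := by ring
        have h11 : (c₁ - c) * M ≤ (c₁ - c) * (2 * M + c₁ + c) := by
          apply mul_le_mul_of_nonneg_left _ hcc₁.le
          rw [hc₁]; linarith
        linarith
      have h2 : G =ᶠ[𝓝 w] F := by
        filter_upwards [(halfplane_open u c).mem_nhds h1] with z hz
        have hz' : c < (z * u).re := hz
        have hzK : z ∉ K := fun hzK => absurd (hc z hzK) (not_le.mpr hz')
        simp only [hG]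
        split_ifs with h3
        · exact (hR z (lt_of_le_of_lt hRR' h3) hzK).symm
        · rfl
      have hwK : w ∉ K := fun hwK => absurd (hc w hwK) (not_le.mpr h1)
      exact (hF.differentiableAt (hK.isOpen_compl.mem_nhds hwK)).congr_of_eventuallyEq h2
  obtain ⟨hgA, hgerm⟩ := shift_germ hf hA hu hM0.le
  set g : ℂ → ℂ := fun z => f z * Complex.exp (M * u⁻¹ * z) with hg
  have hgd : Differentiable ℂ g := hf.mul ((differentiable_id.const_mul _).cexp)
  have hbM : 0 < |B| + M + 1 := by positivity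
  obtain ⟨C₂, hC₂, hC₂b⟩ := coefbound hgd hgA (b := |B| + M + 1) (by
    have := le_abs_self B
    linarith) hbM
  set W : ℂ → ℂ := fun v => if v = 0 then f 0 else G (c₀ + v⁻¹) * v⁻¹ with hW
  have hWg : W =ᶠ[𝓝 0] pser g := by
    have h1 : ∀ᶠ v in 𝓝 (0 : ℂ), ‖v‖ < (R' + M)⁻¹ := by
      have := ball_mem_nhds (0 : ℂ) (inv_pos.mpr (add_pos hR'0 hM0))
      filter_upwards [this] with v hv
      rwa [mem_ball_zero_iff] at hv
    filter_upwards [h1, hgerm] with v hv hgv
    rw [← hgv]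
    by_cases hv0 : v = 0
    · simp only [hW, hv0, if_true]
      simp [pser_zero]
    · simp only [hW, hv0, if_false]
      have hvn : 0 < ‖v‖ := norm_pos_iff.mpr hv0
      have h2 : R' + M < ‖v⁻¹‖ := by
        rw [norm_inv]
        exact (lt_inv_comm₀ (add_pos hR'0 hM0) hvn).mpr hv
      have h3 : R' < ‖c₀ + v⁻¹‖ := by
        have h4 := norm_sub_le (c₀ + v⁻¹) c₀
        rw [add_sub_cancel_left, hc₀n] at h4
        linarith
      have h4 : c₀ + v⁻¹ ≠ 0 := by
        intro h; rw [h, norm_zero] at h3; linarith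
      have h5 : 1 + c₀ * v ≠ 0 := by
        intro h
        apply h4
        have : (c₀ + v⁻¹) * v = 1 + c₀ * v := by field_simp; ring
        rw [h] at this
        exact (mul_eq_zero.mp this).resolve_right hv0
      simp only [hG, h3, if_true]
      rw [borel_eq]
      have h6 : (c₀ + v⁻¹)⁻¹ = v * (1 + c₀ * v)⁻¹ := by
        have : c₀ + v⁻¹ = (1 + c₀ * v) * v⁻¹ := by field_simp; ring
        rw [this, mul_inv, inv_inv]; ring
      rw [h6, ← hc₀]
      generalize pser f (v * (1 + c₀ * v)⁻¹) = P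
      field_simp
  have hWd : DifferentiableOn ℂ W (ball 0 (M + c₁)⁻¹) := by
    intro v hv
    rw [mem_ball_zero_iff] at hv
    apply DifferentiableAt.differentiableWithinAt
    by_cases hv0 : v = 0
    · rw [hv0]
      apply DifferentiableAt.congr_of_eventuallyEq _ hWg
      exact pser_diff hbM hC₂b (by simp)
    · have hvn : 0 < ‖v‖ := norm_pos_iff.mpr hv0
      have h1 : W =ᶠ[𝓝 v] fun v => G (c₀ + v⁻¹) * v⁻¹ := by
        filter_upwards [isOpen_ne.mem_nhds hv0] with z hz
        have hz' : z ≠ 0 := hz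
        simp only [hW, hz', if_false]
      apply DifferentiableAt.congr_of_eventuallyEq _ h1
      have h2 : DifferentiableAt ℂ (fun v : ℂ => v⁻¹) v := differentiableAt_inv hv0
      have h3 : DifferentiableAt ℂ G (c₀ + v⁻¹) := by
        apply hGd
        rw [add_sub_cancel_left, norm_inv]
        exact (lt_inv_comm₀ hρ₀0 hvn).mpr hv
      exact (h3.comp v (h2.const_add c₀)).mul h2
  have hcoef : ∀ n, iteratedDeriv n g 0 = (n.factorial : ℂ)⁻¹ * iteratedDeriv n W 0 := by
    intro n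
    refine coeff_unique (a := fun n => iteratedDeriv n g 0)
      (b := fun n => (n.factorial : ℂ)⁻¹ * iteratedDeriv n W 0) (F := W) ?_ ?_ n
    · have h1 : ∀ᶠ v in 𝓝 (0 : ℂ), (|B| + M + 1) * ‖v‖ < 1 := by
        have : Tendsto (fun v : ℂ => (|B| + M + 1) * ‖v‖) (𝓝 0)
            (𝓝 ((|B| + M + 1) * ‖(0 : ℂ)‖)) :=
          (continuous_const.mul continuous_norm).tendsto 0
        rw [norm_zero, mul_zero] at this
        exact this.eventually (gt_mem_nhds one_pos)
      filter_upwards [h1, hWg] with v hv hv2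
      rw [hv2]
      exact pser_hasSum hbM hC₂b hv
    · filter_upwards [ball_mem_nhds (0 : ℂ) (inv_pos.mpr hρ₀0)] with v hv
      have h1 := Complex.hasSum_taylorSeries_on_ball hWd hv
      simp only [sub_zero, smul_eq_mul] at h1
      have e : (fun k : ℕ => ((k.factorial : ℂ)⁻¹ * iteratedDeriv k W 0) * v ^ k) =
          fun k : ℕ => (k.factorial : ℂ)⁻¹ * (v ^ k * iteratedDeriv k W 0) := by
        funext k; ring
      show HasSum (fun k : ℕ => ((k.factorial : ℂ)⁻¹ * iteratedDeriv k W 0) * v ^ k) (W v)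
      rw [e]
      exact h1
  set r₁ : ℝ := (M + c')⁻¹ with hr₁
  have hr₁0 : 0 < r₁ := inv_pos.mpr hρ₁0
  have hr₁1 : r₁ < (M + c₁)⁻¹ := by
    rw [hr₁]
    exact inv_strictAnti₀ hρ₀0 hρ
  have hsub : closedBall (0 : ℂ) r₁ ⊆ ball 0 (M + c₁)⁻¹ := closedBall_subset_ball hr₁1
  obtain ⟨M', hM'⟩ := (isCompact_closedBall (0 : ℂ) r₁).exists_bound_of_continuousOn
    (hWd.continuousOn.mono hsub)
  have hM'0 : 0 ≤ M' := (norm_nonneg _).trans (hM' 0 (by simp [hr₁0.le]))
  have hbn : ∀ n, ‖iteratedDeriv n g 0‖ ≤ M' * (M + c') ^ n := by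
    intro n
    rw [hcoef, norm_mul, norm_inv, Complex.norm_natCast]
    have hWc : DiffContOnCl ℂ W (ball 0 r₁) := by
      apply DifferentiableOn.diffContOnCl
      rw [closure_ball (0 : ℂ) hr₁0.ne']
      exact hWd.mono hsub
    have h1 := Complex.norm_iteratedDeriv_le_of_forall_mem_sphere_norm_le (c := 0) (R := r₁)
      (f := W) (C := M') n hr₁0 hWc (fun z hz => hM' z (sphere_subset_closedBall hz))
    have hfac : (0 : ℝ) < n.factorial := by exact_mod_cast n.factorial_pos
    calc (n.factorial : ℝ)⁻¹ * ‖iteratedDeriv n W 0‖ ≤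
          (n.factorial : ℝ)⁻¹ * (n.factorial * M' / r₁ ^ n) := by gcongr
      _ = M' * (M + c') ^ n := by
        rw [hr₁, inv_pow]
        field_simp
  have hgb : ∀ z : ℂ, ‖g z‖ ≤ M' * Real.exp ((M + c') * ‖z‖) := by
    intro z
    have h1 := Complex.hasSum_taylorSeries_of_entire hgd 0 z
    have h2 : HasSum (fun n : ℕ => M' * (((M + c') * ‖z‖) ^ n / n.factorial))
        (M' * Real.exp ((M + c') * ‖z‖)) := by
      have := NormedSpace.expSeries_div_hasSum_exp ((M + c') * ‖z‖)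
      rw [← Real.exp_eq_exp_ℝ] at this
      exact this.mul_left M'
    rw [← h1.tsum_eq]
    apply tsum_of_norm_bounded h2
    intro n
    simp only [sub_zero, smul_eq_mul]
    rw [norm_mul, norm_mul, norm_inv, norm_pow, Complex.norm_natCast]
    have hfac : (0 : ℝ) < n.factorial := by exact_mod_cast n.factorial_pos
    calc (n.factorial : ℝ)⁻¹ * (‖z‖ ^ n * ‖iteratedDeriv n g 0‖) ≤
          (n.factorial : ℝ)⁻¹ * (‖z‖ ^ n * (M' * (M + c') ^ n)) := by
          gcongr
          exact hbn n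
      _ = _ := by rw [mul_pow]; field_simp
  refine ⟨M', fun t ht => ?_⟩
  have h1 := hgb (t * u)
  have h2 : f (t * u) = g (t * u) * Complex.exp (-(M * t)) := by
    simp only [hg]
    have e4 : (M : ℂ) * u⁻¹ * (t * u) = M * t := by field_simp
    rw [e4, mul_assoc, ← Complex.exp_add, add_neg_cancel, Complex.exp_zero, mul_one]
  have h3 : ‖Complex.exp (-((M : ℂ) * t))‖ = Real.exp (-(M * t)) := by
    rw [Complex.norm_exp, Complex.neg_re, Complex.re_ofReal_mul, Complex.ofReal_re]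
  have e5 : ‖(t : ℂ) * u‖ = t := by rw [norm_mul, ofReal_norm' ht, hu, mul_one]
  rw [e5] at h1
  rw [h2, norm_mul, h3]
  calc ‖g (t * u)‖ * Real.exp (-(M * t)) ≤ (M' * Real.exp ((M + c') * t)) *
        Real.exp (-(M * t)) := by gcongr
    _ = _ := by rw [mul_assoc, ← Real.exp_add]; ring_nf

end Pool.Agent.Helper960.Crg
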