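import Pool.Agent.Helper960.Crg.Defs

open Filter Topology Metric MeasureTheory

namespace Pool.Agent.Helper960.Crg

/-! ### Circles that avoid the exceptional set -/

/-- the exceptional family has density zero -/
def Thin (c : ℕ → ℂ) (ρ : ℕ → ℝ) : Prop :=
  (∀ j, 0 ≤ ρ j) ∧ Tendsto (fun R : ℝ =>
        (∑' j, if ‖c j‖ < R then ENNReal.ofReal (ρ j) else 0) / ENNReal.ofReal R) atTop (𝓝 0)

lemma thin_bound {c : ℕ → ℂ} {ρ : ℕ → ℝ} (h : Thin c ρ) {τ : ℝ} (hτ : 0 < τ) :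
    ∃ R₁ : ℝ, 0 < R₁ ∧ ∀ R ≥ R₁,
      (∑' j, if ‖c j‖ < R then ENNReal.ofReal (ρ j) else 0) ≤ ENNReal.ofReal (τ * R) := by
  have h1 := h.2.eventually (gt_mem_nhds (show (0 : ENNReal) < ENNReal.ofReal τ by
    rwa [ENNReal.ofReal_pos]))
  obtain ⟨R, hR⟩ := eventually_atTop.mp h1
  refine ⟨max R 1, by positivity, fun x hx => ?_⟩
  have hx0 : 0 < x := lt_of_lt_of_le one_pos ((le_max_right _ _).trans hx)
  have h2 := hR x ((le_max_left _ _).trans hx)
  have h3 := (ENNReal.div_le_iff (by rwa [Ne, ENNReal.ofReal_eq_zero, not_le])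
    ENNReal.ofReal_ne_top).mp h2.le
  rwa [← ENNReal.ofReal_mul hτ.le] at h3

lemma circ {c : ℕ → ℂ} {ρ : ℕ → ℝ} (h : Thin c ρ) {δ : ℝ} (hδ : 0 < δ) (hδ1 : δ ≤ 1 / 2) :
    ∃ R₀ : ℝ, 0 < R₀ ∧ ∀ z : ℂ, R₀ ≤ ‖z‖ → ∃ s : ℝ, 0 < s ∧ s < δ * ‖z‖ ∧
      ∀ w : ℂ, ‖w - z‖ = s → ∀ j, ρ j ≤ ‖w - c j‖ := by
  obtain ⟨R₁, hR₁, hb⟩ := thin_bound h (τ := δ / 24) (by positivity)
  refine ⟨R₁, hR₁, fun z hz => ?_⟩
  set r := ‖z‖ with hr
  have hr0 : 0 < r := by linarith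
  -- far discs
  have hfar : ∀ j, 3 * r ≤ ‖c j‖ → ρ j ≤ ‖c j‖ / 3 := by
    intro j hj
    have h1 := hb (2 * ‖c j‖) (by linarith)
    have h2 : ENNReal.ofReal (ρ j) ≤ ∑' j', if ‖c j'‖ < 2 * ‖c j‖ then ENNReal.ofReal (ρ j') else 0 := by
      have h3 := ENNReal.le_tsum (f := fun j' => if ‖c j'‖ < 2 * ‖c j‖ then
        ENNReal.ofReal (ρ j') else 0) j
      have h4 : ‖c j‖ < 2 * ‖c j‖ := by linarith
      simp only [h4, if_true] at h3
      exact h3
    have h5 := (ENNReal.ofReal_le_ofReal_iff (by positivity)).mp (h2.trans h1)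
    have h6 : 0 ≤ ‖c j‖ := norm_nonneg _
    nlinarith
  -- bad radii
  set B : ℕ → Set ℝ := fun j => if ‖c j‖ < 3 * r then ball (‖c j - z‖) (ρ j) else ∅ with hB
  have hvol : volume (⋃ j, B j) ≤ ENNReal.ofReal (δ / 4 * r) := by
    calc volume (⋃ j, B j) ≤ ∑' j, volume (B j) := measure_iUnion_le _
      _ ≤ ∑' j, 2 * (if ‖c j‖ < 3 * r then ENNReal.ofReal (ρ j) else 0) := by
        apply ENNReal.tsum_le_tsum
        intro j
        simp only [hB]
        split_ifs with hj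
        · rw [Real.volume_ball, ENNReal.ofReal_mul (by norm_num)]
          norm_num
        · simp
      _ = 2 * ∑' j, (if ‖c j‖ < 3 * r then ENNReal.ofReal (ρ j) else 0) := ENNReal.tsum_mul_left
      _ ≤ 2 * ENNReal.ofReal (δ / 24 * (3 * r)) := by
        gcongr
        exact hb _ (by linarith)
      _ = ENNReal.ofReal (δ / 4 * r) := by
        rw [show (2 : ENNReal) = ENNReal.ofReal 2 by norm_num, ← ENNReal.ofReal_mul (by norm_num)]
        congr 1; ring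
  have hex : ∃ s ∈ Set.Ioo (0 : ℝ) (δ * r), s ∉ ⋃ j, B j := by
    by_contra hcon
    push Not at hcon
    have h1 : volume (Set.Ioo (0 : ℝ) (δ * r)) ≤ volume (⋃ j, B j) := measure_mono hcon
    rw [Real.volume_Ioo, sub_zero] at h1
    have h2 := (ENNReal.ofReal_le_ofReal_iff (by positivity)).mp (h1.trans hvol)
    nlinarith
  obtain ⟨s, hs, hsB⟩ := hex
  refine ⟨s, hs.1, hs.2, fun w hw j => ?_⟩
  have hwn : ‖w‖ ≤ 2 * r := by
    have := norm_add_le (w - z) z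
    rw [sub_add_cancel, hw] at this
    have h2 := hs.2
    nlinarith
  by_cases hj : ‖c j‖ < 3 * r
  · by_contra hlt
    push Not at hlt
    apply hsB
    rw [Set.mem_iUnion]
    refine ⟨j, ?_⟩
    simp only [hB, hj, if_true]
    rw [mem_ball, Real.dist_eq, ← hw]
    have h1 := abs_norm_sub_norm_le (w - z) (c j - z)
    rw [sub_sub_sub_cancel_right] at h1
    linarith
  · push Not at hj
    have h1 := hfar j hj
    have h2 := norm_sub_norm_le (c j) w
    rw [norm_sub_rev] at h2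
    linarith

lemma H_polar {D : Set ℂ} (hD : IsCompact D) (hne : D.Nonempty) (w : ℂ) :
    H D w = ‖w‖ * H D (Complex.exp (w.arg * Complex.I)) := by
  conv_lhs => rw [← Complex.norm_mul_exp_arg_mul_I w]
  exact H_smul hD hne _ (norm_nonneg w)

/-- the two-sided bounds outside an exceptional set -/
def Reg (f : ℂ → ℂ) (D : Set ℂ) (c : ℕ → ℂ) (ρ : ℕ → ℝ) : Prop :=
  ∀ ε > 0, ∃ R₀ : ℝ, ∀ w : ℂ, R₀ ≤ ‖w‖ → (∀ j, ρ j ≤ ‖w - c j‖) →
    Real.exp (H D w - ε * ‖w‖) ≤ ‖f w‖ ∧ ‖f w‖ ≤ Real.exp (H D w + ε * ‖w‖)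

lemma reg_UB {f : ℂ → ℂ} {D : Set ℂ} {c : ℕ → ℂ} {ρ : ℕ → ℝ} (hf : Differentiable ℂ f)
    (hD : IsCompact D) (hne : D.Nonempty) (hT : Thin c ρ) (hR : Reg f D c ρ) : UB f D := by
  obtain ⟨σ, hσ⟩ := hD.isBounded.exists_norm_le
  have hσ0 : 0 ≤ σ := (norm_nonneg _).trans (hσ _ hne.some_mem)
  intro ε hε
  set δ := min (1 / 2) (ε / (4 * (σ + 1))) with hδ
  have hδ0 : 0 < δ := lt_min (by norm_num) (by positivity)
  have hδ1 : δ ≤ 1 / 2 := min_le_left _ _
  have hδ2 : σ * δ ≤ ε / 4 := by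
    have h1 : δ ≤ ε / (4 * (σ + 1)) := min_le_right _ _
    rw [le_div_iff₀ (by positivity)] at h1
    nlinarith
  obtain ⟨R₀, hR₀, hc⟩ := circ hT hδ0 hδ1
  obtain ⟨R₁, hr⟩ := hR (ε / 4) (by positivity)
  set R := max R₀ (2 * |R₁|) with hRdef
  have hRpos : 0 < R := lt_of_lt_of_le hR₀ (le_max_left _ _)
  have hbig : ∀ z : ℂ, R ≤ ‖z‖ → ‖f z‖ ≤ Real.exp (H D z + ε * ‖z‖) := by
    intro z hz
    obtain ⟨s, hs0, hs1, hs2⟩ := hc z ((le_max_left _ _).trans hz)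
    apply max_princ hf hs0 (z₀ := z) _ z (by simp [hs0.le])
    intro w hw
    have hwz : ‖w‖ ≤ ‖z‖ + s := by
      have := norm_add_le (w - z) z
      rw [sub_add_cancel, hw] at this
      linarith
    have hzw : ‖z‖ ≤ ‖w‖ + s := by
      have := norm_add_le (z - w) w
      rw [sub_add_cancel, norm_sub_rev, hw] at this
      linarith
    have hz0 : 0 < ‖z‖ := by linarith
    have hs3 : s ≤ 1 / 2 * ‖z‖ := by nlinarith
    have h1 : R₁ ≤ ‖w‖ := by
      have h2 := le_abs_self R₁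
      have h3 : 2 * |R₁| ≤ ‖z‖ := (le_max_right _ _).trans hz
      linarith
    refine (hr w h1 (hs2 w hw)).2.trans ?_
    apply Real.exp_le_exp.mpr
    have h4 := H_lip hD hne hσ w z
    rw [hw] at h4
    have h5 : σ * s ≤ ε / 4 * ‖z‖ := by
      calc σ * s ≤ σ * (δ * ‖z‖) := by gcongr
        _ = (σ * δ) * ‖z‖ := by ring
        _ ≤ ε / 4 * ‖z‖ := by gcongr
    have h6 : ε / 4 * ‖w‖ ≤ ε / 4 * (3 / 2 * ‖z‖) := by
      gcongr
      linarith
    nlinarith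
  obtain ⟨M, hM⟩ := ((isCompact_closedBall (0 : ℂ) R).image hf.continuous).isBounded.exists_norm_le
  refine ⟨max 1 (|M| * Real.exp (σ * R)), by positivity, fun z => ?_⟩
  rcases le_total R ‖z‖ with hz | hz
  · refine (hbig z hz).trans ?_
    have := le_max_left 1 (|M| * Real.exp (σ * R))
    nlinarith [Real.exp_pos (H D z + ε * ‖z‖)]
  · have h1 : ‖f z‖ ≤ |M| := (hM _ ⟨z, by simpa using hz, rfl⟩).trans (le_abs_self M)
    have h2 := neg_H_le hD hne hσ z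
    have h3 : σ * ‖z‖ ≤ σ * R := by gcongr
    calc ‖f z‖ ≤ |M| * 1 := by linarith
      _ ≤ |M| * (Real.exp (σ * R) * Real.exp (H D z + ε * ‖z‖)) := by
        gcongr
        rw [← Real.exp_add]
        apply Real.one_le_exp
        have : 0 ≤ ε * ‖z‖ := by positivity
        linarith
      _ = (|M| * Real.exp (σ * R)) * Real.exp (H D z + ε * ‖z‖) := by ring
      _ ≤ _ := by
        gcongr
        exact le_max_right _ _

lemma reg_PL {f : ℂ → ℂ} {D : Set ℂ} {c : ℕ → ℂ} {ρ : ℕ → ℝ}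
    (hT : Thin c ρ) (hR : Reg f D c ρ) (u : ℂ) : PL f D u := by
  have key : ∀ u : ℂ, u ≠ 0 → PL f D u := by
    intro u hu
    have hu0 : 0 < ‖u‖ := norm_pos_iff.mpr hu
    intro δ' hδ' η hη
    set δ := min (1 / 2) (δ' / ‖u‖) with hδ
    have hδ0 : 0 < δ := lt_min (by norm_num) (by positivity)
    obtain ⟨R₀, hR₀, hc⟩ := circ hT hδ0 (min_le_left _ _)
    obtain ⟨R₁, hr⟩ := hR (η / (2 * ‖u‖)) (by positivity)
    refine ⟨max (R₀ / ‖u‖) (2 * |R₁| / ‖u‖), fun r hr' => ?_⟩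
    have h1 : R₀ / ‖u‖ ≤ r := (le_max_left _ _).trans hr'
    have h2 : 2 * |R₁| / ‖u‖ ≤ r := (le_max_right _ _).trans hr'
    rw [div_le_iff₀ hu0] at h1 h2
    have hr0 : 0 < r := by
      by_contra hneg
      push Not at hneg
      nlinarith
    have hnorm : ‖(r : ℂ) * u‖ = r * ‖u‖ := by
      rw [norm_mul, Complex.norm_real, Real.norm_eq_abs, abs_of_pos hr0]
    obtain ⟨s, hs0, hs1, hs2⟩ := hc (r * u) (by rw [hnorm]; exact h1)
    rw [hnorm] at hs1
    have hw : ‖((r : ℂ) * u + s) - r * u‖ = s := by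
      rw [add_sub_cancel_left, Complex.norm_real, Real.norm_eq_abs, abs_of_pos hs0]
    refine ⟨r * u + s, ?_, ?_⟩
    · rw [hw]
      have : δ ≤ δ' / ‖u‖ := min_le_right _ _
      rw [le_div_iff₀ hu0] at this
      nlinarith
    · have hwz : ‖(r : ℂ) * u + s‖ ≤ r * ‖u‖ + s := by
        refine (norm_add_le _ _).trans ?_
        rw [hnorm, Complex.norm_real, Real.norm_eq_abs, abs_of_pos hs0]
      have hzw : r * ‖u‖ ≤ ‖(r : ℂ) * u + s‖ + s := by
        rw [← hnorm]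
        have := norm_sub_le ((r : ℂ) * u + s) (s : ℂ)
        rw [add_sub_cancel_right, Complex.norm_real, Real.norm_eq_abs, abs_of_pos hs0] at this
        exact this
      have hs3 : s ≤ 1 / 2 * (r * ‖u‖) := by
        have h5 : δ ≤ 1 / 2 := min_le_left _ _
        have h6 : 0 < r * ‖u‖ := by positivity
        nlinarith
      have h7 : R₁ ≤ ‖(r : ℂ) * u + s‖ := by
        have := le_abs_self R₁
        linarith
      refine le_trans ?_ (hr _ h7 (hs2 _ hw)).1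
      apply Real.exp_le_exp.mpr
      have h8 : η / (2 * ‖u‖) * ‖(r : ℂ) * u + s‖ ≤ η / (2 * ‖u‖) * (2 * (r * ‖u‖)) := by
        gcongr
        have : 0 < r * ‖u‖ := by positivity
        linarith
      have h9 : η / (2 * ‖u‖) * (2 * (r * ‖u‖)) = η * r := by field_simp
      linarith
  by_cases hu : u = 0
  · have h1 : closure ({(0 : ℂ)}ᶜ) ⊆ {u : ℂ | PL f D u} :=
      closure_minimal (fun v hv => key v hv) (PL_closed f D)
    have h2 : Dense ({(0 : ℂ)}ᶜ : Set ℂ) := dense_compl_singleton 0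
    exact h1 (by rw [h2.closure_eq]; trivial)
  · exact key u hu

end Pool.Agent.Helper960.Crg
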