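import Pool.Agent.Helper960.Crg.Polya

open Filter Topology Metric

namespace Pool.Agent.Helper960.Crg

lemma rb_of_indicator {f : ℂ → ℂ} (hf : Differentiable ℂ f) {θ h b : ℝ}
    (hh : indicator f θ = h) (hb : h < b) :
    RB f (Complex.exp (θ * Complex.I)) b := by
  obtain ⟨R, hR⟩ := eventually_atTop.mp (indicator_upper hh hb)
  have hcont : Continuous (fun t : ℝ => f (t * Complex.exp (θ * Complex.I))) :=
    hf.continuous.comp (Complex.continuous_ofReal.mul continuous_const)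
  obtain ⟨M, hM⟩ := (isCompact_Icc (a := (0 : ℝ)) (b := |R|)).exists_bound_of_continuousOn
    hcont.continuousOn
  have hM0 : 0 ≤ M := (norm_nonneg _).trans (hM 0 ⟨le_refl _, abs_nonneg R⟩)
  refine ⟨1 + M * Real.exp (|b| * |R|), fun t ht => ?_⟩
  rcases le_or_gt t |R| with h1 | h1
  · have h2 := hM t ⟨ht, h1⟩
    have h3 : 1 ≤ Real.exp (|b| * |R|) * Real.exp (b * t) := by
      rw [← Real.exp_add]
      apply Real.one_le_exp
      have h4 : -(b * t) ≤ |b| * |R| := by
        calc -(b * t) ≤ |b * t| := neg_le_abs _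
          _ = |b| * t := by rw [abs_mul, abs_of_nonneg ht]
          _ ≤ |b| * |R| := by gcongr
      linarith
    calc ‖f (t * Complex.exp (θ * Complex.I))‖ ≤ M * 1 := by rw [mul_one]; exact h2
      _ ≤ M * (Real.exp (|b| * |R|) * Real.exp (b * t)) := by gcongr
      _ ≤ 1 * Real.exp (b * t) + M * (Real.exp (|b| * |R|) * Real.exp (b * t)) := by
        have := Real.exp_pos (b * t)
        linarith
      _ = _ := by ring
  · have h2 := hR t ((le_abs_self R).trans h1.le)
    calc ‖f (t * Complex.exp (θ * Complex.I))‖ ≤ 1 * Real.exp (b * t) := by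
          rw [one_mul]; exact h2
      _ ≤ _ := by
        gcongr
        have : 0 ≤ M * Real.exp (|b| * |R|) := by positivity
        linarith

lemma indicator_le_of_rb {f : ℂ → ℂ} {θ h b : ℝ}
    (hh : indicator f θ = h) (hb : RB f (Complex.exp (θ * Complex.I)) b) :
    h ≤ b := by
  obtain ⟨C, hC⟩ := hb
  apply le_of_forall_pos_le_add
  intro ε hε
  apply indicator_lower hh
  filter_upwards [ev_exp0 C hε one_pos, eventually_ge_atTop 0] with r hr hr0
  calc ‖f (r * Complex.exp (θ * Complex.I))‖ ≤ C * Real.exp (b * r) := hC r hr0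
    _ = (C * Real.exp (-(ε * r))) * Real.exp ((b + ε) * r) := by
      rw [mul_assoc, ← Real.exp_add]; ring_nf
    _ ≤ 1 * Real.exp ((b + ε) * r) := by gcongr
    _ = _ := one_mul _

/-- Convolution operators preserve completely regular growth. -/
theorem final (f φ : ℂ → ℂ) (hf : CRG f) (hφ : Differentiable ℂ φ) (hφ0 : ∃ z, φ z ≠ 0)
    (hcorner : ∀ lam : ℂ, IsCorner (conjDiagram f) lam → φ lam ≠ 0) :
    (∀ z, Summable (fun k : ℕ => coef φ k * iteratedDeriv k f z)) ∧
    (CRG (T (coef φ) f) ∨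
      ∃ lam : ℂ, conjDiagram f = {lam} ∧ φ lam = 0 ∧ ∀ z, T (coef φ) f z = 0) := by
  obtain ⟨⟨hfd, A, B, hA⟩, -, h, hh, c, ρ, hρ, hthin, hreg⟩ := hf
  obtain ⟨hcomp, hconv, hne, hH⟩ := polya (h := h) hfd hA
    (fun θ b hb => rb_of_indicator hfd (hh θ) hb) (fun θ b hb => indicator_le_of_rb (hh θ) hb)
  set D : Set ℂ := conjDiagram f with hD
  have hT : Thin c ρ := ⟨hρ, hthin⟩
  have hR : Reg f D c ρ := by
    intro ε hε
    obtain ⟨R₀, hR₀⟩ := hreg ε hε
    refine ⟨R₀, fun w hw hj => ?_⟩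
    have h1 := hR₀ ‖w‖ hw w.arg (by
      intro j
      rw [Complex.norm_mul_exp_arg_mul_I]
      exact hj j)
    rw [Complex.norm_mul_exp_arg_mul_I] at h1
    rw [H_polar hcomp hne w, hH]
    have e1 : ‖w‖ * h w.arg - ε * ‖w‖ = (h w.arg - ε) * ‖w‖ := by ring
    have e2 : ‖w‖ * h w.arg + ε * ‖w‖ = (h w.arg + ε) * ‖w‖ := by ring
    rw [e1, e2]
    exact h1
  have hUB : UB f D := reg_UB hfd hcomp hne hT hR
  have hPL : ∀ u, PL f D u := reg_PL hT hR
  obtain ⟨σ, hσ⟩ := hcomp.isBounded.exists_norm_le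
  have hσ0 : 0 ≤ σ := (norm_nonneg _).trans (hσ _ hne.some_mem)
  have hσρ : σ < σ + 1 := by linarith
  have hdec : Dec (coef φ) (σ + 1) := Dec_coef (by linarith) hφ.diffContOnCl
  refine ⟨fun z => summable_T hfd hcomp hne hUB hσ hσρ hdec z, ?_⟩
  have hmain := PL_main hfd hcomp hconv hne hUB hPL hφ hφ0 hcorner
  rcases hmain with h1 | h1
  · left
    exact crg_of (T_diff hfd hcomp hne hUB hσ hσρ hdec) hcomp hne
      (T_UB hfd hcomp hne hUB hσ hσρ hdec) h1
  · right
    exact h1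

end Pool.Agent.Helper960.Crg
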