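import Pool.Agent.Helper960.Crg.Conv

open Filter Topology Metric

namespace Pool.Agent.Helper960.Crg

/-! ### First order factors in good directions -/

lemma ofReal_norm' {r : ℝ} (hr : 0 ≤ r) : ‖(r : ℂ)‖ = r := by
  rw [Complex.norm_real, Real.norm_eq_abs, abs_of_nonneg hr]

/-- the basic estimate along a segment of direction `v` -/
lemma seg_bound {F : ℂ → ℂ} (hF : Differentiable ℂ F) (lam w v : ℂ) {Tm B : ℝ} (hT : 0 ≤ Tm)
    (hB : ∀ τ : ℝ, 0 ≤ τ → τ ≤ Tm →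
      ‖deriv F (w + τ * v) - lam * F (w + τ * v)‖ * Real.exp (-(τ * (lam * v).re)) ≤ B) :
    ‖F w‖ ≤ ‖F (w + Tm * v)‖ * Real.exp (-(Tm * (lam * v).re)) + ‖v‖ * B * Tm := by
  set q : ℝ → ℂ := fun τ => F (w + τ * v) * Complex.exp (-((τ : ℂ) * (lam * v))) with hq
  have hder : ∀ τ : ℝ, HasDerivAt q (v * ((deriv F (w + τ * v) - lam * F (w + τ * v)) *
      Complex.exp (-((τ : ℂ) * (lam * v))))) τ := by
    intro τ
    have h1 : HasDerivAt (fun z : ℂ => w + z * v) v (τ : ℂ) := by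
      have := ((hasDerivAt_id (τ : ℂ)).mul_const v).const_add w
      simpa using this
    have h2 : HasDerivAt (fun z : ℂ => F (w + z * v)) (deriv F (w + τ * v) * v) (τ : ℂ) :=
      HasDerivAt.comp (τ : ℂ) (hF (w + τ * v)).hasDerivAt h1
    have h3 : HasDerivAt (fun z : ℂ => Complex.exp (-(z * (lam * v))))
        (Complex.exp (-((τ : ℂ) * (lam * v))) * (-(1 * (lam * v)))) (τ : ℂ) := by
      have h4 : HasDerivAt (fun z : ℂ => -(z * (lam * v))) (-(1 * (lam * v))) (τ : ℂ) :=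
        ((hasDerivAt_id (τ : ℂ)).mul_const (lam * v)).neg
      exact h4.cexp
    have h5 := (h2.mul h3).comp_ofReal
    have e : v * ((deriv F (w + τ * v) - lam * F (w + τ * v)) *
      Complex.exp (-((τ : ℂ) * (lam * v)))) = deriv F (w + ↑τ * v) * v * Complex.exp (-(↑τ * (lam * v))) +
      F (w + ↑τ * v) * (Complex.exp (-(↑τ * (lam * v))) * -(1 * (lam * v))) := by ring
    rw [e]
    exact h5
  have hn : ∀ τ : ℝ, ‖Complex.exp (-((τ : ℂ) * (lam * v)))‖ = Real.exp (-(τ * (lam * v).re)) := by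
    intro τ
    rw [Complex.norm_exp]
    congr 1
    rw [Complex.neg_re, Complex.re_ofReal_mul]
  have h1 := norm_image_sub_le_of_norm_deriv_le_segment' (a := 0) (b := Tm) (f := q)
    (f' := fun τ => v * ((deriv F (w + τ * v) - lam * F (w + τ * v)) *
      Complex.exp (-((τ : ℂ) * (lam * v))))) (C := ‖v‖ * B)
    (fun τ _ => (hder τ).hasDerivWithinAt) (by
      intro τ hτ
      rw [norm_mul, norm_mul, hn]
      exact mul_le_mul_of_nonneg_left (hB τ hτ.1 hτ.2.le) (norm_nonneg _)) Tm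
    ⟨hT, le_refl _⟩
  have h0 : q 0 = F w := by simp [hq]
  rw [h0, sub_zero] at h1
  have h2 : ‖q Tm‖ = ‖F (w + Tm * v)‖ * Real.exp (-(Tm * (lam * v).re)) := by
    rw [hq]; simp only; rw [norm_mul, hn]
  have h3 : ‖F w‖ ≤ ‖q Tm‖ + ‖q Tm - F w‖ := by
    have := norm_sub_le (q Tm) (q Tm - F w)
    rwa [sub_sub_cancel] at this
  rw [h2] at h3
  linarith


lemma PL_step {F : ℂ → ℂ} {D : Set ℂ} (hF : Differentiable ℂ F) (hD : IsCompact D)
    (hne : D.Nonempty) (hUB : UB F D) {lam u : ℂ} (hu : H D u ≠ (lam * u).re)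
    (hPL : PL F D u) : PL (fun z => deriv F z - lam * F z) D u := by
  by_contra hcon
  obtain ⟨δ, hδ, η, hη, hbad⟩ := not_PL hcon
  obtain ⟨σ, hσ⟩ := hD.isBounded.exists_norm_le
  have hσ0 : 0 ≤ σ := (norm_nonneg _).trans (hσ _ hne.some_mem)
  obtain ⟨v, γ, hγ, hvu, hv⟩ : ∃ v : ℂ, ∃ γ > 0, ‖v‖ = ‖u‖ ∧
      ∀ (w : ℂ) (r s d : ℝ), 0 ≤ s → s ≤ r → ‖w - r * u‖ ≤ d →
        H D (w + s * v) - s * (lam * v).re ≤ H D w - s * γ + 2 * σ * d := by
    rcases lt_or_gt_of_ne hu with h | h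
    · refine ⟨u, (lam * u).re - H D u, by linarith, rfl, ?_⟩
      intro w r s d hs hsr hd
      have h1 := H_add_le hD hne w (s * u)
      rw [H_smul hD hne u hs] at h1
      have h2 : 0 ≤ d := (norm_nonneg _).trans hd
      nlinarith [mul_nonneg hσ0 h2]
    · refine ⟨-u, H D u - (lam * u).re, by linarith, norm_neg u, ?_⟩
      intro w r s d hs hsr hd
      have h1 := H_add_le hD hne ((((r - s : ℝ) : ℂ)) * u) (w - r * u)
      have e1 : (((r - s : ℝ) : ℂ)) * u + (w - r * u) = w + s * (-u) := by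
        push_cast; ring
      rw [e1, H_smul hD hne u (by linarith : 0 ≤ r - s)] at h1
      have h2 := H_le_norm hne hσ (w - r * u)
      have h3 := H_lip hD hne hσ ((r : ℂ) * u) w
      rw [H_smul hD hne u (by linarith : 0 ≤ r), norm_sub_rev] at h3
      have h4 : (lam * -u).re = - (lam * u).re := by rw [mul_neg, Complex.neg_re]
      rw [h4]
      have h5 : σ * ‖w - r * u‖ ≤ σ * d := mul_le_mul_of_nonneg_left hd hσ0
      nlinarith
  -- parameters
  set t : ℝ := min 1 (δ / (2 * (‖u‖ + 1))) with ht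
  have ht0 : 0 < t := lt_min one_pos (by positivity)
  have ht1 : t ≤ 1 := min_le_left _ _
  have ht2 : t * ‖u‖ ≤ δ / 2 := by
    have h1 : t ≤ δ / (2 * (‖u‖ + 1)) := min_le_right _ _
    rw [le_div_iff₀ (by positivity)] at h1
    nlinarith [norm_nonneg u]
  set μ : ℝ := min (t * γ) η with hμ
  have hμ0 : 0 < μ := lt_min (by positivity) hη
  set δ' : ℝ := min (δ / 2) (μ / (8 * (σ + 1))) with hδ'
  have hδ'0 : 0 < δ' := lt_min (by positivity) (by positivity)
  have hδ'1 : δ' ≤ δ / 2 := min_le_left _ _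
  have hδ'2 : 2 * σ * δ' ≤ μ / 4 := by
    have h1 : δ' ≤ μ / (8 * (σ + 1)) := min_le_right _ _
    rw [le_div_iff₀ (by positivity)] at h1
    nlinarith
  set ε : ℝ := μ / (4 * (2 * ‖u‖ + δ' + 1)) with hε
  have hε0 : 0 < ε := by positivity
  have hε1 : ε * (2 * ‖u‖ + δ') ≤ μ / 4 := by
    have : ε * (4 * (2 * ‖u‖ + δ' + 1)) = μ := by
      rw [hε]; field_simp
    nlinarith
  obtain ⟨C, hC, hCb⟩ := hUB ε hε0
  obtain ⟨R₁, hR₁⟩ := hPL δ' hδ'0 (μ / 8) (by positivity)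
  obtain ⟨R₂, hR₂⟩ := eventually_atTop.mp
    ((ev_exp0 C (c := 3 * μ / 8) (κ := 1 / 4) (by positivity) (by norm_num)).and
     (ev_exp1 ‖u‖ (c := 5 * μ / 8) (κ := 1 / 4) (by positivity) (by norm_num)))
  obtain ⟨r, hr, hrb⟩ := hbad (max (max R₁ R₂) 1)
  have hr1 : 1 ≤ r := (le_max_right _ _).trans hr
  have hr0 : 0 < r := by linarith
  have hrR₁ : R₁ ≤ r := (le_max_left _ _).trans ((le_max_left _ _).trans hr)
  have hrR₂ : R₂ ≤ r := (le_max_right _ _).trans ((le_max_left _ _).trans hr)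
  obtain ⟨he1, he2⟩ := hR₂ r hrR₂
  obtain ⟨w, hw1, hw2⟩ := hR₁ r hrR₁
  have htr : 0 ≤ t * r := by positivity
  have htr1 : t * r ≤ r := by nlinarith
  have hseg := seg_bound hF lam w v (B := Real.exp (H D w + 2 * σ * (δ' * r) - η * r)) htr (by
    intro τ hτ0 hτ1
    have h1 := hv w r τ (δ' * r) hτ0 (hτ1.trans htr1) hw1
    have h2 : ‖(w + τ * v) - r * u‖ ≤ δ * r := by
      calc ‖(w + τ * v) - r * u‖ = ‖(w - r * u) + τ * v‖ := by ring_nf
        _ ≤ ‖w - r * u‖ + ‖(τ : ℂ) * v‖ := norm_add_le _ _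
        _ = ‖w - r * u‖ + τ * ‖u‖ := by rw [norm_mul, ofReal_norm' hτ0, hvu]
        _ ≤ δ' * r + (t * r) * ‖u‖ := by gcongr
        _ ≤ δ * r := by nlinarith
    have h3 := (hrb _ h2).le
    calc ‖deriv F (w + τ * v) - lam * F (w + τ * v)‖ * Real.exp (-(τ * (lam * v).re))
        ≤ Real.exp (H D (w + τ * v) - η * r) * Real.exp (-(τ * (lam * v).re)) :=
          mul_le_mul_of_nonneg_right h3 (Real.exp_pos _).le
      _ = Real.exp (H D (w + τ * v) - η * r - τ * (lam * v).re) := by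
          rw [← Real.exp_add]; ring_nf
      _ ≤ _ := by
          apply Real.exp_le_exp.mpr
          have : 0 ≤ τ * γ := by positivity
          linarith)
  have h4 : ‖F (w + ((t * r : ℝ) : ℂ) * v)‖ * Real.exp (-(t * r * (lam * v).re)) ≤
      C * Real.exp (H D w - μ / 2 * r) := by
    have h5 := hCb (w + ((t * r : ℝ) : ℂ) * v)
    have h6 := hv w r (t * r) (δ' * r) htr htr1 hw1
    have h7 : ‖w + ((t * r : ℝ) : ℂ) * v‖ ≤ (2 * ‖u‖ + δ') * r := by
      calc ‖w + ((t * r : ℝ) : ℂ) * v‖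
          = ‖(w - r * u) + (r : ℂ) * u + ((t * r : ℝ) : ℂ) * v‖ := by ring_nf
        _ ≤ ‖w - r * u‖ + ‖(r : ℂ) * u‖ + ‖((t * r : ℝ) : ℂ) * v‖ := norm_add₃_le
        _ = ‖w - r * u‖ + r * ‖u‖ + (t * r) * ‖u‖ := by
          rw [norm_mul, norm_mul, ofReal_norm' hr0.le, ofReal_norm' htr, hvu]
        _ ≤ δ' * r + r * ‖u‖ + r * ‖u‖ := by gcongr
        _ = _ := by ring
    have h8 : ε * ‖w + ((t * r : ℝ) : ℂ) * v‖ ≤ μ / 4 * r := by
      calc ε * ‖w + ((t * r : ℝ) : ℂ) * v‖ ≤ ε * ((2 * ‖u‖ + δ') * r) := by gcongr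
        _ = (ε * (2 * ‖u‖ + δ')) * r := by ring
        _ ≤ μ / 4 * r := by gcongr
    calc _ ≤ (C * Real.exp (H D (w + ((t * r : ℝ) : ℂ) * v) +
          ε * ‖w + ((t * r : ℝ) : ℂ) * v‖)) * Real.exp (-(t * r * (lam * v).re)) :=
          mul_le_mul_of_nonneg_right h5 (Real.exp_pos _).le
      _ = C * Real.exp (H D (w + ((t * r : ℝ) : ℂ) * v) +
          ε * ‖w + ((t * r : ℝ) : ℂ) * v‖ - t * r * (lam * v).re) := by
          rw [mul_assoc, ← Real.exp_add]; ring_nf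
      _ ≤ _ := by
          apply mul_le_mul_of_nonneg_left _ hC.le
          apply Real.exp_le_exp.mpr
          have h9 : μ * r ≤ t * r * γ := by
            have : μ ≤ t * γ := min_le_left _ _
            nlinarith
          nlinarith
  have h5 : ‖v‖ * Real.exp (H D w + 2 * σ * (δ' * r) - η * r) * (t * r) ≤
      ‖u‖ * r * Real.exp (H D w - 3 * μ / 4 * r) := by
    rw [hvu]
    have h6 : Real.exp (H D w + 2 * σ * (δ' * r) - η * r) ≤ Real.exp (H D w - 3 * μ / 4 * r) := by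
      apply Real.exp_le_exp.mpr
      have h7 : μ ≤ η := min_le_right _ _
      nlinarith
    calc _ ≤ ‖u‖ * Real.exp (H D w - 3 * μ / 4 * r) * r := by gcongr
      _ = _ := by ring
  have h6 : Real.exp (H D w - μ / 8 * r) ≤ C * Real.exp (H D w - μ / 2 * r) +
      ‖u‖ * r * Real.exp (H D w - 3 * μ / 4 * r) := by linarith
  have e1 : Real.exp (H D w - μ / 2 * r) = Real.exp (H D w - μ / 8 * r) *
      Real.exp (-(3 * μ / 8 * r)) := by rw [← Real.exp_add]; ring_nf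
  have e2 : Real.exp (H D w - 3 * μ / 4 * r) = Real.exp (H D w - μ / 8 * r) *
      Real.exp (-(5 * μ / 8 * r)) := by rw [← Real.exp_add]; ring_nf
  rw [e1, e2] at h6
  have h7 := Real.exp_pos (H D w - μ / 8 * r)
  nlinarith

end Pool.Agent.Helper960.Crg
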