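import Pool.Agent.Helper960.Crg.Geo

open Filter Topology Metric

namespace Pool.Agent.Helper960.Crg

/-! ### Three circles and propagation of smallness -/

lemma three_circles {F : ℂ → ℂ} (hF : Differentiable ℂ F) {c : ℂ} {a R m M : ℝ} (ha : 0 < a)
    (haR : a < R)
    (h1 : ∀ z, ‖z - c‖ ≤ a → ‖F z‖ ≤ Real.exp m) (h2 : ∀ z, ‖z - c‖ ≤ R → ‖F z‖ ≤ Real.exp M)
    {s : ℝ} (has : a ≤ s) (hsR : s ≤ R) :
    ∀ z, ‖z - c‖ ≤ s → ‖F z‖ ≤
      Real.exp (m * (Real.log (R / s) / Real.log (R / a)) +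
        M * (Real.log (s / a) / Real.log (R / a))) := by
  have hR : 0 < R := ha.trans haR
  have hs : 0 < s := ha.trans_le has
  set Λ : ℝ := Real.log (R / a) with hΛ
  have hΛ0 : 0 < Λ := Real.log_pos (by rw [one_lt_div ha]; exact haR)
  apply max_princ hF hs
  intro z hz
  set q : ℂ → ℂ := fun ζ => F (c + a * Complex.exp (Λ * ζ)) with hq
  have hqd : Differentiable ℂ q :=
    hF.comp ((((differentiable_id.const_mul (Λ : ℂ)).cexp).const_mul (a : ℂ)).const_add c)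
  have hn : ∀ ζ : ℂ, ‖c + a * Complex.exp (Λ * ζ) - c‖ = a * Real.exp (Λ * ζ.re) := by
    intro ζ
    rw [add_sub_cancel_left, norm_mul, Complex.norm_exp, Complex.re_ofReal_mul,
      Complex.norm_real, Real.norm_eq_abs, abs_of_pos ha]
  have hB : ∀ ζ : ℂ, ζ.re ≤ 1 → ‖q ζ‖ ≤ Real.exp M := by
    intro ζ hζ
    apply h2
    rw [hn]
    calc a * Real.exp (Λ * ζ.re) ≤ a * Real.exp Λ := by
          gcongr
          nlinarith
      _ = R := by
        rw [hΛ, Real.exp_log (by positivity)]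
        field_simp
  obtain ⟨ζ, hζ0, hζ1⟩ : ∃ ζ : ℂ, c + a * Complex.exp (Λ * ζ) = z ∧
      ζ.re = Real.log (s / a) / Λ := by
    have hzc : z - c ≠ 0 := by
      rw [← norm_pos_iff, hz]; exact hs
    have haC : (a : ℂ) ≠ 0 := by exact_mod_cast ha.ne'
    have hΛC : (Λ : ℂ) ≠ 0 := by exact_mod_cast hΛ0.ne'
    refine ⟨Complex.log ((z - c) / a) / Λ, ?_, ?_⟩
    · rw [mul_div_cancel₀ _ hΛC, Complex.exp_log (div_ne_zero hzc haC)]
      field_simp
      ring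
    · rw [Complex.div_ofReal_re, Complex.log_re, norm_div, hz, Complex.norm_real,
        Real.norm_eq_abs, abs_of_pos ha]
  have hx0 : 0 ≤ Real.log (s / a) / Λ :=
    div_nonneg (Real.log_nonneg (by rw [one_le_div ha]; exact has)) hΛ0.le
  have hsum : Real.log (R / s) / Λ + Real.log (s / a) / Λ = 1 := by
    rw [← add_div, ← Real.log_mul (by positivity) (by positivity)]
    have : R / s * (s / a) = R / a := by field_simp
    rw [this]
    exact div_self hΛ0.ne'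
  have hx2 : 0 ≤ Real.log (R / s) / Λ :=
    div_nonneg (Real.log_nonneg (by rw [one_le_div hs]; exact hsR)) hΛ0.le
  have h3 := Complex.HadamardThreeLines.norm_le_interp_of_mem_verticalClosedStrip₀₁' (f := q)
    (z := ζ) (a := Real.exp m) (b := Real.exp M) (by
      show ζ.re ∈ Set.Icc 0 1
      rw [hζ1]
      exact ⟨hx0, by linarith⟩) hqd.diffContOnCl (by
      refine ⟨Real.exp M, ?_⟩
      rintro _ ⟨w, hw, rfl⟩
      exact hB w hw.2) (by
      intro w hw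
      have hw' : w.re = 0 := hw
      apply h1
      rw [hn, hw', mul_zero, Real.exp_zero, mul_one]) (by
      intro w hw
      have hw' : w.re = 1 := hw
      exact hB w hw'.le)
  rw [hζ1, ← Real.exp_mul, ← Real.exp_mul, ← Real.exp_add] at h3
  have h4 : q ζ = F z := by simp only [hq, hζ0]
  rw [h4] at h3
  have h5 : 1 - Real.log (s / a) / Λ = Real.log (R / s) / Λ := by linarith
  rwa [h5] at h3

/-- exponential smallness near `r x`, along the filter `L` of radii -/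
def Sm (G : ℂ → ℂ) (L : Filter ℝ) (x : ℂ) : Prop :=
  ∃ ρ : ℝ, 0 < ρ ∧ ∃ κ : ℝ, 0 < κ ∧ ∀ᶠ r : ℝ in L, ∀ ζ : ℂ, ‖ζ - x‖ ≤ ρ → ‖G (r * ζ)‖ ≤ Real.exp (-(κ * r))

/-- the interior of the cone where the support function vanishes -/
def U₀ (D : Set ℂ) : Set ℂ := {z | ∃ c > 0, ∀ ζ ∈ D, (ζ * z).re + c * ‖ζ‖ ≤ 0}

lemma circ_small {G : ℂ → ℂ} (hG : Differentiable ℂ G) {L : Filter ℝ} (hL : L ≤ atTop)
    {y : ℂ} {ρ₀ κ R₁ R₂ A : ℝ} (h0 : 0 < ρ₀) (h1 : ρ₀ ≤ R₂) (h2 : R₂ < R₁) (hA : 0 ≤ A)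
    (hs : ∀ᶠ r : ℝ in L, ∀ ζ : ℂ, ‖ζ - y‖ ≤ ρ₀ → ‖G (r * ζ)‖ ≤ Real.exp (-(κ * r)))
    (hg : ∀ᶠ r : ℝ in L, ∀ ζ : ℂ, ‖ζ - y‖ ≤ R₁ → ‖G (r * ζ)‖ ≤ Real.exp (A * r)) :
    ∀ᶠ r : ℝ in L, ∀ ζ : ℂ, ‖ζ - y‖ ≤ R₂ → ‖G (r * ζ)‖ ≤
      Real.exp (-((κ * (Real.log (R₁ / R₂) / Real.log (R₁ / ρ₀)) - A) * r)) := by
  filter_upwards [hs, hg, hL (eventually_ge_atTop 0)] with r hr1 hr2 hr0 ζ hζ
  have hd : Differentiable ℂ (fun ζ : ℂ => G (r * ζ)) :=
    hG.comp (differentiable_id.const_mul (r : ℂ))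
  have h3 := three_circles hd (c := y) (a := ρ₀) (R := R₁) (m := -(κ * r)) (M := A * r) h0
    (h1.trans_lt h2) hr1 hr2 h1 h2.le ζ hζ
  refine h3.trans (Real.exp_le_exp.mpr ?_)
  have hR₂ : 0 < R₂ := h0.trans_le h1
  have hR₁ : 0 < R₁ := hR₂.trans h2
  have hΛ : 0 < Real.log (R₁ / ρ₀) := Real.log_pos (by rw [one_lt_div h0]; linarith)
  have h4 : Real.log (R₂ / ρ₀) / Real.log (R₁ / ρ₀) ≤ 1 := by
    rw [div_le_one hΛ]
    apply Real.log_le_log (by positivity)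
    gcongr
  have h5 : A * r * (Real.log (R₂ / ρ₀) / Real.log (R₁ / ρ₀)) ≤ A * r * 1 :=
    mul_le_mul_of_nonneg_left h4 (by positivity)
  nlinarith

lemma ball_growth {G : ℂ → ℂ} {D : Set ℂ} (hD : IsCompact D) (hne : D.Nonempty) (hUB : UB G D)
    {x : ℂ} {R A : ℝ} (hH : ∀ ζ : ℂ, ‖ζ - x‖ ≤ R → H D ζ ≤ A) {ε : ℝ} (hε : 0 < ε) :
    ∀ᶠ r : ℝ in atTop, ∀ ζ : ℂ, ‖ζ - x‖ ≤ R → ‖G (r * ζ)‖ ≤ Real.exp ((A + ε) * r) := by
  obtain ⟨C, hC, hCb⟩ := hUB (ε / (2 * (‖x‖ + |R| + 1))) (by positivity)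
  filter_upwards [ev_exp0 C (c := ε / 2) (κ := 1) (by positivity) one_pos,
    eventually_ge_atTop 0] with r hr hr0 ζ hζ
  have h1 := hCb (r * ζ)
  rw [H_smul hD hne ζ hr0, norm_mul, ofReal_norm' hr0] at h1
  have h2 := hH ζ hζ
  have h3 : ‖ζ‖ ≤ ‖x‖ + |R| := by
    have h4 := norm_add_le (ζ - x) x
    rw [sub_add_cancel] at h4
    have h5 := le_abs_self R
    linarith
  have h4 : ε / (2 * (‖x‖ + |R| + 1)) * (r * ‖ζ‖) ≤ ε / 2 * r := by
    have h5 : ε / (2 * (‖x‖ + |R| + 1)) * ‖ζ‖ ≤ ε / 2 := by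
      rw [div_mul_eq_mul_div, div_le_div_iff₀ (by positivity) (by norm_num)]
      nlinarith [norm_nonneg x, abs_nonneg R, mul_le_mul_of_nonneg_left h3 hε.le]
    nlinarith
  calc ‖G (r * ζ)‖ ≤ C * Real.exp (r * H D ζ + ε / (2 * (‖x‖ + |R| + 1)) * (r * ‖ζ‖)) := h1
    _ ≤ C * Real.exp (-(ε / 2 * r) + (A + ε) * r) := by
      apply mul_le_mul_of_nonneg_left _ hC.le
      apply Real.exp_le_exp.mpr
      nlinarith
    _ = (C * Real.exp (-(ε / 2 * r))) * Real.exp ((A + ε) * r) := by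
      rw [Real.exp_add]; ring
    _ ≤ 1 * Real.exp ((A + ε) * r) := by gcongr
    _ = _ := one_mul _

lemma U₀_ball {D : Set ℂ} {z : ℂ} {c : ℝ} (_hc : 0 < c) (hz : ∀ ζ ∈ D, (ζ * z).re + c * ‖ζ‖ ≤ 0)
    {w : ℂ} (hw : ‖w - z‖ < c) : w ∈ U₀ D := by
  refine ⟨c - ‖w - z‖, by linarith, fun ζ hζ => ?_⟩
  have h1 := hz ζ hζ
  have h2 : (ζ * w).re = (ζ * z).re + (ζ * (w - z)).re := by
    rw [← Complex.add_re]; ring_nf
  have h3 : (ζ * (w - z)).re ≤ ‖ζ‖ * ‖w - z‖ := by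
    rw [← norm_mul]; exact Complex.re_le_norm _
  rw [h2]
  nlinarith

lemma U₀_open (D : Set ℂ) : IsOpen (U₀ D) := by
  rw [Metric.isOpen_iff]
  rintro z ⟨c, hc, hz⟩
  refine ⟨c, hc, fun w hw => ?_⟩
  rw [mem_ball, dist_eq_norm] at hw
  exact U₀_ball hc hz hw

lemma U₀_convex (D : Set ℂ) : Convex ℝ (U₀ D) := by
  rintro z ⟨c, hc, hz⟩ w ⟨d, hd, hw⟩ a b ha hb hab
  refine ⟨min c d, lt_min hc hd, fun ζ hζ => ?_⟩
  have h1 := hz ζ hζ
  have h2 := hw ζ hζ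
  have h3 : (ζ * (a • z + b • w)).re = a * (ζ * z).re + b * (ζ * w).re := by
    rw [Complex.real_smul, Complex.real_smul,
      show ζ * ((a : ℂ) * z + (b : ℂ) * w) = (a : ℂ) * (ζ * z) + (b : ℂ) * (ζ * w) by ring,
      Complex.add_re, Complex.re_ofReal_mul, Complex.re_ofReal_mul]
  rw [h3]
  have h4 : min c d * ‖ζ‖ ≤ c * ‖ζ‖ := mul_le_mul_of_nonneg_right (min_le_left _ _) (norm_nonneg _)
  have h5 : min c d * ‖ζ‖ ≤ d * ‖ζ‖ := mul_le_mul_of_nonneg_right (min_le_right _ _) (norm_nonneg _)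
  have h6 : a * ((ζ * z).re + min c d * ‖ζ‖) ≤ 0 :=
    mul_nonpos_of_nonneg_of_nonpos ha (by linarith)
  have h7 : b * ((ζ * w).re + min c d * ‖ζ‖) ≤ 0 :=
    mul_nonpos_of_nonneg_of_nonpos hb (by linarith)
  have h8 : a * ((ζ * z).re + min c d * ‖ζ‖) + b * ((ζ * w).re + min c d * ‖ζ‖) =
      a * (ζ * z).re + b * (ζ * w).re + (a + b) * (min c d * ‖ζ‖) := by ring
  rw [hab, one_mul] at h8
  linarith

lemma U₀_H {D : Set ℂ} (hne : D.Nonempty) {z : ℂ} (hz : z ∈ U₀ D) : H D z ≤ 0 := by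
  obtain ⟨c, hc, h⟩ := hz
  apply H_le hne
  intro ζ hζ
  have := h ζ hζ
  have h2 : 0 ≤ c * ‖ζ‖ := by positivity
  linarith

lemma Sm_open (G : ℂ → ℂ) (L : Filter ℝ) : IsOpen {x | Sm G L x} := by
  rw [Metric.isOpen_iff]
  rintro x ⟨ρ, hρ, κ, hκ, h⟩
  refine ⟨ρ / 2, by positivity, fun y hy => ⟨ρ / 2, by positivity, κ, hκ, ?_⟩⟩
  rw [mem_ball, dist_eq_norm] at hy
  filter_upwards [h] with r hr ζ hζ
  apply hr
  have := norm_add_le (ζ - y) (y - x)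
  rw [sub_add_sub_cancel] at this
  linarith

lemma Sm_prop {G : ℂ → ℂ} {D : Set ℂ} (hG : Differentiable ℂ G) (hD : IsCompact D)
    (hne : D.Nonempty) (hUB : UB G D) {L : Filter ℝ} (hL : L ≤ atTop) {u : ℂ} (hu : u ∈ U₀ D)
    (hSu : Sm G L u) : ∀ x ∈ U₀ D, Sm G L x := by
  have key : U₀ D ⊆ {x | Sm G L x} := by
    apply IsPreconnected.subset_of_closure_inter_subset (U₀_convex D).isPreconnected
      (Sm_open G L) ⟨u, hu, hSu⟩
    rintro x ⟨hx1, hx2⟩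
    obtain ⟨e, he, hex⟩ := Metric.isOpen_iff.mp (U₀_open D) x hx2
    set d := e / 4 with hd
    have hd0 : 0 < d := by positivity
    obtain ⟨y, hy1, hy2⟩ := Metric.mem_closure_iff.mp hx1 d hd0
    obtain ⟨ρ, hρ, κ, hκ, h⟩ := hy1
    rw [dist_eq_norm] at hy2
    have hρ₀ : 0 < min ρ d := lt_min hρ hd0
    have hs : ∀ᶠ r : ℝ in L, ∀ ζ : ℂ, ‖ζ - y‖ ≤ min ρ d → ‖G (r * ζ)‖ ≤ Real.exp (-(κ * r)) := by
      filter_upwards [h] with r hr ζ hζ
      exact hr ζ (hζ.trans (min_le_left _ _))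
    have hx' : 0 < Real.log (2 * d / (3 / 2 * d)) / Real.log (2 * d / min ρ d) := by
      apply div_pos
      · apply Real.log_pos
        rw [one_lt_div (by positivity)]
        linarith
      · apply Real.log_pos
        rw [one_lt_div hρ₀]
        linarith [min_le_right ρ d]
    set x' := Real.log (2 * d / (3 / 2 * d)) / Real.log (2 * d / min ρ d) with hx'd
    have hg := ball_growth hD hne hUB (x := y) (R := 2 * d) (A := 0) (by
      intro ζ hζ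
      apply U₀_H hne
      apply hex
      rw [mem_ball, dist_eq_norm]
      have := norm_sub_le (ζ - y) (x - y)
      rw [sub_sub_sub_cancel_right] at this
      linarith) (ε := κ * x' / 2) (by positivity)
    have h3 := circ_small hG hL (y := y) (ρ₀ := min ρ d) (κ := κ) (R₁ := 2 * d) (R₂ := 3 / 2 * d)
      (A := 0 + κ * x' / 2) hρ₀ (by linarith [min_le_right ρ d]) (by linarith) (by positivity)
      hs (hL hg)
    refine ⟨d / 2, by positivity, κ * x' / 2, by positivity, ?_⟩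
    filter_upwards [h3] with r hr ζ hζ
    have h4 := hr ζ (by
      have := norm_add_le (ζ - x) (x - y)
      rw [sub_add_sub_cancel] at this
      linarith)
    refine h4.trans (Real.exp_le_exp.mpr (le_of_eq ?_))
    rw [← hx'd]
    ring
  exact key

/-- failure of the lower bound in a direction of `U₀` gives smallness along a filter -/
lemma exists_filter {G : ℂ → ℂ} {D : Set ℂ} (hG : Differentiable ℂ G) (hD : IsCompact D)
    (hne : D.Nonempty) (hUB : UB G D) {u : ℂ} (hu : u ∈ U₀ D)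
    (hPL : ¬ PL G D u) : ∃ L : Filter ℝ, L.NeBot ∧ L ≤ atTop ∧ ∀ x ∈ U₀ D, Sm G L x := by
  obtain ⟨δ, hδ, η, hη, hbad⟩ := not_PL hPL
  set S : Set ℝ := {r | ∀ w : ℂ, ‖w - r * u‖ ≤ δ * r → ‖G w‖ < Real.exp (H D w - η * r)} with hS
  have hfr : ∃ᶠ r in (atTop : Filter ℝ), r ∈ S := by
    rw [Filter.frequently_atTop]
    intro R
    obtain ⟨r, hr, h⟩ := hbad R
    exact ⟨r, hr, h⟩
  refine ⟨atTop ⊓ 𝓟 S, Filter.frequently_iff_neBot.mp hfr, inf_le_left, ?_⟩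
  apply Sm_prop hG hD hne hUB inf_le_left hu
  obtain ⟨c, hc, hcu⟩ := hu
  refine ⟨min δ (c / 2), lt_min hδ (by positivity), η, hη, ?_⟩
  have h1 : ∀ᶠ r : ℝ in atTop ⊓ 𝓟 S, r ∈ S := by
    apply Filter.mem_inf_of_right
    exact Filter.mem_principal_self S
  have h2 : ∀ᶠ r : ℝ in atTop ⊓ 𝓟 S, 0 < r :=
    (inf_le_left : atTop ⊓ 𝓟 S ≤ atTop) (eventually_gt_atTop 0)
  filter_upwards [h1, h2] with r hr hr0 ζ hζ
  have h3 : ‖(r : ℂ) * ζ - r * u‖ ≤ δ * r := by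
    rw [← mul_sub, norm_mul, ofReal_norm' hr0.le, mul_comm]
    exact mul_le_mul_of_nonneg_right (hζ.trans (min_le_left _ _)) hr0.le
  refine (hr _ h3).le.trans (Real.exp_le_exp.mpr ?_)
  rw [H_smul hD hne ζ hr0.le]
  have h4 : H D ζ ≤ 0 := by
    apply U₀_H hne
    apply U₀_ball hc hcu
    have := hζ.trans (min_le_right _ _)
    linarith
  nlinarith

lemma small_s {D : Set ℂ} (hD : IsCompact D) (hne : D.Nonempty) {a : ℂ} {R : ℝ} (hR : 0 < R)
    (ha : ∀ ζ ∈ D, ζ ≠ 0 → (ζ * a).re + R * ‖ζ‖ < 0) {κ : ℝ} (hκ : 0 < κ) :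
    ∃ s : ℝ, 0 < s ∧ s ≤ R ∧ ∀ w : ℂ, ‖w - a‖ ≤ R + s → H D w ≤ κ * s := by
  obtain ⟨σ, hσ⟩ := hD.isBounded.exists_norm_le
  have hσ0 : 0 ≤ σ := (norm_nonneg _).trans (hσ _ hne.some_mem)
  have hcont : Continuous (fun ζ : ℂ => (ζ * a).re + R * ‖ζ‖) :=
    (Complex.continuous_re.comp (continuous_id.mul continuous_const)).add
      (continuous_const.mul continuous_norm)
  have hK : IsCompact (D ∩ {ζ : ℂ | κ ≤ ‖ζ‖}) :=
    hD.inter_right (isClosed_le continuous_const continuous_norm)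
  obtain ⟨c, hc, hcb⟩ : ∃ c > 0, ∀ ζ ∈ D, κ ≤ ‖ζ‖ → (ζ * a).re + R * ‖ζ‖ ≤ -c := by
    rcases (D ∩ {ζ : ℂ | κ ≤ ‖ζ‖}).eq_empty_or_nonempty with h | h
    · refine ⟨1, one_pos, fun ζ hζ hζκ => ?_⟩
      exact absurd (show ζ ∈ D ∩ {ζ : ℂ | κ ≤ ‖ζ‖} from ⟨hζ, hζκ⟩) (by rw [h]; simp)
    · obtain ⟨ζ₀, hζ₀, hmax⟩ := hK.exists_isMaxOn h hcont.continuousOn
      refine ⟨-((ζ₀ * a).re + R * ‖ζ₀‖), ?_, fun ζ hζ hζκ => ?_⟩
      · have := ha ζ₀ hζ₀.1 (by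
          rintro rfl
          have h1 := hζ₀.2
          simp at h1
          linarith)
        linarith
      · rw [neg_neg]
        exact hmax ⟨hζ, hζκ⟩
  refine ⟨min R (c / (σ + 1)), lt_min hR (by positivity), min_le_left _ _, ?_⟩
  set s := min R (c / (σ + 1)) with hs
  have hs0 : 0 < s := lt_min hR (by positivity)
  have hsc : s * σ ≤ c := by
    have h1 : s ≤ c / (σ + 1) := min_le_right _ _
    rw [le_div_iff₀ (by positivity)] at h1
    nlinarith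
  intro w hw
  apply H_le hne
  intro ζ hζ
  have h1 : (ζ * w).re ≤ (ζ * a).re + ‖ζ‖ * (R + s) := by
    have h2 : (ζ * w).re = (ζ * a).re + (ζ * (w - a)).re := by
      rw [← Complex.add_re]; ring_nf
    have h3 : (ζ * (w - a)).re ≤ ‖ζ‖ * ‖w - a‖ := by
      rw [← norm_mul]; exact Complex.re_le_norm _
    have h4 : ‖ζ‖ * ‖w - a‖ ≤ ‖ζ‖ * (R + s) := mul_le_mul_of_nonneg_left hw (norm_nonneg _)
    linarith
  rcases le_or_gt κ ‖ζ‖ with h | h
  · have h2 := hcb ζ hζ h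
    have h3 := hσ ζ hζ
    nlinarith
  · have h2 : (ζ * a).re + R * ‖ζ‖ ≤ 0 := by
      rcases eq_or_ne ζ 0 with rfl | h3
      · simp
      · exact (ha ζ hζ h3).le
    nlinarith

/-- the Hopf-type step: smallness inside the cone spreads to a boundary point at which the lower
bound holds, a contradiction -/
theorem hopf {G : ℂ → ℂ} {D : Set ℂ} (hG : Differentiable ℂ G) (hD : IsCompact D)
    (h0 : (0 : ℂ) ∈ D) (hUB : UB G D) {p a : ℂ} {R : ℝ} (hR : 0 < R) (hpa : ‖p - a‖ = R)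
    (ha : ∀ ζ ∈ D, ζ ≠ 0 → (ζ * a).re + R * ‖ζ‖ < 0) (hp : PL G D p) :
    ∀ u ∈ U₀ D, PL G D u := by
  intro u hu
  by_contra hcon
  have hne : D.Nonempty := ⟨0, h0⟩
  obtain ⟨L, hLn, hL, hS⟩ := exists_filter hG hD hne hUB hu hcon
  have haU : a ∈ U₀ D := by
    refine ⟨R, hR, fun ζ hζ => ?_⟩
    rcases eq_or_ne ζ 0 with rfl | h3
    · simp
    · exact (ha ζ hζ h3).le
  obtain ⟨ρ, hρ, κ, hκ, hsm⟩ := hS a haU
  set ρ₀ := min ρ (R / 2) with hρ₀
  have hρ₀0 : 0 < ρ₀ := lt_min hρ (by positivity)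
  have hρ₀1 : ρ₀ ≤ R / 2 := min_le_right _ _
  set Λ := Real.log (2 * R / ρ₀) with hΛ
  have hΛ0 : 0 < Λ := Real.log_pos (by rw [one_lt_div hρ₀0]; linarith)
  set c₁ := 1 / (4 * R * Λ) with hc₁
  have hc₁0 : 0 < c₁ := by positivity
  obtain ⟨s, hs0, hsR, hsH⟩ := small_s hD hne hR ha (κ := κ * c₁ / 4) (by positivity)
  have hg := ball_growth hD hne hUB (x := a) (R := R + s) (A := κ * c₁ / 4 * s) hsH
    (ε := κ * c₁ / 4 * s) (by positivity)
  have hs' : ∀ᶠ r : ℝ in L, ∀ ζ : ℂ, ‖ζ - a‖ ≤ ρ₀ → ‖G (r * ζ)‖ ≤ Real.exp (-(κ * r)) := by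
    filter_upwards [hsm] with r hr ζ hζ
    exact hr ζ (hζ.trans (min_le_left _ _))
  have h3 := circ_small hG hL (y := a) (ρ₀ := ρ₀) (κ := κ) (R₁ := R + s) (R₂ := R + s / 2)
    (A := κ * c₁ / 4 * s + κ * c₁ / 4 * s) hρ₀0 (by linarith) (by linarith) (by positivity)
    hs' (hL hg)
  have hx : c₁ * s ≤ Real.log ((R + s) / (R + s / 2)) / Real.log ((R + s) / ρ₀) := by
    have h4 : s / (4 * R) ≤ Real.log ((R + s) / (R + s / 2)) := by
      have h5 := Real.one_sub_inv_le_log_of_pos (x := (R + s) / (R + s / 2)) (by positivity)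
      refine le_trans ?_ h5
      rw [inv_div, div_le_iff₀ (by positivity)]
      have h6 : (R + s / 2) / (R + s) = 1 - (s / 2) / (R + s) := by
        field_simp; ring
      rw [h6]
      have h7 : (s / 2) / (R + s) ≥ (s / 2) / (2 * R) := by
        apply div_le_div_of_nonneg_left (by positivity) (by positivity) (by linarith)
      have h8 : (s / 2) / (2 * R) * (4 * R) = s := by field_simp; ring
      nlinarith
    have h5 : Real.log ((R + s) / ρ₀) ≤ Λ := by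
      apply Real.log_le_log (by positivity)
      gcongr
      linarith
    have h6 : 0 < Real.log ((R + s) / ρ₀) := Real.log_pos (by
      rw [one_lt_div hρ₀0]; linarith)
    rw [le_div_iff₀ h6]
    calc c₁ * s * Real.log ((R + s) / ρ₀) ≤ c₁ * s * Λ := by gcongr
      _ = s / (4 * R) := by rw [hc₁]; field_simp
      _ ≤ _ := h4
  set x' := Real.log ((R + s) / (R + s / 2)) / Real.log ((R + s) / ρ₀) with hx'
  obtain ⟨R₀, hR₀⟩ := hp (s / 2) (by positivity) (κ * c₁ * s / 4) (by positivity)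
  obtain ⟨r, hr1, hr2, hr3⟩ := (h3.and (hL ((eventually_ge_atTop R₀).and
    (eventually_gt_atTop 0)))).exists
  obtain ⟨w, hw1, hw2⟩ := hR₀ r hr2
  have hrC : (r : ℂ) ≠ 0 := by exact_mod_cast hr3.ne'
  have hww : (r : ℂ) * (w / r) = w := by field_simp
  have h4 := hr1 (w / r) (by
    have h5 : ‖w / r - p‖ ≤ s / 2 := by
      have h6 : w / r - p = (w - r * p) / r := by field_simp
      rw [h6, norm_div, ofReal_norm' hr3.le, div_le_iff₀ hr3]
      exact hw1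
    have h7 := norm_add_le (w / r - p) (p - a)
    rw [sub_add_sub_cancel, hpa] at h7
    linarith)
  rw [hww] at h4
  have h5 : 0 ≤ H D w := by
    have := le_H hD h0 w
    simpa using this
  have h6 := Real.exp_le_exp.mp (hw2.trans h4)
  have h7 : κ * (c₁ * s) ≤ κ * x' := mul_le_mul_of_nonneg_left hx hκ.le
  have h8 : 0 < κ * c₁ * s := by positivity
  nlinarith

/-- the degenerate case of a one-point diagram -/
theorem zero_case {G : ℂ → ℂ} (hG : Differentiable ℂ G) (hUB : UB G {0}) {u : ℂ}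
    (hPL : ¬ PL G {0} u) : ∀ z, G z = 0 := by
  have hU : ∀ x : ℂ, x ∈ U₀ {0} := fun x => ⟨1, one_pos, by simp⟩
  obtain ⟨L, hLn, hL, hS⟩ := exists_filter hG isCompact_singleton (Set.singleton_nonempty 0) hUB
    (hU u) hPL
  obtain ⟨ρ, hρ, κ, hκ, hsm⟩ := hS 0 (hU 0)
  intro z
  have h1 : ∀ᶠ r : ℝ in L, ‖G z‖ ≤ Real.exp (-(κ * r)) := by
    filter_upwards [hsm, hL (eventually_ge_atTop (‖z‖ / ρ)), hL (eventually_gt_atTop 0)] with r
      hr1 hr2 hr3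
    have hrC : (r : ℂ) ≠ 0 := by exact_mod_cast hr3.ne'
    have h2 := hr1 (z / r) (by
      rw [sub_zero, norm_div, ofReal_norm' hr3.le, div_le_iff₀ hr3]
      rw [div_le_iff₀ hρ] at hr2
      linarith)
    rwa [show (r : ℂ) * (z / r) = z by field_simp] at h2
  have h2 : Tendsto (fun r : ℝ => Real.exp (-(κ * r))) L (𝓝 0) := by
    apply Tendsto.mono_left _ hL
    apply Real.tendsto_exp_atBot.comp
    apply tendsto_neg_atTop_atBot.comp
    exact tendsto_id.const_mul_atTop hκ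
  have h3 : ‖G z‖ ≤ 0 := ge_of_tendsto h2 h1
  exact norm_le_zero_iff.mp h3

end Pool.Agent.Helper960.Crg
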