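import Pool.Agent.Helper960.Crg.Lower

open Filter Topology Metric MeasureTheory

namespace Pool.Agent.Helper960.Crg

/-- The Borel transform `∑ n! aₙ w^{-n-1}` of `f z = ∑ aₙ zⁿ` (so `n! aₙ = f⁽ⁿ⁾(0)`). -/
noncomputable def borel (f : ℂ → ℂ) (w : ℂ) : ℂ := ∑' n, iteratedDeriv n f 0 / w ^ (n + 1)

lemma coefbound {f : ℂ → ℂ} (hf : Differentiable ℂ f) {A B b : ℝ}
    (hA : ∀ z, ‖f z‖ ≤ A * Real.exp (B * ‖z‖)) (hb : B < b) (hb0 : 0 < b) :
    ∃ C > 0, ∀ n, ‖iteratedDeriv n f 0‖ ≤ C * b ^ n := by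
  have hA0 : 0 ≤ A := by
    have := (norm_nonneg _).trans (hA 0)
    simpa using this
  have hba : 0 < b - B := by linarith
  refine ⟨(A + 1) * b / (b - B), by positivity, fun n => ?_⟩
  have h1 := int_trick (X := ‖iteratedDeriv n f 0‖) (Y := A + 1) (a := B) (b := b) (k := n)
    (norm_nonneg _) (by positivity) hb0 hb (by
      intro s hs
      have h2 := Complex.norm_iteratedDeriv_le_of_forall_mem_sphere_norm_le (c := 0) (R := s)
        (f := f) (C := (A + 1) * Real.exp (B * s)) n hs hf.diffContOnCl (by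
          intro w hw
          rw [mem_sphere, dist_eq_norm, sub_zero] at hw
          refine (hA w).trans ?_
          rw [hw]
          gcongr
          linarith)
      rw [le_div_iff₀ (by positivity)] at h2
      linarith)
  calc ‖iteratedDeriv n f 0‖ ≤ _ := h1
    _ = _ := by rw [pow_succ]; ring

lemma integral_pow_exp {s : ℝ} (hs : 0 < s) (k : ℕ) :
    ∫ t in Set.Ioi (0 : ℝ), t ^ k * Real.exp (-(s * t)) = k.factorial / s ^ (k + 1) := by
  have h1 := Real.integral_rpow_mul_exp_neg_mul_Ioi (a := (k : ℝ) + 1) (r := s)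
    (by positivity) hs
  rw [Real.Gamma_nat_eq_factorial] at h1
  have h2 : (1 / s) ^ ((k : ℝ) + 1) = 1 / s ^ (k + 1) := by
    rw [← Nat.cast_succ, Real.rpow_natCast, one_div, inv_pow, one_div]
  rw [h2] at h1
  rw [div_eq_mul_one_div, mul_comm, ← h1]
  apply setIntegral_congr_fun measurableSet_Ioi
  intro t ht
  simp only [add_sub_cancel_right, Real.rpow_natCast]

lemma integrable_pow_exp {s : ℝ} (hs : 0 < s) (k : ℕ) :
    IntegrableOn (fun t : ℝ => t ^ k * Real.exp (-(s * t))) (Set.Ioi 0) := by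
  have := integrableOn_rpow_mul_exp_neg_mul_rpow (s := (k : ℝ)) (p := 1) (b := s)
    (by linarith [(Nat.cast_nonneg k : (0 : ℝ) ≤ k)]) one_pos hs
  refine this.congr_fun (fun t ht => ?_) measurableSet_Ioi
  simp only [Real.rpow_natCast, Real.rpow_one, neg_mul]

/-- termwise Laplace transform on a ray -/
lemma laplace_ray {f : ℂ → ℂ} (hf : Differentiable ℂ f) {C b : ℝ} (hb0 : 0 < b)
    (hC : ∀ n, ‖iteratedDeriv n f 0‖ ≤ C * b ^ n) {u : ℂ} (hu : ‖u‖ = 1) {s : ℝ} (hs : b < s) :
    ∫ t in Set.Ioi (0 : ℝ), f (t * u) * Real.exp (-(s * t)) =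
      ∑' n, iteratedDeriv n f 0 * u ^ n / (s : ℂ) ^ (n + 1) := by
  have hs0 : 0 < s := hb0.trans hs
  have hC0 : 0 ≤ C := by
    have := (norm_nonneg _).trans (hC 0)
    simpa using this
  set F : ℕ → ℝ → ℂ := fun n t => ((n.factorial : ℂ)⁻¹ * (iteratedDeriv n f 0 * u ^ n)) *
    ((t ^ n * Real.exp (-(s * t)) : ℝ) : ℂ) with hF
  have hint : ∀ n, Integrable (F n) (volume.restrict (Set.Ioi 0)) := by
    intro n
    exact ((integrable_pow_exp hs0 n).ofReal).const_mul _
  have hnorm : ∀ n, ∫ t in Set.Ioi (0 : ℝ), ‖F n t‖ = ‖iteratedDeriv n f 0‖ / s ^ (n + 1) := by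
    intro n
    have h1 : ∀ t ∈ Set.Ioi (0 : ℝ), ‖F n t‖ = ((n.factorial : ℝ)⁻¹ * ‖iteratedDeriv n f 0‖) *
        (t ^ n * Real.exp (-(s * t))) := by
      intro t ht
      have ht' : (0 : ℝ) < t := ht
      simp only [hF]
      rw [norm_mul, norm_mul, norm_mul, norm_inv, norm_pow, hu, one_pow, mul_one,
        ofReal_norm' (by positivity), Complex.norm_natCast]
    rw [setIntegral_congr_fun measurableSet_Ioi h1, integral_const_mul, integral_pow_exp hs0]
    have : (n.factorial : ℝ) ≠ 0 := by exact_mod_cast n.factorial_ne_zero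
    field_simp
  have hsum : Summable (fun n => ∫ t in Set.Ioi (0 : ℝ), ‖F n t‖) := by
    simp only [hnorm]
    have hr : b / s < 1 := by rw [div_lt_one hs0]; exact hs
    have hgeo := (summable_geometric_of_lt_one (by positivity : (0 : ℝ) ≤ b / s) hr).mul_left
      (C / s)
    refine Summable.of_nonneg_of_le (fun n => by positivity) (fun n => ?_) hgeo
    calc ‖iteratedDeriv n f 0‖ / s ^ (n + 1) ≤ (C * b ^ n) / s ^ (n + 1) := by
          gcongr
          exact hC n
      _ = C / s * (b / s) ^ n := by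
        rw [div_pow, pow_succ]; field_simp
  have h1 := hasSum_integral_of_summable_integral_norm hint hsum
  have h2 : ∀ t ∈ Set.Ioi (0 : ℝ), ∑' n, F n t = f (t * u) * Real.exp (-(s * t)) := by
    intro t ht
    have h3 := Complex.hasSum_taylorSeries_of_entire hf 0 (t * u)
    have h4 := h3.mul_right (Real.exp (-(s * t)) : ℂ)
    rw [← h4.tsum_eq]
    congr 1
    funext n
    simp only [hF, sub_zero, smul_eq_mul, mul_pow]
    push_cast
    ring
  rw [setIntegral_congr_fun measurableSet_Ioi h2] at h1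
  rw [← h1.tsum_eq]
  congr 1
  funext n
  simp only [hF]
  rw [integral_const_mul, integral_complex_ofReal, integral_pow_exp hs0]
  have : (n.factorial : ℂ) ≠ 0 := by exact_mod_cast n.factorial_ne_zero
  push_cast
  field_simp

/-- the Laplace transform along the ray of direction `u` -/
noncomputable def lap (f : ℂ → ℂ) (u ζ : ℂ) : ℂ :=
  ∫ t in Set.Ioi (0 : ℝ), f (t * u) * Complex.exp (-(ζ * (t * u))) * u

lemma lap_hasDeriv {f : ℂ → ℂ} (hf : Differentiable ℂ f) {u ζ₀ : ℂ} (hu : ‖u‖ = 1) {C c : ℝ}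
    (hC : ∀ t : ℝ, 0 ≤ t → ‖f (t * u)‖ ≤ C * Real.exp (c * t)) (hc : c < (ζ₀ * u).re) :
    DifferentiableAt ℂ (lap f u) ζ₀ := by
  have hC0 : 0 ≤ C := by
    have := (norm_nonneg _).trans (hC 0 le_rfl)
    simpa using this
  set ε : ℝ := ((ζ₀ * u).re - c) / 2 with hε
  have hε0 : 0 < ε := by rw [hε]; linarith
  have hcont : ∀ ζ : ℂ, Continuous (fun t : ℝ => f (t * u) * Complex.exp (-(ζ * (t * u))) * u) := by
    intro ζ
    have h1 : Continuous (fun t : ℝ => (t : ℂ) * u) :=
      Complex.continuous_ofReal.mul continuous_const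
    exact ((hf.continuous.comp h1).mul
      (Complex.continuous_exp.comp ((continuous_const.mul h1).neg))).mul continuous_const
  have hcont' : ∀ ζ : ℂ, Continuous (fun t : ℝ =>
      f (t * u) * (Complex.exp (-(ζ * (t * u))) * (-(1 * (t * u)))) * u) := by
    intro ζ
    have h1 : Continuous (fun t : ℝ => (t : ℂ) * u) :=
      Complex.continuous_ofReal.mul continuous_const
    exact ((hf.continuous.comp h1).mul
      ((Complex.continuous_exp.comp ((continuous_const.mul h1).neg)).mul
        ((continuous_const.mul h1).neg))).mul continuous_const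
  have hexp : ∀ (ζ : ℂ) (t : ℝ), ‖Complex.exp (-(ζ * (t * u)))‖ = Real.exp (-(t * (ζ * u).re)) := by
    intro ζ t
    rw [Complex.norm_exp, Complex.neg_re,
      show ζ * ((t : ℂ) * u) = (t : ℂ) * (ζ * u) by ring, Complex.re_ofReal_mul]
  have hi1 : IntegrableOn (fun t : ℝ => C * Real.exp (-(ε * t))) (Set.Ioi 0) := by
    have := (integrable_pow_exp hε0 0).const_mul C
    simpa [IntegrableOn] using this
  have hi2 : IntegrableOn (fun t : ℝ => C * (t ^ 1 * Real.exp (-(ε * t)))) (Set.Ioi 0) :=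
    (integrable_pow_exp hε0 1).const_mul C
  have key := hasDerivAt_integral_of_dominated_loc_of_deriv_le
    (μ := volume.restrict (Set.Ioi (0 : ℝ)))
    (F := fun ζ t => f (t * u) * Complex.exp (-(ζ * (t * u))) * u)
    (F' := fun ζ t => f (t * u) * (Complex.exp (-(ζ * (t * u))) * (-(1 * (t * u)))) * u)
    (x₀ := ζ₀) (s := ball ζ₀ ε) (bound := fun t => C * (t ^ 1 * Real.exp (-(ε * t))))
    (ball_mem_nhds _ hε0)
    (Eventually.of_forall (fun ζ => (hcont ζ).aestronglyMeasurable))
    (by
      apply Integrable.mono' hi1 (hcont ζ₀).aestronglyMeasurable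
      rw [ae_restrict_iff' measurableSet_Ioi]
      apply Eventually.of_forall
      intro t ht
      have ht' : (0 : ℝ) < t := ht
      rw [norm_mul, norm_mul, hu, mul_one, hexp]
      calc ‖f (t * u)‖ * Real.exp (-(t * (ζ₀ * u).re)) ≤
            (C * Real.exp (c * t)) * Real.exp (-(t * (ζ₀ * u).re)) :=
            mul_le_mul_of_nonneg_right (hC t ht'.le) (Real.exp_pos _).le
        _ = C * Real.exp (c * t - t * (ζ₀ * u).re) := by
            rw [mul_assoc, ← Real.exp_add]; ring_nf
        _ ≤ _ := by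
            apply mul_le_mul_of_nonneg_left _ hC0
            apply Real.exp_le_exp.mpr
            nlinarith)
    (hcont' ζ₀).aestronglyMeasurable
    (by
      rw [ae_restrict_iff' measurableSet_Ioi]
      apply Eventually.of_forall
      intro t ht ζ hζ
      have ht' : (0 : ℝ) < t := ht
      rw [mem_ball, dist_eq_norm] at hζ
      rw [norm_mul, norm_mul, norm_mul, hu, mul_one, hexp, norm_neg, one_mul, norm_mul, hu,
        mul_one, ofReal_norm' ht'.le]
      have h1 : (ζ * u).re ≥ (ζ₀ * u).re - ε := by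
        have h2 : (ζ₀ * u).re - (ζ * u).re = -((ζ - ζ₀) * u).re := by
          rw [sub_mul, Complex.sub_re]; ring
        have h3 : -((ζ - ζ₀) * u).re ≤ ‖(ζ - ζ₀) * u‖ :=
          (neg_le_abs _).trans (Complex.abs_re_le_norm _)
        rw [norm_mul, hu, mul_one] at h3
        linarith
      calc ‖f (t * u)‖ * (Real.exp (-(t * (ζ * u).re)) * t) ≤
            (C * Real.exp (c * t)) * (Real.exp (-(t * (ζ * u).re)) * t) :=
            mul_le_mul_of_nonneg_right (hC t ht'.le) (by positivity)
        _ = C * (t ^ 1 * Real.exp (c * t - t * (ζ * u).re)) := by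
            rw [sub_eq_add_neg, Real.exp_add]; ring
        _ ≤ _ := by
            apply mul_le_mul_of_nonneg_left _ hC0
            apply mul_le_mul_of_nonneg_left _ (by positivity)
            apply Real.exp_le_exp.mpr
            nlinarith)
    hi2
    (by
      apply Eventually.of_forall
      intro t ζ hζ
      have h1 : HasDerivAt (fun ζ : ℂ => Complex.exp (-(ζ * (t * u))))
          (Complex.exp (-(ζ * (t * u))) * (-(1 * (t * u)))) ζ :=
        (((hasDerivAt_id ζ).mul_const ((t : ℂ) * u)).neg).cexp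
      exact (h1.const_mul (f (t * u))).mul_const u)
  exact key.2.differentiableAt

end Pool.Agent.Helper960.Crg
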