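import Pool.Agent.Helper960.Crg.Corner

open Filter Topology Metric

namespace Pool.Agent.Helper960.Crg

/-- `lam` is a corner of the compact convex set `D`: a common endpoint of two non-collinear
segments of the boundary; for a degenerate `D` (a segment) the two endpoints are corners. -/
def IsCorner (D : Set ℂ) (lam : ℂ) : Prop :=
  (∃ a b : ℂ, a ≠ lam ∧ b ≠ lam ∧ segment ℝ lam a ⊆ frontier D ∧ segment ℝ lam b ⊆ frontier D ∧
    ¬ Collinear ℝ {lam, a, b}) ∨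
  ∃ a : ℂ, a ≠ lam ∧ D = segment ℝ lam a

/-- translate of the diagram -/
def tr (D : Set ℂ) (lam : ℂ) : Set ℂ := (fun ζ => ζ - lam) '' D

lemma tr_compact {D : Set ℂ} (hD : IsCompact D) (lam : ℂ) : IsCompact (tr D lam) :=
  hD.image (continuous_id.sub continuous_const)

lemma tr_convex {D : Set ℂ} (hD : Convex ℝ D) (lam : ℂ) : Convex ℝ (tr D lam) := by
  rintro _ ⟨x, hx, rfl⟩ _ ⟨y, hy, rfl⟩ a b ha hb hab
  refine ⟨a • x + b • y, hD hx hy ha hb hab, ?_⟩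
  simp only [smul_sub]
  have : lam = a • lam + b • lam := by rw [← add_smul, hab, one_smul]
  nth_rewrite 1 [this]
  abel

lemma mem_tr {D : Set ℂ} {lam ζ : ℂ} : ζ ∈ tr D lam ↔ lam + ζ ∈ D := by
  constructor
  · rintro ⟨x, hx, rfl⟩
    simpa using hx
  · intro h
    exact ⟨lam + ζ, h, by simp⟩

lemma H_tr {D : Set ℂ} (hD : IsCompact D) (hne : D.Nonempty) (lam z : ℂ) :
    H (tr D lam) z = H D z - (lam * z).re := by
  apply le_antisymm
  · apply H_le (hne.image _)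
    rintro _ ⟨x, hx, rfl⟩
    have := le_H hD hx z
    simp only [sub_mul, Complex.sub_re]
    linarith
  · obtain ⟨ζ, hζ, h⟩ := exists_H hD hne z
    have := le_H (tr_compact hD lam) (⟨ζ, hζ, rfl⟩ : (ζ - lam) ∈ tr D lam) z
    rw [sub_mul, Complex.sub_re] at this
    linarith

lemma norm_tr (g : ℂ → ℂ) (lam z : ℂ) :
    ‖g z * Complex.exp (-(lam * z))‖ = ‖g z‖ * Real.exp (-(lam * z).re) := by
  rw [norm_mul, Complex.norm_exp, Complex.neg_re]

lemma UB_tr {g : ℂ → ℂ} {D : Set ℂ} (hD : IsCompact D) (hne : D.Nonempty) (h : UB g D) (lam : ℂ) :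
    UB (fun z => g z * Complex.exp (-(lam * z))) (tr D lam) := by
  intro ε hε
  obtain ⟨C, hC, hb⟩ := h ε hε
  refine ⟨C, hC, fun z => ?_⟩
  rw [norm_tr, H_tr hD hne]
  calc ‖g z‖ * Real.exp (-(lam * z).re) ≤ (C * Real.exp (H D z + ε * ‖z‖)) *
        Real.exp (-(lam * z).re) := mul_le_mul_of_nonneg_right (hb z) (Real.exp_pos _).le
    _ = _ := by rw [mul_assoc, ← Real.exp_add]; ring_nf

lemma PL_tr {g : ℂ → ℂ} {D : Set ℂ} (hD : IsCompact D) (hne : D.Nonempty) (lam u : ℂ) :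
    PL (fun z => g z * Complex.exp (-(lam * z))) (tr D lam) u ↔ PL g D u := by
  unfold PL
  have key : ∀ (w : ℂ) (η r : ℝ), Real.exp (H (tr D lam) w - η * r) ≤
      ‖g w * Complex.exp (-(lam * w))‖ ↔ Real.exp (H D w - η * r) ≤ ‖g w‖ := by
    intro w η r
    rw [norm_tr, H_tr hD hne]
    have : Real.exp (H D w - (lam * w).re - η * r) =
        Real.exp (H D w - η * r) * Real.exp (-(lam * w).re) := by
      rw [← Real.exp_add]; ring_nf
    rw [this]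
    exact mul_le_mul_iff_left₀ (Real.exp_pos _)
  simp only [key]

lemma re_conj_mul (ζ : ℂ) (t : ℝ) : (ζ * ((t : ℂ) * (starRingEnd ℂ) ζ)).re = t * ‖ζ‖ ^ 2 := by
  rw [show ζ * ((t : ℂ) * (starRingEnd ℂ) ζ) = (t : ℂ) * (ζ * (starRingEnd ℂ) ζ) by ring,
    Complex.re_ofReal_mul, Complex.mul_conj, Complex.ofReal_re, Complex.normSq_eq_norm_sq]

lemma U₀_of_ball {D : Set ℂ} {z : ℂ} {c : ℝ} (hc : 0 < c) (h : ∀ w : ℂ, ‖w - z‖ < c → w ∈ C₀ D) :
    z ∈ U₀ D := by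
  refine ⟨c / 2, by positivity, fun ζ hζ => ?_⟩
  rcases eq_or_ne ζ 0 with rfl | h0
  · simp
  have hn : 0 < ‖ζ‖ := norm_pos_iff.mpr h0
  have h1 := h (z + ((c / 2 / ‖ζ‖ : ℝ) : ℂ) * (starRingEnd ℂ) ζ) (by
    rw [add_sub_cancel_left, norm_mul, ofReal_norm' (by positivity), RCLike.norm_conj,
      div_mul_cancel₀ _ hn.ne']
    linarith) ζ hζ
  rw [mul_add, Complex.add_re, re_conj_mul] at h1
  have h2 : c / 2 / ‖ζ‖ * ‖ζ‖ ^ 2 = c / 2 * ‖ζ‖ := by field_simp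
  rw [h2] at h1
  exact h1

/-- the directions where the factor `z - lam` may be harmful -/
def Bad (D : Set ℂ) (lam : ℂ) : Set ℂ := {z | H D z = (lam * z).re}

lemma Bad_closed {D : Set ℂ} (hD : IsCompact D) (hne : D.Nonempty) (lam : ℂ) :
    IsClosed (Bad D lam) :=
  isClosed_eq (H_cont hD hne) (Complex.continuous_re.comp (continuous_const.mul continuous_id))

lemma Bad_C₀ {D : Set ℂ} (hD : IsCompact D) {lam z : ℂ} (h : z ∈ Bad D lam) :
    z ∈ C₀ (tr D lam) := by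
  rintro _ ⟨ζ, hζ, rfl⟩
  have h1 := le_H hD hζ z
  have h2 : H D z = (lam * z).re := h
  simp only [sub_mul, Complex.sub_re]
  linarith

lemma Bad_int_mem {D : Set ℂ} (hD : IsCompact D) (hne : D.Nonempty) {lam z : ℂ}
    (h : z ∈ interior (Bad D lam)) : lam ∈ D := by
  obtain ⟨e, he, hb⟩ := Metric.isOpen_iff.mp isOpen_interior z h
  obtain ⟨ζ, hζ, h1⟩ := exists_H hD hne z
  have h2' : z ∈ Bad D lam := interior_subset h
  have h2 : H D z = (lam * z).re := h2'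
  by_contra hcon
  have hne0 : ζ - lam ≠ 0 := by
    intro h3
    rw [sub_eq_zero] at h3
    exact hcon (h3 ▸ hζ)
  have hn : 0 < ‖ζ - lam‖ := norm_pos_iff.mpr hne0
  set w := z + ((e / 2 / ‖ζ - lam‖ : ℝ) : ℂ) * (starRingEnd ℂ) (ζ - lam) with hw
  have hwb : w ∈ Bad D lam := by
    apply interior_subset
    apply hb
    rw [mem_ball, dist_eq_norm, hw, add_sub_cancel_left, norm_mul, ofReal_norm' (by positivity),
      RCLike.norm_conj, div_mul_cancel₀ _ hn.ne']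
    linarith
  have h3 : H D w = (lam * w).re := hwb
  have h4 := le_H hD hζ w
  have h5 : ((ζ - lam) * w).re ≤ 0 := by
    rw [sub_mul, Complex.sub_re]; linarith
  have h6 : ((ζ - lam) * z).re = 0 := by
    rw [sub_mul, Complex.sub_re]; linarith
  rw [hw, mul_add, Complex.add_re, re_conj_mul, h6] at h5
  have : 0 < e / 2 / ‖ζ - lam‖ * ‖ζ - lam‖ ^ 2 := by positivity
  linarith

lemma Bad_int_U₀ {D : Set ℂ} (hD : IsCompact D) {lam z : ℂ}
    (h : z ∈ interior (Bad D lam)) : z ∈ U₀ (tr D lam) := by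
  obtain ⟨e, he, hb⟩ := Metric.isOpen_iff.mp isOpen_interior z h
  apply U₀_of_ball he
  intro w hw
  apply Bad_C₀ hD
  apply interior_subset
  apply hb
  rw [mem_ball, dist_eq_norm]
  exact hw

lemma dense_good {D : Set ℂ} (hD : IsCompact D) (hne : D.Nonempty) (l : List ℂ) :
    ∀ V : Set ℂ, IsOpen V → V.Nonempty →
      ∃ z ∈ V, (∀ a ∈ l, z ∉ Bad D a) ∨ ∃ a ∈ l, z ∈ interior (Bad D a) := by
  induction l with
  | nil =>
    rintro V - ⟨z, hz⟩
    exact ⟨z, hz, Or.inl (by simp)⟩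
  | cons a l ih =>
    intro V hV hVne
    by_cases h : V ⊆ Bad D a
    · obtain ⟨z, hz⟩ := hVne
      refine ⟨z, hz, Or.inr ⟨a, by simp, ?_⟩⟩
      exact interior_maximal h hV hz
    · obtain ⟨z, hz1, hz2⟩ := Set.not_subset.mp h
      obtain ⟨w, hw, hw'⟩ := ih (V ∩ (Bad D a)ᶜ) (hV.inter (Bad_closed hD hne a).isOpen_compl)
        ⟨z, hz1, hz2⟩
      refine ⟨w, hw.1, ?_⟩
      rcases hw' with hw' | ⟨b, hb, hb'⟩
      · left
        intro b hb
        rcases List.mem_cons.mp hb with rfl | hb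
        · exact hw.2
        · exact hw' b hb
      · right
        exact ⟨b, List.mem_cons_of_mem _ hb, hb'⟩

/-- the two kinds of corner -/
lemma corner_of_dirs {D : Set ℂ} (hD : IsCompact D) (hconv : Convex ℝ D) {lam : ℂ} (hlam : lam ∈ D)
    {ζ₁ ζ₂ z₁ z₂ : ℂ} (h1 : ζ₁ ∈ tr D lam) (h2 : ζ₂ ∈ tr D lam) (hz₁ : z₁ ≠ 0) (hz₂ : z₂ ≠ 0)
    (hs₁ : ∀ ζ ∈ tr D lam, (ζ * z₁).re ≤ 0) (hs₂ : ∀ ζ ∈ tr D lam, (ζ * z₂).re ≤ 0)
    (he₁ : (ζ₁ * z₁).re = 0) (he₂ : (ζ₂ * z₂).re = 0) (hζ₁ : ζ₁ ≠ 0) (hζ₂ : ζ₂ ≠ 0)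
    (hnc : ∀ t : ℝ, ζ₂ ≠ t * ζ₁) : IsCorner D lam := by
  have key : ∀ {ζ z : ℂ}, ζ ∈ tr D lam → z ≠ 0 → (∀ ζ ∈ tr D lam, (ζ * z).re ≤ 0) →
      (ζ * z).re = 0 → segment ℝ lam (lam + ζ) ⊆ frontier D := by
    intro ζ z hζ hz hs he x hx
    have hxD : x ∈ D := hconv.segment_subset hlam (mem_tr.mp hζ) hx
    rw [hD.isClosed.frontier_eq]
    refine ⟨hxD, fun hint => ?_⟩
    obtain ⟨e, he', hb⟩ := Metric.isOpen_iff.mp isOpen_interior x hint
    have hn : 0 < ‖z‖ := norm_pos_iff.mpr hz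
    rw [segment_eq_image] at hx
    obtain ⟨t, ht, rfl⟩ := hx
    have hx' : (1 - t) • lam + t • (lam + ζ) = lam + (t : ℂ) * ζ := by
      simp only [Complex.real_smul]; push_cast; ring
    simp only [hx'] at hb
    have h3 : lam + (t : ℂ) * ζ + ((e / 2 / ‖z‖ : ℝ) : ℂ) * (starRingEnd ℂ) z ∈ D := by
      apply interior_subset
      apply hb
      rw [mem_ball, dist_eq_norm, add_sub_cancel_left, norm_mul, ofReal_norm' (by positivity),
        RCLike.norm_conj, div_mul_cancel₀ _ hn.ne']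
      linarith
    have h4 := hs ((t : ℂ) * ζ + ((e / 2 / ‖z‖ : ℝ) : ℂ) * (starRingEnd ℂ) z) (by
      rw [mem_tr, ← add_assoc]; exact h3)
    have h5 : (((t : ℂ) * ζ + ((e / 2 / ‖z‖ : ℝ) : ℂ) * (starRingEnd ℂ) z) * z).re =
        t * (ζ * z).re + e / 2 / ‖z‖ * ‖z‖ ^ 2 := by
      have h6 := re_conj_mul z (e / 2 / ‖z‖)
      rw [mul_comm z] at h6
      rw [add_mul, Complex.add_re, mul_assoc, Complex.re_ofReal_mul, h6]
    rw [h5, he] at h4
    have : 0 < e / 2 / ‖z‖ * ‖z‖ ^ 2 := by positivity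
    linarith
  left
  refine ⟨lam + ζ₁, lam + ζ₂, by simpa using hζ₁, by simpa using hζ₂, key h1 hz₁ hs₁ he₁,
    key h2 hz₂ hs₂ he₂, ?_⟩
  intro hcol
  rw [collinear_iff_of_mem (p₀ := lam) (by simp)] at hcol
  obtain ⟨v, hv⟩ := hcol
  obtain ⟨r₁, hr₁⟩ := hv (lam + ζ₁) (by simp)
  obtain ⟨r₂, hr₂⟩ := hv (lam + ζ₂) (by simp)
  rw [vadd_eq_add, add_comm, add_left_inj, Complex.real_smul] at hr₁ hr₂
  have hr₁0 : (r₁ : ℂ) ≠ 0 := by
    intro h
    apply hζ₁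
    rw [hr₁, h, zero_mul]
  apply hnc (r₂ / r₁)
  rw [hr₁, hr₂]
  push_cast
  field_simp

end Pool.Agent.Helper960.Crg
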