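import Pool.Agent.Helper960.Crg.Low

open Filter Topology Metric

namespace Pool.Agent.Helper960.Crg

section lower

variable {f : ℂ → ℂ} {D : Set ℂ} {σ ρ : ℝ}

/-- the zero-free factor does not disturb the lower bounds -/
lemma PL_free (hf : Differentiable ℂ f) (hD : IsCompact D) (hne : D.Nonempty) (hUB : UB f D)
    (hPL : ∀ u, PL f D u)
    (hσ : ∀ ζ ∈ D, ‖ζ‖ ≤ σ) (hσρ : σ < ρ) {φ₁ : ℂ → ℂ} (hφ₁ : Differentiable ℂ φ₁)
    (h0 : ∀ z, ‖z‖ ≤ ρ → φ₁ z ≠ 0) (u : ℂ) : PL (T (coef φ₁) f) D u := by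
  have hσ0 : 0 ≤ σ := (norm_nonneg _).trans (hσ _ hne.some_mem)
  have hρ : 0 < ρ := by linarith
  have hdec : Dec (coef φ₁) ρ := Dec_coef hρ hφ₁.diffContOnCl
  obtain ⟨d, hd, hinv⟩ := T_inv hf hD hne hUB hσ hσρ hφ₁ h0
  have hF : Differentiable ℂ (T (coef φ₁) f) := T_diff hf hD hne hUB hσ hσρ hdec
  have hFU : UB (T (coef φ₁) f) D := T_UB hf hD hne hUB hσ hσρ hdec
  by_contra hcon
  obtain ⟨δ, hδ, η, hη, hbad⟩ := not_PL hcon
  obtain ⟨δ', hδ', η', hη', R₁, hR₁⟩ := T_local hF hD hne hFU hσ hσρ hd hδ hη u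
  obtain ⟨R₂, hR₂⟩ := hPL u δ' hδ' (η' / 2) (by positivity)
  obtain ⟨r, hr, hrb⟩ := hbad (max (max R₁ R₂) 1)
  have hr1 : 1 ≤ r := (le_max_right _ _).trans hr
  have hrR₁ : R₁ ≤ r := (le_max_left _ _).trans ((le_max_left _ _).trans hr)
  have hrR₂ : R₂ ≤ r := (le_max_right _ _).trans ((le_max_left _ _).trans hr)
  obtain ⟨w, hw1, hw2⟩ := hR₂ r hrR₂
  have h1 := hR₁ r hrR₁ (fun w hw => (hrb w hw).le) w hw1
  rw [hinv] at h1
  have h2 := Real.exp_le_exp.mp (hw2.trans h1)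
  nlinarith

/-- linear factors do not disturb the lower bounds in good directions -/
lemma PL_good (hf : Differentiable ℂ f) (hD : IsCompact D) (hne : D.Nonempty) (hUB : UB f D)
    (hσ : ∀ ζ ∈ D, ‖ζ‖ ≤ σ) (hσρ : σ < ρ) {φ₁ : ℂ → ℂ} (hφ₁ : Differentiable ℂ φ₁) (u : ℂ)
    (h1 : PL (T (coef φ₁) f) D u) (l : List ℂ) (hl : ∀ a ∈ l, u ∉ Bad D a) :
    PL (T (coef (fun z => lprod l z * φ₁ z)) f) D u := by
  have hσ0 : 0 ≤ σ := (norm_nonneg _).trans (hσ _ hne.some_mem)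
  have hρ : 0 < ρ := by linarith
  induction l with
  | nil =>
    have : (fun z => lprod [] z * φ₁ z) = φ₁ := by
      funext z; rw [lprod_nil, one_mul]
    rw [this]; exact h1
  | cons a l ih =>
    have ih' := ih (fun b hb => hl b (List.mem_cons_of_mem _ hb))
    set ψ : ℂ → ℂ := fun z => lprod l z * φ₁ z with hψ
    have hψd : Differentiable ℂ ψ := (lprod_diff l).mul hφ₁
    have hdec : Dec (coef ψ) ρ := Dec_coef hρ hψd.diffContOnCl
    have e1 : (fun z => lprod (a :: l) z * φ₁ z) = fun z => (z - a) * ψ z := by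
      funext z; rw [lprod_cons, hψ]; ring
    have e2 : T (coef (fun z => (z - a) * ψ z)) f =
        fun z => deriv (T (coef ψ) f) z - a * T (coef ψ) f z := by
      funext z
      exact T_factor hf hD hne hUB hσ hσρ hψd a z
    rw [e1, e2]
    exact PL_step (T_diff hf hD hne hUB hσ hσρ hdec) hD hne (T_UB hf hD hne hUB hσ hσρ hdec)
      (hl a (by simp)) ih'

end lower

theorem PL_main {f φ : ℂ → ℂ} {D : Set ℂ} (hf : Differentiable ℂ f) (hD : IsCompact D)
    (hconv : Convex ℝ D) (hne : D.Nonempty) (hUB : UB f D) (hPL : ∀ u, PL f D u)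
    (hφ : Differentiable ℂ φ) (hφ0 : ∃ z, φ z ≠ 0) (hcor : ∀ lam, IsCorner D lam → φ lam ≠ 0) :
    (∀ u, PL (T (coef φ) f) D u) ∨
      ∃ lam, D = {lam} ∧ φ lam = 0 ∧ ∀ z, T (coef φ) f z = 0 := by
  obtain ⟨σ, hσ⟩ := hD.isBounded.exists_norm_le
  have hσρ : σ < σ + 1 := by linarith
  have hσ0 : 0 ≤ σ := (norm_nonneg _).trans (hσ _ hne.some_mem)
  obtain ⟨l, φ₁, hφ₁, hfac, hfree⟩ := exists_factor' hφ hφ0 (σ + 1)
  have hdec : Dec (coef φ) (σ + 1) := Dec_coef (by linarith) hφ.diffContOnCl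
  set g := T (coef φ) f with hg
  have hgd : Differentiable ℂ g := T_diff hf hD hne hUB hσ hσρ hdec
  have hgU : UB g D := T_UB hf hD hne hUB hσ hσρ hdec
  have hgood : ∀ u, (∀ a ∈ l, u ∉ Bad D a) → PL g D u := by
    intro u hu
    have h1 := PL_good hf hD hne hUB hσ hσρ hφ₁ u
      (PL_free hf hD hne hUB hPL hσ hσρ hφ₁ hfree u) l hu
    have e : (fun z => lprod l z * φ₁ z) = φ := by
      funext z; exact (hfac z).symm
    rwa [e] at h1
  by_contra hcon
  push Not at hcon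
  obtain ⟨⟨u₀, hu₀⟩, hcon2⟩ := hcon
  have hVo : IsOpen {u : ℂ | ¬ PL g D u} := (PL_closed g D).isOpen_compl
  obtain ⟨u, hu1, hu2⟩ := dense_good hD hne l {u : ℂ | ¬ PL g D u} hVo ⟨u₀, hu₀⟩
  have hu1' : ¬ PL g D u := hu1
  rcases hu2 with hu2 | ⟨lam, hlam, hu2⟩
  · exact hu1' (hgood u hu2)
  have hlamD : lam ∈ D := Bad_int_mem hD hne hu2
  have hφlam : φ lam = 0 := by
    rw [hfac]
    have : lprod l lam = 0 := by
      unfold lprod
      apply List.prod_eq_zero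
      rw [List.mem_map]
      exact ⟨lam, hlam, sub_self _⟩
    rw [this, zero_mul]
  have hncor : ¬ IsCorner D lam := fun h => hcor lam h hφlam
  have h0 : (0 : ℂ) ∈ tr D lam := mem_tr.mpr (by simpa using hlamD)
  have hU := Bad_int_U₀ hD hu2
  have hDt := tr_compact hD lam
  have hct := tr_convex hconv lam
  have hGd : Differentiable ℂ (fun z => g z * Complex.exp (-(lam * z))) :=
    hgd.mul ((differentiable_id.const_mul lam).neg.cexp)
  have hGU := UB_tr hD hne hgU lam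
  by_cases hone : ∃ ζ ∈ tr D lam, ζ ≠ 0
  swap
  · push Not at hone
    have ht : tr D lam = {0} := by
      apply Set.Subset.antisymm
      · intro ζ hζ; exact hone ζ hζ
      · intro ζ hζ; rw [Set.mem_singleton_iff.mp hζ]; exact h0
    have hDl : D = {lam} := by
      apply Set.Subset.antisymm
      · intro ζ hζ
        have := hone (ζ - lam) ⟨ζ, hζ, rfl⟩
        rw [sub_eq_zero] at this
        exact this
      · intro ζ hζ; rw [Set.mem_singleton_iff.mp hζ]; exact hlamD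
    have hz := zero_case hGd (by rw [← ht]; exact hGU) (u := u) (by
      rw [← ht, PL_tr hD hne]; exact hu1')
    obtain ⟨z, hz'⟩ := hcon2 lam hDl hφlam
    apply hz'
    have := hz z
    exact (mul_eq_zero.mp this).resolve_right (Complex.exp_ne_zero _)
  rcases geo hDt hct h0 hone hU with ⟨p, hp1, hp2, a, R, hR, hpa, ha⟩ | h | h
  · -- the lower bound holds at `p`
    have hp : PL g D p := by
      by_contra hpcon
      have hfin : {b : ℂ | b ∈ l ∧ b ∈ D ∧ b ≠ lam}.Finite :=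
        (List.finite_toSet l).subset (fun b hb => hb.1)
      set W : Set ℂ := {z | ¬ PL g D z} ∩ ⋂ b ∈ {b : ℂ | b ∈ l ∧ b ∈ D ∧ b ≠ lam}, (Bad D b)ᶜ
        with hW
      have hWo : IsOpen W :=
        hVo.inter (hfin.isOpen_biInter (fun b _ => (Bad_closed hD hne b).isOpen_compl))
      have hpW : p ∈ W := by
        refine ⟨hpcon, ?_⟩
        rw [Set.mem_iInter₂]
        rintro b ⟨hbl, hbD, hbne⟩ hb
        have h1 : H D p = (b * p).re := hb
        have h2 := hp2 (b - lam) ⟨b, hbD, rfl⟩ (sub_ne_zero.mpr hbne)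
        rw [sub_mul, Complex.sub_re] at h2
        have h3 := le_H hD hlamD p
        linarith
      obtain ⟨z, hz1, hz2⟩ := mem_closure_iff.mp hp1 W hWo hpW
      obtain ⟨v, hv1, hv2⟩ := dense_good hD hne l (W ∩ (C₀ (tr D lam))ᶜ)
        (hWo.inter (C₀_closed _).isOpen_compl) ⟨z, hz1, hz2⟩
      rcases hv2 with hv2 | ⟨b, hb, hv2⟩
      · exact hv1.1.1 (hgood v hv2)
      · have hbD := Bad_int_mem hD hne hv2
        have hvb : v ∈ Bad D b := interior_subset hv2
        rcases eq_or_ne b lam with rfl | hbne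
        · exact hv1.2 (Bad_C₀ hD hvb)
        · have := Set.mem_iInter₂.mp hv1.1.2 b ⟨hb, hbD, hbne⟩
          exact this hvb
    have := hopf hGd hDt h0 hGU hR hpa ha ((PL_tr hD hne lam p).mpr hp) u hU
    rw [PL_tr hD hne] at this
    exact hu1' this
  · obtain ⟨ζ₁, h1, ζ₂, h2, z₁, z₂, hz₁, hz₂, hs₁, hs₂, he₁, he₂, hζ₁, hζ₂, hnc⟩ := h
    exact hncor (corner_of_dirs hD hconv hlamD h1 h2 hz₁ hz₂ hs₁ hs₂ he₁ he₂ hζ₁ hζ₂ hnc)
  · obtain ⟨b, hb, hseg⟩ := h
    apply hncor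
    right
    refine ⟨lam + b, by simpa using hb, ?_⟩
    ext x
    have h1 : x ∈ D ↔ x - lam ∈ tr D lam := by
      rw [mem_tr]; simp
    rw [h1, hseg, segment_eq_image, segment_eq_image]
    constructor
    · rintro ⟨t, ht, h2⟩
      refine ⟨t, ht, ?_⟩
      simp only [smul_zero, zero_add, Complex.real_smul] at h2 ⊢
      push_cast
      linear_combination h2
    · rintro ⟨t, ht, h2⟩
      refine ⟨t, ht, ?_⟩
      simp only [smul_zero, zero_add, Complex.real_smul] at h2 ⊢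
      rw [← h2]
      push_cast; ring

end Pool.Agent.Helper960.Crg
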