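import Pool.Agent.Helper960.Crg.Zero

open Filter Topology Metric

namespace Pool.Agent.Helper960.Crg

/-! ### Cartan's lemma (via Vitali covering) -/

lemma prod_lower {ι : Type} [DecidableEq ι] (d : ι → ℝ) (hd : ∀ i, 0 ≤ d i) {c : ℝ} (hc : 0 < c) :
    ∀ (n : ℕ) (s : Finset ι), s.card = n →
      (∀ t : ℝ, 0 < t → ((s.filter (fun i => d i ≤ t)).card : ℝ) ≤ c * t) →
      (n.factorial : ℝ) / c ^ n ≤ ∏ i ∈ s, d i := by
  intro n
  induction n with
  | zero =>
    intro s hs _
    rw [Finset.card_eq_zero] at hs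
    subst hs
    simp
  | succ n ih =>
    intro s hs hcnt
    have hne : s.Nonempty := by
      rw [← Finset.card_pos, hs]; omega
    obtain ⟨i₀, hi₀, hmax⟩ := s.exists_max_image d hne
    have hall : ∀ t : ℝ, d i₀ ≤ t → s.filter (fun i => d i ≤ t) = s := by
      intro t ht
      apply Finset.filter_true_of_mem
      intro i hi
      exact (hmax i hi).trans ht
    have hpos : ((n : ℝ) + 1) ≤ c * d i₀ := by
      by_contra hlt
      push Not at hlt
      -- choose t slightly bigger than d i₀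
      set t := d i₀ / 2 + ((n : ℝ) + 1) / (2 * c) with ht
      have h1 : c * t = c * d i₀ / 2 + ((n : ℝ) + 1) / 2 := by
        rw [ht]; field_simp
      have h2 : c * d i₀ < c * t := by rw [h1]; linarith
      have h3 : d i₀ < t := lt_of_mul_lt_mul_left h2 hc.le
      have h4 := hcnt t (lt_of_le_of_lt (hd i₀) h3)
      rw [hall t h3.le, hs] at h4
      push_cast at h4
      linarith
    have h5 := ih (s.erase i₀) (by rw [Finset.card_erase_of_mem hi₀, hs]; rfl) (by
      intro t ht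
      refine le_trans ?_ (hcnt t ht)
      exact_mod_cast Finset.card_le_card (Finset.filter_subset_filter _ (Finset.erase_subset _ _)))
    rw [← Finset.mul_prod_erase s d hi₀]
    calc ((n + 1).factorial : ℝ) / c ^ (n + 1) = (((n : ℝ) + 1) / c) * (n.factorial / c ^ n) := by
          rw [Nat.factorial_succ]; push_cast; field_simp; ring
      _ ≤ d i₀ * ∏ i ∈ s.erase i₀, d i := by
          apply mul_le_mul _ h5 (by positivity) (hd i₀)
          rw [div_le_iff₀ hc]; linarith

lemma pow_fact_bound (n : ℕ) : ((n : ℝ) / 3) ^ n ≤ n.factorial := by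
  have h1 : (n : ℝ) ^ n / n.factorial ≤ Real.exp n := Real.pow_div_factorial_le_exp _ (by positivity) n
  have h2 : Real.exp (n : ℝ) ≤ 3 ^ n := by
    rw [← Real.exp_one_pow]
    exact pow_le_pow_left₀ (Real.exp_pos _).le (by linarith [Real.exp_one_lt_d9]) n
  have hn : (0 : ℝ) < n.factorial := by exact_mod_cast n.factorial_pos
  rw [div_le_iff₀ hn] at h1
  rw [div_pow, div_le_iff₀ (by positivity)]
  calc (n : ℝ) ^ n ≤ Real.exp n * n.factorial := h1
    _ ≤ 3 ^ n * n.factorial := by gcongr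
    _ = n.factorial * 3 ^ n := by ring

lemma cartan (n : ℕ) (a : Fin n → ℂ) {h : ℝ} (hh : 0 < h) :
    ∃ S : Finset (ℂ × ℝ), (∀ p ∈ S, 0 < p.2) ∧ ∑ p ∈ S, p.2 ≤ 4 * h ∧
      ∀ z : ℂ, (∀ p ∈ S, z ∉ closedBall p.1 p.2) → (h / 3) ^ n ≤ ∏ i, ‖z - a i‖ := by
  classical
  rcases Nat.eq_zero_or_pos n with rfl | hn
  · refine ⟨∅, by simp, by simp; positivity, ?_⟩
    intro z _
    simp
  have hn' : (0 : ℝ) < n := by exact_mod_cast hn
  set cnt : ℂ → ℝ → Finset (Fin n) := fun z t => Finset.univ.filter (fun i => ‖z - a i‖ ≤ t) with hcnt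
  set t : Set (ℂ × ℝ) := {p | 0 < p.2 ∧ (n / h) * p.2 < (cnt p.1 p.2).card} with ht
  have hr : ∀ p ∈ t, p.2 ≤ h := by
    intro p hp
    have h1 : ((cnt p.1 p.2).card : ℝ) ≤ n := by
      have := Finset.card_le_univ (cnt p.1 p.2)
      rw [Fintype.card_fin] at this
      exact_mod_cast this
    have h2 : (n / h) * p.2 < n := lt_of_lt_of_le hp.2 h1
    rw [div_mul_eq_mul_div, div_lt_iff₀ hh] at h2
    exact (lt_of_mul_lt_mul_left h2 hn'.le).le
  obtain ⟨u, hut, hdisj, hcov⟩ := Vitali.exists_disjoint_subfamily_covering_enlargement_closedBall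
    t (fun p => p.1) (fun p => p.2) h hr 4 (by norm_num)
  have hmem : ∀ p ∈ u, ∃ i : Fin n, a i ∈ closedBall p.1 p.2 := by
    intro p hp
    have h1 := (hut hp).2
    have h2 : (0 : ℝ) < (cnt p.1 p.2).card := by
      have := (hut hp).1
      have h3 : 0 < (n / h) * p.2 := by positivity
      linarith
    have h3 : 0 < (cnt p.1 p.2).card := by exact_mod_cast h2
    obtain ⟨i, hi⟩ := Finset.card_pos.mp h3
    refine ⟨i, ?_⟩
    rw [hcnt, Finset.mem_filter] at hi
    rw [mem_closedBall, dist_eq_norm, norm_sub_rev]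
    exact hi.2
  have : Nonempty (Fin n) := ⟨⟨0, hn⟩⟩
  choose! g hg using hmem
  have hinj : Set.InjOn g u := by
    intro p hp q hq hpq
    by_contra hne
    have := hdisj hp hq hne
    rw [Function.onFun, Set.disjoint_left] at this
    apply this (hg p hp)
    rw [hpq]
    exact hg q hq
  have hfin : u.Finite := Set.Finite.of_finite_image (Set.toFinite _) hinj
  set U := hfin.toFinset with hU
  have hUmem : ∀ p, p ∈ U ↔ p ∈ u := fun p => hfin.mem_toFinset
  have hinj2 : Set.InjOn (fun p : ℂ × ℝ => (p.1, 4 * p.2)) (U : Set (ℂ × ℝ)) := by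
    rintro ⟨p1, p2⟩ _ ⟨q1, q2⟩ _ h
    simp only [Prod.mk.injEq] at h
    exact Prod.ext h.1 (by linarith [h.2])
  refine ⟨U.image (fun p => (p.1, 4 * p.2)), ?_, ?_, ?_⟩
  · intro p hp
    obtain ⟨q, hq, rfl⟩ := Finset.mem_image.mp hp
    have := (hut ((hUmem q).mp hq)).1
    show 0 < 4 * q.2
    linarith
  · rw [Finset.sum_image hinj2]
    show ∑ p ∈ U, 4 * p.2 ≤ 4 * h
    rw [← Finset.mul_sum]
    have h1 : ∑ p ∈ U, p.2 ≤ ∑ p ∈ U, (h / n) * (cnt p.1 p.2).card := by
      apply Finset.sum_le_sum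
      intro p hp
      have := (hut ((hUmem p).mp hp)).2
      rw [div_mul_eq_mul_div, div_lt_iff₀ hh] at this
      rw [div_mul_eq_mul_div, le_div_iff₀ hn']
      linarith
    have h2 : ∑ p ∈ U, (cnt p.1 p.2).card ≤ n := by
      rw [← Finset.card_biUnion]
      · have := Finset.card_le_univ (U.biUnion (fun p => cnt p.1 p.2))
        rwa [Fintype.card_fin] at this
      · intro p hp q hq hpq
        rw [Function.onFun, Finset.disjoint_left]
        intro i hi hi'
        have h3 := hdisj ((hUmem p).mp hp) ((hUmem q).mp hq) hpq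
        rw [Function.onFun, Set.disjoint_left] at h3
        rw [hcnt, Finset.mem_filter] at hi hi'
        apply h3 (a := a i)
        · rw [mem_closedBall, dist_eq_norm, norm_sub_rev]; exact hi.2
        · rw [mem_closedBall, dist_eq_norm, norm_sub_rev]; exact hi'.2
    have h3 : (∑ p ∈ U, ((cnt p.1 p.2).card : ℝ)) ≤ n := by exact_mod_cast h2
    rw [← Finset.mul_sum] at h1
    have h4 : (h / n) * ∑ p ∈ U, ((cnt p.1 p.2).card : ℝ) ≤ (h / n) * n := by gcongr
    have h5 : (h / n) * n = h := by field_simp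
    linarith
  · intro z hz
    have hgood : ∀ s : ℝ, 0 < s →
        ((Finset.univ.filter (fun i => ‖z - a i‖ ≤ s)).card : ℝ) ≤ (n / h) * s := by
      intro s hs
      by_contra hlt
      push Not at hlt
      have hzt : (z, s) ∈ t := ⟨hs, hlt⟩
      obtain ⟨b, hb, hsub⟩ := hcov (z, s) hzt
      apply hz (b.1, 4 * b.2) (Finset.mem_image.mpr ⟨b, (hUmem b).mpr hb, rfl⟩)
      exact hsub (mem_closedBall_self hs.le)
    have h1 := prod_lower (fun i => ‖z - a i‖) (fun i => norm_nonneg _) (c := n / h)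
      (by positivity) n Finset.univ (by simp) hgood
    refine le_trans ?_ h1
    rw [le_div_iff₀ (by positivity), ← mul_pow]
    have h2 : h / 3 * (n / h) = n / 3 := by field_simp
    rw [h2]
    exact pow_fact_bound n

/-! ### A holomorphic function without zeros is an exponential on a disc -/

lemma exists_log {ψ : ℂ → ℂ} (hψ : Differentiable ℂ ψ) {R : ℝ} (hR : 0 < R)
    (h0 : ∀ z ∈ ball (0 : ℂ) R, ψ z ≠ 0) :
    ∃ F : ℂ → ℂ, DifferentiableOn ℂ F (ball 0 R) ∧ ∀ z ∈ ball (0 : ℂ) R, ψ z = Complex.exp (F z) := by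
  have hd : DifferentiableOn ℂ (fun z => deriv ψ z / ψ z) (ball 0 R) := by
    intro z hz
    have h1 : DifferentiableAt ℂ (deriv ψ) z := by
      have := iteratedDeriv_diff hψ 1 z
      rwa [iteratedDeriv_one] at this
    exact (h1.div (hψ z) (h0 z hz)).differentiableWithinAt
  obtain ⟨g, hg⟩ := hd.isExactOn_ball
  have hconst : ∀ z ∈ ball (0 : ℂ) R, ψ z * Complex.exp (- g z) = ψ 0 * Complex.exp (- g 0) := by
    intro z hz
    have hder : ∀ w ∈ ball (0 : ℂ) R, HasDerivAt (fun w => ψ w * Complex.exp (- g w)) 0 w := by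
      intro w hw
      have h1 : HasDerivAt (fun w => ψ w * Complex.exp (- g w))
          (deriv ψ w * Complex.exp (-g w) + ψ w * (Complex.exp (-g w) * -(deriv ψ w / ψ w))) w :=
        (hψ w).hasDerivAt.mul ((hg w hw).neg.cexp)
      have h2 : deriv ψ w * Complex.exp (-g w) + ψ w * (Complex.exp (-g w) * -(deriv ψ w / ψ w)) = 0 := by
        have := h0 w hw
        field_simp
        ring
      rwa [h2] at h1
    exact isOpen_ball.is_const_of_deriv_eq_zero (convex_ball (0 : ℂ) R).isPreconnected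
      (fun w hw => (hder w hw).differentiableAt.differentiableWithinAt)
      (fun w hw => (hder w hw).deriv) hz (mem_ball_self hR)
  set c := Complex.log (ψ 0 * Complex.exp (- g 0)) with hc
  have hne : ψ 0 * Complex.exp (- g 0) ≠ 0 :=
    mul_ne_zero (h0 0 (mem_ball_self hR)) (Complex.exp_ne_zero _)
  refine ⟨fun z => g z + c, ?_, ?_⟩
  · intro z hz
    exact ((hg z hz).differentiableAt.add_const c).differentiableWithinAt
  · intro z hz
    have h1 := hconst z hz
    rw [Complex.exp_add, hc, Complex.exp_log hne, ← h1, mul_comm (ψ z), ← mul_assoc,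
      ← Complex.exp_add, add_neg_cancel, Complex.exp_zero, one_mul]

/-! ### Minimum modulus -/

/-- the reflected product -/
noncomputable def bprod (l : List ℂ) (z : ℂ) : ℂ :=
  (l.map (fun a => (16 - (starRingEnd ℂ) a * z) / 4)).prod

lemma bprod_nil (z : ℂ) : bprod [] z = 1 := by simp [bprod]

lemma bprod_cons (a : ℂ) (l : List ℂ) (z : ℂ) :
    bprod (a :: l) z = (16 - (starRingEnd ℂ) a * z) / 4 * bprod l z := by
  simp [bprod]

lemma bprod_diff (l : List ℂ) : Differentiable ℂ (bprod l) := by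
  induction l with
  | nil =>
    have : bprod [] = fun _ => (1 : ℂ) := by funext z; exact bprod_nil z
    rw [this]; exact differentiable_const _
  | cons a l ih =>
    have : bprod (a :: l) = fun z => (16 - (starRingEnd ℂ) a * z) / 4 * bprod l z := by
      funext z; exact bprod_cons a l z
    rw [this]
    exact (((differentiable_const _).sub (differentiable_id.const_mul _)).div_const _).mul ih

lemma bprod_circle (l : List ℂ) {z : ℂ} (hz : ‖z‖ = 4) : ‖bprod l z‖ = ‖lprod l z‖ := by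
  induction l with
  | nil => rw [bprod_nil, lprod_nil]
  | cons a l ih =>
    rw [bprod_cons, lprod_cons, norm_mul, norm_mul, ih]
    congr 1
    have h1 : (16 : ℂ) - (starRingEnd ℂ) a * z = (starRingEnd ℂ) (z - a) * z := by
      have h2 : (starRingEnd ℂ) z * z = 16 := by
        rw [mul_comm, Complex.mul_conj, Complex.normSq_eq_norm_sq, hz]
        norm_num
      rw [map_sub, sub_mul, h2]
    rw [h1, norm_div, norm_mul, RCLike.norm_conj, hz]
    norm_num

lemma bprod_zero (l : List ℂ) (hl : ∀ a ∈ l, ‖a‖ ≤ 3) : ‖lprod l 0‖ ≤ ‖bprod l 0‖ := by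
  induction l with
  | nil => rw [bprod_nil, lprod_nil]
  | cons a l ih =>
    have ih' := ih (fun b hb => hl b (List.mem_cons_of_mem _ hb))
    have ha := hl a List.mem_cons_self
    rw [bprod_cons, lprod_cons, norm_mul, norm_mul, zero_sub, norm_neg, mul_zero, sub_zero]
    have h3 : ‖(16 : ℂ) / 4‖ = 4 := by norm_num
    rw [h3]
    exact mul_le_mul (by linarith) ih' (norm_nonneg _) (by norm_num)

lemma bprod_ne_zero (l : List ℂ) (hl : ∀ a ∈ l, ‖a‖ ≤ 3) {z : ℂ} (hz : ‖z‖ ≤ 3) :
    bprod l z ≠ 0 := by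
  induction l with
  | nil => rw [bprod_nil]; exact one_ne_zero
  | cons a l ih =>
    have ih' := ih (fun b hb => hl b (List.mem_cons_of_mem _ hb))
    have ha := hl a List.mem_cons_self
    rw [bprod_cons]
    apply mul_ne_zero _ ih'
    apply div_ne_zero _ (by norm_num)
    intro h
    have h1 : (16 : ℂ) = (starRingEnd ℂ) a * z := sub_eq_zero.mp h
    have h2 : ‖(16 : ℂ)‖ = ‖a‖ * ‖z‖ := by rw [h1, norm_mul, RCLike.norm_conj]
    have h3 : ‖(16 : ℂ)‖ = 16 := by norm_num
    rw [h3] at h2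
    nlinarith [norm_nonneg a, norm_nonneg z]

lemma bprod_le (l : List ℂ) (hl : ∀ a ∈ l, ‖a‖ ≤ 3) {z : ℂ} (hz : ‖z‖ ≤ 2) :
    ‖bprod l z‖ ≤ 6 ^ l.length := by
  induction l with
  | nil => rw [bprod_nil]; simp
  | cons a l ih =>
    have ih' := ih (fun b hb => hl b (List.mem_cons_of_mem _ hb))
    have ha := hl a List.mem_cons_self
    rw [bprod_cons, norm_mul, List.length_cons, pow_succ, mul_comm]
    apply mul_le_mul ih' _ (norm_nonneg _) (by positivity)
    rw [norm_div]
    have h4 : ‖(4 : ℂ)‖ = 4 := by norm_num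
    rw [h4, div_le_iff₀ (by norm_num)]
    refine (norm_sub_le _ _).trans ?_
    rw [norm_mul, RCLike.norm_conj]
    have h3 : ‖(16 : ℂ)‖ = 16 := by norm_num
    rw [h3]
    nlinarith [norm_nonneg a, norm_nonneg z]

lemma min_mod {G : ℂ → ℂ} (hG : Differentiable ℂ G) {m : ℝ} (hm : 0 < m) (h0 : 1 ≤ ‖G 0‖)
    (hM : ∀ z, ‖z‖ ≤ 4 → ‖G z‖ ≤ Real.exp m) {κ : ℝ} (hκ : 0 < κ) (hκ1 : κ ≤ 1) :
    ∃ S : Finset (ℂ × ℝ), (∀ p ∈ S, 0 < p.2) ∧ ∑ p ∈ S, p.2 ≤ κ ∧
      ∀ z, ‖z‖ ≤ 2 → (∀ p ∈ S, z ∉ closedBall p.1 p.2) →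
        Real.exp (-((4 + 4 * Real.log (72 / κ)) * m)) ≤ ‖G z‖ := by
  have hG0 : G 0 ≠ 0 := by
    intro h; rw [h, norm_zero] at h0; linarith
  obtain ⟨l, G₂, hG₂, hl, hfac, hnz⟩ := exists_factor hG hG0
  have hn := zero_bound hG₂ l hl hfac (M := Real.exp m) (fun z hz => hM z hz.le)
  have hlen : (l.length : ℝ) ≤ 4 * m := by
    have h1 : (4 / 3 : ℝ) ^ l.length ≤ Real.exp m := by
      have : (4 / 3 : ℝ) ^ l.length * 1 ≤ (4 / 3 : ℝ) ^ l.length * ‖G 0‖ := by gcongr
      linarith
    have h2 := Real.log_le_log (by positivity) h1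
    rw [Real.log_pow, Real.log_exp] at h2
    have h3 : (1 / 4 : ℝ) ≤ Real.log (4 / 3) := by
      have := Real.one_sub_inv_le_log_of_pos (show (0 : ℝ) < 4 / 3 by norm_num)
      norm_num at this ⊢
      linarith
    have h4 : (0 : ℝ) ≤ l.length := by positivity
    nlinarith
  set ψ : ℂ → ℂ := fun z => bprod l z * G₂ z with hψ
  have hψd : Differentiable ℂ ψ := (bprod_diff l).mul hG₂
  have hψM : ∀ z, ‖z‖ ≤ 4 → ‖ψ z‖ ≤ Real.exp m := by
    have := max_princ hψd (z₀ := 0) (R := 4) (M := Real.exp m) (by norm_num) (by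
      intro z hz
      rw [sub_zero] at hz
      simp only [hψ]
      rw [norm_mul, bprod_circle l hz, ← norm_mul, ← hfac]
      exact hM z hz.le)
    intro z hz
    exact this z (by rwa [sub_zero])
  have hψ0 : 1 ≤ ‖ψ 0‖ := by
    simp only [hψ]
    rw [norm_mul]
    calc (1 : ℝ) ≤ ‖G 0‖ := h0
      _ = ‖lprod l 0‖ * ‖G₂ 0‖ := by rw [hfac 0, norm_mul]
      _ ≤ ‖bprod l 0‖ * ‖G₂ 0‖ := by
        gcongr
        exact bprod_zero l hl
  have hψnz : ∀ z ∈ ball (0 : ℂ) 3, ψ z ≠ 0 := by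
    intro z hz
    rw [mem_ball_zero_iff] at hz
    exact mul_ne_zero (bprod_ne_zero l hl hz.le) (hnz z hz.le)
  obtain ⟨F, hF, hFψ⟩ := exists_log hψd (by norm_num) hψnz
  have hlow : ∀ z, ‖z‖ ≤ 2 → Real.exp (-(4 * m)) ≤ ‖ψ z‖ := by
    intro z hz
    have hz3 : z ∈ ball (0 : ℂ) 3 := by rw [mem_ball_zero_iff]; linarith
    have h03 : (0 : ℂ) ∈ ball (0 : ℂ) 3 := mem_ball_self (by norm_num)
    have hre : ∀ w ∈ ball (0 : ℂ) 3, (F w).re = Real.log ‖ψ w‖ := by
      intro w hw
      rw [hFψ w hw, Complex.norm_exp, Real.log_exp]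
    have hF0 : 0 ≤ (F 0).re := by
      rw [hre 0 h03]
      exact Real.log_nonneg hψ0
    have h1 := Complex.borelCaratheodory_zero (f := fun w => F w - F 0) (M := m) (R := 3) (z := z)
      hm (hF.sub_const _) (by
        intro w hw
        show (F w - F 0).re ≤ m
        rw [Complex.sub_re, hre w hw]
        have h2 : Real.log ‖ψ w‖ ≤ m := by
          rw [Real.log_le_iff_le_exp (norm_pos_iff.mpr (hψnz w hw))]
          apply hψM
          rw [mem_ball_zero_iff] at hw
          linarith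
        linarith) (by norm_num) hz3 (by simp)
    have h3 : 2 * m * ‖z‖ / (3 - ‖z‖) ≤ 4 * m := by
      rw [div_le_iff₀ (by linarith)]
      nlinarith
    have h4 : -(4 * m) ≤ (F z).re := by
      have h5 := Complex.abs_re_le_norm (F z - F 0)
      have h6 := neg_abs_le (F z - F 0).re
      rw [Complex.sub_re] at h5 h6
      have h7 : ‖F z - F 0‖ ≤ 4 * m := h1.trans h3
      linarith
    rw [hFψ z hz3, Complex.norm_exp]
    exact Real.exp_le_exp.mpr h4
  obtain ⟨S, hS1, hS2, hS3⟩ := cartan l.length (fun i => l.get i) (h := κ / 4) (by positivity)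
  refine ⟨S, hS1, by linarith, ?_⟩
  intro z hz hzS
  have h5 := hS3 z hzS
  have h6 : ∏ i : Fin l.length, ‖z - l.get i‖ = ‖lprod l z‖ := by
    rw [← norm_prod]
    congr 1
    unfold lprod
    rw [← Fin.prod_univ_fun_getElem]
    rfl
  rw [h6] at h5
  have hb := bprod_le l hl hz
  have hb0 : 0 < ‖bprod l z‖ := norm_pos_iff.mpr (bprod_ne_zero l hl (by linarith))
  have h7 : ‖G z‖ = ‖ψ z‖ * ‖lprod l z‖ / ‖bprod l z‖ := by
    simp only [hψ]
    rw [hfac z, norm_mul, norm_mul]
    field_simp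
  rw [h7]
  have h8 : Real.exp (-(4 * m)) * (κ / 4 / 3) ^ l.length / 6 ^ l.length ≤
      ‖ψ z‖ * ‖lprod l z‖ / ‖bprod l z‖ := by
    apply div_le_div₀ (by positivity) _ hb0 hb
    exact mul_le_mul (hlow z hz) h5 (by positivity) (norm_nonneg _)
  refine le_trans ?_ h8
  rw [mul_div_assoc, ← div_pow]
  have h9 : κ / 4 / 3 / 6 = Real.exp (-(Real.log (72 / κ))) := by
    rw [Real.exp_neg, Real.exp_log (by positivity)]
    field_simp
    norm_num
  rw [h9, ← Real.exp_nat_mul, ← Real.exp_add]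
  apply Real.exp_le_exp.mpr
  have h10 : 0 ≤ Real.log (72 / κ) := by
    apply Real.log_nonneg
    rw [le_div_iff₀ hκ]; linarith
  nlinarith

end Pool.Agent.Helper960.Crg
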