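import Pool.Agent.Helper960.Crg.Basic

open Filter Topology Metric

namespace Pool.Agent.Helper960.Crg

/-- the operator with coefficients `c`, `T c f = ∑ c_k f^{(k)}` -/
noncomputable def T (c : ℕ → ℂ) (f : ℂ → ℂ) (z : ℂ) : ℂ := ∑' k, c k * iteratedDeriv k f z

/-- geometric decay of the coefficients -/
def Dec (c : ℕ → ℂ) (ρ : ℝ) : Prop := ∃ A > 0, ∀ k, ‖c k‖ * ρ ^ k ≤ A

lemma tendsto_mul_exp_neg {c : ℝ} (hc : 0 < c) :
    Tendsto (fun r : ℝ => r * Real.exp (-(c * r))) atTop (𝓝 0) := by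
  have h1 := (Real.tendsto_pow_mul_exp_neg_atTop_nhds_zero 1).comp
    (tendsto_id.const_mul_atTop hc)
  have h2 := h1.const_mul (1 / c)
  rw [mul_zero] at h2
  refine h2.congr (fun r => ?_)
  simp only [Function.comp, id, pow_one]
  field_simp

lemma ev_exp1 (A : ℝ) {c κ : ℝ} (hc : 0 < c) (hκ : 0 < κ) :
    ∀ᶠ r : ℝ in atTop, A * r * Real.exp (-(c * r)) ≤ κ := by
  have h := (tendsto_mul_exp_neg hc).const_mul A
  rw [mul_zero] at h
  filter_upwards [h.eventually_le_const hκ] with r hr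
  linarith

lemma ev_exp0 (A : ℝ) {c κ : ℝ} (hc : 0 < c) (hκ : 0 < κ) :
    ∀ᶠ r : ℝ in atTop, A * Real.exp (-(c * r)) ≤ κ := by
  filter_upwards [ev_exp1 |A| hc hκ, eventually_ge_atTop 1] with r hr h1
  have h2 : A * Real.exp (-(c * r)) ≤ |A| * Real.exp (-(c * r)) :=
    mul_le_mul_of_nonneg_right (le_abs_self A) (Real.exp_pos _).le
  have h3 : |A| * Real.exp (-(c * r)) ≤ |A| * r * Real.exp (-(c * r)) := by
    apply mul_le_mul_of_nonneg_right _ (Real.exp_pos _).le
    nlinarith [abs_nonneg A]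
  linarith

section op

variable {f : ℂ → ℂ} {D : Set ℂ} {σ ρ : ℝ} {c : ℕ → ℂ}
  (hf : Differentiable ℂ f) (hD : IsCompact D) (hne : D.Nonempty) (hUB : UB f D)
  (hσ : ∀ ζ ∈ D, ‖ζ‖ ≤ σ)

include hf hD hne hUB hσ

lemma term_bound (hσρ : σ < ρ) (hc : Dec c ρ) :
    ∃ q : ℝ, 0 < q ∧ q < 1 ∧ ∀ ε > 0, ∃ C > 0, ∀ (k : ℕ) (z : ℂ),
      ‖c k * iteratedDeriv k f z‖ ≤ C * q ^ k * Real.exp (H D z + ε * ‖z‖) := by
  have hσ0 : 0 ≤ σ := (norm_nonneg _).trans (hσ _ hne.some_mem)
  have hρ : 0 < ρ := by linarith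
  obtain ⟨A, hA, hcA⟩ := hc
  refine ⟨((σ + ρ) / 2) / ρ, by positivity, ?_, ?_⟩
  · rw [div_lt_one hρ]; linarith
  intro ε hε
  obtain ⟨C, hC, hC'⟩ := deriv_bound hf hD hne hUB hσ (b := (σ + ρ) / 2)
    (ε := min ε ((ρ - σ) / 4)) (lt_min hε (by linarith)) (by
      have := min_le_right ε ((ρ - σ) / 4)
      linarith)
  refine ⟨A * C, by positivity, ?_⟩
  intro k z
  rw [norm_mul]
  have h1 := hC' k z
  have h2 := hcA k
  have h3 : ‖c k‖ ≤ A / ρ ^ k := by rw [le_div_iff₀ (by positivity)]; exact h2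
  have h4 : Real.exp (H D z + min ε ((ρ - σ) / 4) * ‖z‖) ≤ Real.exp (H D z + ε * ‖z‖) := by
    apply Real.exp_le_exp.mpr
    have := mul_le_mul_of_nonneg_right (min_le_left ε ((ρ - σ) / 4)) (norm_nonneg z)
    linarith
  calc ‖c k‖ * ‖iteratedDeriv k f z‖
      ≤ (A / ρ ^ k) * (C * ((σ + ρ) / 2) ^ k * Real.exp (H D z + min ε ((ρ - σ) / 4) * ‖z‖)) := by
        gcongr
    _ ≤ (A / ρ ^ k) * (C * ((σ + ρ) / 2) ^ k * Real.exp (H D z + ε * ‖z‖)) := by
        gcongr
    _ = A * C * (((σ + ρ) / 2) / ρ) ^ k * Real.exp (H D z + ε * ‖z‖) := by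
        generalize (σ + ρ) / 2 = b
        generalize Real.exp (H D z + ε * ‖z‖) = E
        rw [div_pow b ρ k]
        ring

lemma summable_T (hσρ : σ < ρ) (hc : Dec c ρ) (z : ℂ) :
    Summable (fun k => c k * iteratedDeriv k f z) := by
  obtain ⟨q, hq0, hq1, h⟩ := term_bound hf hD hne hUB hσ hσρ hc
  obtain ⟨C, hC, hC'⟩ := h 1 one_pos
  refine Summable.of_norm_bounded (g := fun k => (C * Real.exp (H D z + 1 * ‖z‖)) * q ^ k)
    ((summable_geometric_of_lt_one hq0.le hq1).mul_left _) (fun k => ?_)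
  refine (hC' k z).trans (le_of_eq (by ring))

lemma T_UB (hσρ : σ < ρ) (hc : Dec c ρ) : UB (T c f) D := by
  obtain ⟨q, hq0, hq1, h⟩ := term_bound hf hD hne hUB hσ hσρ hc
  intro ε hε
  obtain ⟨C, hC, hC'⟩ := h ε hε
  have hq : 0 < 1 - q := by linarith
  refine ⟨C / (1 - q), by positivity, ?_⟩
  intro z
  have hs : Summable (fun k : ℕ => (C * Real.exp (H D z + ε * ‖z‖)) * q ^ k) :=
    (summable_geometric_of_lt_one hq0.le hq1).mul_left _
  have h1 : ‖T c f z‖ ≤ ∑' k : ℕ, (C * Real.exp (H D z + ε * ‖z‖)) * q ^ k := by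
    apply tsum_of_norm_bounded hs.hasSum
    intro k
    exact (hC' k z).trans (le_of_eq (by ring))
  rw [tsum_mul_left, tsum_geometric_of_lt_one hq0.le hq1] at h1
  calc ‖T c f z‖ ≤ _ := h1
    _ = C / (1 - q) * Real.exp (H D z + ε * ‖z‖) := by field_simp

lemma UB_deriv : UB (deriv f) D := by
  intro ε hε
  obtain ⟨C, hC, hC'⟩ := deriv_bound hf hD hne hUB hσ (b := σ + ε + 1) (ε := ε) hε (by linarith)
  have hσ0 : 0 ≤ σ := (norm_nonneg _).trans (hσ _ hne.some_mem)
  refine ⟨C * (σ + ε + 1), by positivity, fun z => ?_⟩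
  have := hC' 1 z
  rwa [iteratedDeriv_one, pow_one] at this

end op

lemma iteratedDeriv_diff {f : ℂ → ℂ} (hf : Differentiable ℂ f) (k : ℕ) :
    Differentiable ℂ (iteratedDeriv k f) := by
  have h : ContDiff ℂ ⊤ f := hf.contDiff
  exact (h.differentiable_iteratedDeriv k (by exact_mod_cast WithTop.coe_lt_top (k : ℕ∞)))

lemma T_hasDerivAt {f : ℂ → ℂ} {D : Set ℂ} {σ ρ : ℝ} {c : ℕ → ℂ}
    (hf : Differentiable ℂ f) (hD : IsCompact D) (hne : D.Nonempty) (hUB : UB f D)
    (hσ : ∀ ζ ∈ D, ‖ζ‖ ≤ σ) (hσρ : σ < ρ) (hc : Dec c ρ) (z : ℂ) :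
    HasDerivAt (T c f) (T c (deriv f) z) z := by
  have hf' : Differentiable ℂ (deriv f) := by
    have := iteratedDeriv_diff hf 1
    rwa [iteratedDeriv_one] at this
  have hUB' := UB_deriv hf hD hne hUB hσ
  obtain ⟨q, hq0, hq1, h⟩ := term_bound hf' hD hne hUB' hσ hσρ hc
  obtain ⟨C, hC, hC'⟩ := h 1 one_pos
  have hσ0 : 0 ≤ σ := (norm_nonneg _).trans (hσ _ hne.some_mem)
  set B := C * Real.exp ((σ + 1) * (‖z‖ + 1)) with hB
  have hs : Summable (fun k : ℕ => B * q ^ k) :=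
    (summable_geometric_of_lt_one hq0.le hq1).mul_left _
  have hz : z ∈ ball z 1 := mem_ball_self one_pos
  have key := hasDerivAt_tsum_of_isPreconnected (𝕜 := ℂ)
    (g := fun k w => c k * iteratedDeriv k f w)
    (g' := fun k w => c k * iteratedDeriv k (deriv f) w) (t := ball z 1) (y₀ := z) (y := z)
    hs isOpen_ball (convex_ball z 1).isPreconnected
    (fun k w _ => by
      have h1 : HasDerivAt (iteratedDeriv k f) (iteratedDeriv k (deriv f) w) w := by
        rw [← iteratedDeriv_succ', iteratedDeriv_succ]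
        exact (iteratedDeriv_diff hf k w).hasDerivAt
      exact h1.const_mul (c k))
    (fun k w hw => by
      refine (hC' k w).trans ?_
      have h2 : ‖w‖ ≤ ‖z‖ + 1 := by
        rw [mem_ball, dist_eq_norm] at hw
        have := norm_add_le (w - z) z
        rw [sub_add_cancel] at this
        linarith
      have h3 : Real.exp (H D w + 1 * ‖w‖) ≤ Real.exp ((σ + 1) * (‖z‖ + 1)) := by
        apply Real.exp_le_exp.mpr
        have := H_le_norm hne hσ w
        nlinarith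
      calc C * q ^ k * Real.exp (H D w + 1 * ‖w‖) ≤
          C * q ^ k * Real.exp ((σ + 1) * (‖z‖ + 1)) := by gcongr
        _ = B * q ^ k := by rw [hB]; ring)
    hz (summable_T hf hD hne hUB hσ hσρ hc z) hz
  exact key

section op2

variable {f : ℂ → ℂ} {D : Set ℂ} {σ ρ : ℝ} {c d : ℕ → ℂ}
  (hf : Differentiable ℂ f) (hD : IsCompact D) (hne : D.Nonempty) (hUB : UB f D)
  (hσ : ∀ ζ ∈ D, ‖ζ‖ ≤ σ) (hσρ : σ < ρ)

include hf hD hne hUB hσ hσρ

lemma T_diff (hc : Dec c ρ) : Differentiable ℂ (T c f) :=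
  fun z => (T_hasDerivAt hf hD hne hUB hσ hσρ hc z).differentiableAt

omit hσρ in
lemma UB_iter (k : ℕ) : UB (iteratedDeriv k f) D := by
  induction k with
  | zero => rwa [iteratedDeriv_zero]
  | succ k ih =>
    rw [iteratedDeriv_succ]
    exact UB_deriv (iteratedDeriv_diff hf k) hD hne ih hσ

lemma T_iter (hc : Dec c ρ) (j : ℕ) : iteratedDeriv j (T c f) = T c (iteratedDeriv j f) := by
  induction j with
  | zero => rw [iteratedDeriv_zero, iteratedDeriv_zero]
  | succ j ih =>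
    rw [iteratedDeriv_succ, ih]
    funext z
    rw [(T_hasDerivAt (iteratedDeriv_diff hf j) hD hne (UB_iter hf hD hne hUB hσ j) hσ hσρ hc
      z).deriv, iteratedDeriv_succ]

lemma T_comp (hc : Dec c ρ) (hd : Dec d ρ) (z : ℂ) :
    T c (T d f) z = T (fun n => ∑ p ∈ Finset.HasAntidiagonal.antidiagonal n, c p.1 * d p.2) f z := by
  have hσ0 : 0 ≤ σ := (norm_nonneg _).trans (hσ _ hne.some_mem)
  have hρ : 0 < ρ := by linarith
  set F : ℕ × ℕ → ℂ := fun p => c p.1 * (d p.2 * iteratedDeriv (p.1 + p.2) f z) with hF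
  obtain ⟨C, hC, hC'⟩ := deriv_bound hf hD hne hUB hσ (b := (σ + ρ) / 2)
    (ε := (ρ - σ) / 4) (by linarith) (by linarith)
  obtain ⟨A, hA, hcA⟩ := hc
  obtain ⟨A', hA', hdA⟩ := hd
  set q := ((σ + ρ) / 2) / ρ with hq
  have hq0 : 0 < q := by positivity
  have hq1 : q < 1 := by rw [hq, div_lt_one hρ]; linarith
  have hFs : Summable F := by
    have h1 : Summable (fun p : ℕ × ℕ => (A * q ^ p.1) *
        (A' * C * Real.exp (H D z + (ρ - σ) / 4 * ‖z‖) * q ^ p.2)) :=
      Summable.mul_of_nonneg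
        ((summable_geometric_of_lt_one hq0.le hq1).mul_left _)
        ((summable_geometric_of_lt_one hq0.le hq1).mul_left _)
        (fun n => by positivity) (fun n => by positivity)
    refine Summable.of_norm_bounded h1 ?_
    rintro ⟨k, j⟩
    simp only [hF, norm_mul]
    have h3 : ‖c k‖ ≤ A / ρ ^ k := by rw [le_div_iff₀ (by positivity)]; exact hcA k
    have h4 : ‖d j‖ ≤ A' / ρ ^ j := by rw [le_div_iff₀ (by positivity)]; exact hdA j
    calc ‖c k‖ * (‖d j‖ * ‖iteratedDeriv (k + j) f z‖)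
        ≤ (A / ρ ^ k) * ((A' / ρ ^ j) * (C * ((σ + ρ) / 2) ^ (k + j) *
          Real.exp (H D z + (ρ - σ) / 4 * ‖z‖))) := by
          gcongr
          exact hC' (k + j) z
      _ = (A * q ^ k) * (A' * C * Real.exp (H D z + (ρ - σ) / 4 * ‖z‖) * q ^ j) := by
          rw [hq]
          generalize (σ + ρ) / 2 = b
          generalize Real.exp (H D z + (ρ - σ) / 4 * ‖z‖) = E
          rw [div_pow b ρ k, div_pow b ρ j, pow_add]; ring
  have e1 : T c (T d f) z = ∑' k, ∑' j, F (k, j) := by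
    unfold T
    congr 1
    funext k
    have h5 := congrFun (T_iter hf hD hne hUB hσ hσρ ⟨A', hA', hdA⟩ k) z
    unfold T at h5
    rw [h5, ← tsum_mul_left]
    congr 1
    funext j
    simp only [hF]
    congr 2
    rw [iteratedDeriv_eq_iterate, iteratedDeriv_eq_iterate, iteratedDeriv_eq_iterate,
      ← Function.iterate_add_apply, add_comm]
  rw [e1, ← hFs.tsum_prod, ← (Finset.HasAntidiagonal.sigmaAntidiagonalEquivProd).tsum_eq F]
  have h6 : Summable (fun x : (Σ n : ℕ, Finset.HasAntidiagonal.antidiagonal n) =>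
      F (Finset.HasAntidiagonal.sigmaAntidiagonalEquivProd x)) :=
    (Finset.HasAntidiagonal.sigmaAntidiagonalEquivProd.summable_iff (f := F)).mpr hFs
  rw [h6.tsum_sigma]
  unfold T
  congr 1
  funext n
  rw [tsum_fintype, Finset.sum_mul]
  rw [← Finset.sum_coe_sort (Finset.HasAntidiagonal.antidiagonal n)]
  apply Finset.sum_congr rfl
  rintro ⟨⟨a, b⟩, hab⟩ _
  rw [Finset.HasAntidiagonal.mem_antidiagonal] at hab
  simp only [hF]
  show c a * (d b * iteratedDeriv (a + b) f z) = c a * d b * iteratedDeriv n f z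
  rw [hab]; ring

end op2

/-- locality of the operator: exponential smallness is inherited -/
lemma T_local {f : ℂ → ℂ} {D : Set ℂ} {σ ρ : ℝ} {c : ℕ → ℂ}
    (hf : Differentiable ℂ f) (hD : IsCompact D) (hne : D.Nonempty) (hUB : UB f D)
    (hσ : ∀ ζ ∈ D, ‖ζ‖ ≤ σ) (hσρ : σ < ρ) (hc : Dec c ρ) {δ η : ℝ} (hδ : 0 < δ) (hη : 0 < η)
    (u : ℂ) :
    ∃ δ' > 0, ∃ η' > 0, ∃ R : ℝ, ∀ r ≥ R,
      (∀ w : ℂ, ‖w - r * u‖ ≤ δ * r → ‖f w‖ ≤ Real.exp (H D w - η * r)) →
      ∀ w : ℂ, ‖w - r * u‖ ≤ δ' * r → ‖T c f w‖ ≤ Real.exp (H D w - η' * r) := by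
  have hσ0 : 0 ≤ σ := (norm_nonneg _).trans (hσ _ hne.some_mem)
  have hρ : 0 < ρ := by linarith
  obtain ⟨q, hq0, hq1, htb⟩ := term_bound hf hD hne hUB hσ hσρ hc
  obtain ⟨A, hA, hcA⟩ := hc
  set δ₁ := min (δ / 2) (η / (2 * (σ + 1))) with hδ₁
  have hδ₁0 : 0 < δ₁ := lt_min (by positivity) (by positivity)
  have hδ₁a : δ₁ ≤ δ / 2 := min_le_left _ _
  have hδ₁b : σ * δ₁ ≤ η / 2 := by
    have h1 : δ₁ ≤ η / (2 * (σ + 1)) := min_le_right _ _
    rw [le_div_iff₀ (by positivity)] at h1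
    nlinarith
  set κ := ρ * δ₁ with hκ
  have hκ0 : 0 < κ := by positivity
  set L := -Real.log q with hL
  have hL0 : 0 < L := by rw [hL]; linarith [Real.log_neg hq0 hq1]
  set ε := κ * L / (2 * (‖u‖ + δ)) with hε
  have hud : 0 < ‖u‖ + δ := by positivity
  have hε0 : 0 < ε := by positivity
  obtain ⟨C, hC, hC'⟩ := htb ε hε0
  have hq1' : 0 < 1 - q := by linarith
  set η' := min (η / 4) (κ * L / 4) with hη'
  have hη'0 : 0 < η' := lt_min (by positivity) (by positivity)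
  refine ⟨δ / 2, by positivity, η', hη'0, ?_⟩
  have ev : ∀ᶠ r : ℝ in atTop, A * κ * r * Real.exp (-(η / 4 * r)) ≤ 1 / 2 ∧
      C / (q * (1 - q)) * Real.exp (-(κ * L / 4 * r)) ≤ 1 / 2 :=
    (ev_exp1 (A * κ) (by positivity) (by norm_num)).and
      (ev_exp0 (C / (q * (1 - q))) (by positivity) (by norm_num))
  obtain ⟨R, hR⟩ := eventually_atTop.mp (ev.and (eventually_gt_atTop 0))
  refine ⟨R, fun r hr hsmall w hw => ?_⟩
  obtain ⟨⟨hr1, hr2⟩, hr0⟩ := hR r hr
  -- derivative bounds near `w`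
  have hder : ∀ k : ℕ, ‖iteratedDeriv k f w‖ ≤
      k.factorial * Real.exp (H D w - η / 2 * r) / (δ₁ * r) ^ k := by
    intro k
    apply Complex.norm_iteratedDeriv_le_of_forall_mem_sphere_norm_le k (by positivity)
      hf.diffContOnCl
    intro x hx
    rw [mem_sphere, dist_eq_norm] at hx
    have h1 : ‖x - r * u‖ ≤ δ * r := by
      calc ‖x - r * u‖ = ‖(x - w) + (w - r * u)‖ := by ring_nf
        _ ≤ ‖x - w‖ + ‖w - r * u‖ := norm_add_le _ _
        _ ≤ δ₁ * r + δ / 2 * r := by rw [hx]; gcongr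
        _ ≤ δ * r := by nlinarith
    refine (hsmall x h1).trans ?_
    apply Real.exp_le_exp.mpr
    have h2 := H_lip hD hne hσ x w
    rw [hx] at h2
    nlinarith
  set K := ⌊κ * r⌋₊ with hK
  have hKle : (K : ℝ) ≤ κ * r := Nat.floor_le (by positivity)
  have hKge : κ * r < K + 1 := Nat.lt_floor_add_one _
  have hsum : Summable (fun k => c k * iteratedDeriv k f w) :=
    summable_T hf hD hne hUB hσ hσρ ⟨A, hA, hcA⟩ w
  have hsplit : T c f w = ∑ k ∈ Finset.range K, c k * iteratedDeriv k f w +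
      ∑' k, c (k + K) * iteratedDeriv (k + K) f w := (hsum.sum_add_tsum_nat_add K).symm
  have hwn : ‖w‖ ≤ (‖u‖ + δ) * r := by
    calc ‖w‖ = ‖(w - r * u) + r * u‖ := by ring_nf
      _ ≤ ‖w - r * u‖ + ‖(r : ℂ) * u‖ := norm_add_le _ _
      _ ≤ δ / 2 * r + r * ‖u‖ := by
        rw [norm_mul, Complex.norm_real, Real.norm_eq_abs, abs_of_pos hr0]
        gcongr
      _ ≤ (‖u‖ + δ) * r := by nlinarith
  -- first part
  have hfirst : ‖∑ k ∈ Finset.range K, c k * iteratedDeriv k f w‖ ≤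
      A * κ * r * Real.exp (H D w - η / 2 * r) := by
    calc ‖∑ k ∈ Finset.range K, c k * iteratedDeriv k f w‖
        ≤ ∑ k ∈ Finset.range K, ‖c k * iteratedDeriv k f w‖ := norm_sum_le _ _
      _ ≤ ∑ k ∈ Finset.range K, A * Real.exp (H D w - η / 2 * r) := by
          apply Finset.sum_le_sum
          intro k hk
          rw [Finset.mem_range] at hk
          rw [norm_mul]
          have h3 : ‖c k‖ ≤ A / ρ ^ k := by rw [le_div_iff₀ (by positivity)]; exact hcA k
          have h4 : (k.factorial : ℝ) ≤ (κ * r) ^ k := by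
            calc (k.factorial : ℝ) ≤ (k : ℝ) ^ k := by exact_mod_cast Nat.factorial_le_pow k
              _ ≤ (κ * r) ^ k := by
                apply pow_le_pow_left₀ (by positivity)
                have : (k : ℝ) ≤ K := by exact_mod_cast hk.le
                linarith
          calc ‖c k‖ * ‖iteratedDeriv k f w‖
              ≤ (A / ρ ^ k) * (k.factorial * Real.exp (H D w - η / 2 * r) / (δ₁ * r) ^ k) := by
                gcongr
                exact hder k
            _ ≤ (A / ρ ^ k) * ((κ * r) ^ k * Real.exp (H D w - η / 2 * r) / (δ₁ * r) ^ k) := by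
                gcongr
            _ = A * Real.exp (H D w - η / 2 * r) := by
                rw [hκ, mul_pow, mul_pow, mul_pow]
                field_simp
      _ = K * (A * Real.exp (H D w - η / 2 * r)) := by
          rw [Finset.sum_const, Finset.card_range, nsmul_eq_mul]
      _ ≤ (κ * r) * (A * Real.exp (H D w - η / 2 * r)) := by gcongr
      _ = _ := by ring
  -- second part
  have hsecond : ‖∑' k, c (k + K) * iteratedDeriv (k + K) f w‖ ≤
      C / (q * (1 - q)) * Real.exp (H D w - κ * L / 2 * r) := by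
    have hs : Summable (fun k : ℕ => (C * q ^ K * Real.exp (H D w + ε * ‖w‖)) * q ^ k) :=
      (summable_geometric_of_lt_one hq0.le hq1).mul_left _
    have h1 : ‖∑' k, c (k + K) * iteratedDeriv (k + K) f w‖ ≤
        ∑' k : ℕ, (C * q ^ K * Real.exp (H D w + ε * ‖w‖)) * q ^ k := by
      apply tsum_of_norm_bounded hs.hasSum
      intro k
      refine (hC' (k + K) w).trans (le_of_eq ?_)
      rw [pow_add]; ring
    rw [tsum_mul_left, tsum_geometric_of_lt_one hq0.le hq1] at h1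
    have h2 : q ^ K * q ≤ Real.exp (-(κ * L * r)) := by
      rw [← pow_succ]
      have h3 : q ^ (K + 1) = Real.exp (-(L * (K + 1))) := by
        rw [hL, neg_mul, neg_neg, mul_comm, ← Nat.cast_succ, Real.exp_nat_mul,
          Real.exp_log hq0]
      rw [h3]
      apply Real.exp_le_exp.mpr
      nlinarith
    have h4 : ε * ‖w‖ ≤ κ * L / 2 * r := by
      calc ε * ‖w‖ ≤ ε * ((‖u‖ + δ) * r) := by gcongr
        _ = κ * L / 2 * r := by rw [hε]; field_simp
    calc ‖∑' k, c (k + K) * iteratedDeriv (k + K) f w‖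
        ≤ C * q ^ K * Real.exp (H D w + ε * ‖w‖) * (1 - q)⁻¹ := h1
      _ = C / (q * (1 - q)) * ((q ^ K * q) * Real.exp (H D w + ε * ‖w‖)) := by
          field_simp
      _ ≤ C / (q * (1 - q)) * (Real.exp (-(κ * L * r)) * Real.exp (H D w + κ * L / 2 * r)) := by
          gcongr
      _ = C / (q * (1 - q)) * Real.exp (H D w - κ * L / 2 * r) := by
          rw [← Real.exp_add]; ring_nf
  have hfin1 : A * κ * r * Real.exp (H D w - η / 2 * r) ≤ 1 / 2 * Real.exp (H D w - η' * r) := by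
    have h5 : Real.exp (H D w - η / 2 * r) = Real.exp (-(η / 4 * r)) * Real.exp (H D w - η / 4 * r) := by
      rw [← Real.exp_add]; ring_nf
    rw [h5, ← mul_assoc]
    have h6 : Real.exp (H D w - η / 4 * r) ≤ Real.exp (H D w - η' * r) := by
      apply Real.exp_le_exp.mpr
      have : η' ≤ η / 4 := min_le_left _ _
      nlinarith
    exact mul_le_mul hr1 h6 (Real.exp_pos _).le (by norm_num)
  have hfin2 : C / (q * (1 - q)) * Real.exp (H D w - κ * L / 2 * r) ≤
      1 / 2 * Real.exp (H D w - η' * r) := by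
    have h5 : Real.exp (H D w - κ * L / 2 * r) =
        Real.exp (-(κ * L / 4 * r)) * Real.exp (H D w - κ * L / 4 * r) := by
      rw [← Real.exp_add]; ring_nf
    rw [h5, ← mul_assoc]
    have h6 : Real.exp (H D w - κ * L / 4 * r) ≤ Real.exp (H D w - η' * r) := by
      apply Real.exp_le_exp.mpr
      have : η' ≤ κ * L / 4 := min_le_right _ _
      nlinarith
    exact mul_le_mul hr2 h6 (Real.exp_pos _).le (by norm_num)
  rw [hsplit]
  calc _ ≤ ‖∑ k ∈ Finset.range K, c k * iteratedDeriv k f w‖ +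
        ‖∑' k, c (k + K) * iteratedDeriv (k + K) f w‖ := norm_add_le _ _
    _ ≤ 1 / 2 * Real.exp (H D w - η' * r) + 1 / 2 * Real.exp (H D w - η' * r) :=
        add_le_add (hfirst.trans hfin1) (hsecond.trans hfin2)
    _ = _ := by ring

end Pool.Agent.Helper960.Crg
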