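import Pool.Agent.Helper960.Crg.Lap

open Filter Topology Metric MeasureTheory

namespace Pool.Agent.Helper960.Crg

/-- the ordinary generating function of the derivatives at `0` -/
noncomputable def pser (f : ℂ → ℂ) (v : ℂ) : ℂ := ∑' n, iteratedDeriv n f 0 * v ^ n

lemma borel_eq (f : ℂ → ℂ) (w : ℂ) : borel f w = w⁻¹ * pser f w⁻¹ := by
  unfold borel pser
  rw [← tsum_mul_left]
  congr 1
  funext n
  rw [div_eq_mul_inv, ← inv_pow, pow_succ]
  ring

lemma pser_summable {f : ℂ → ℂ} {C b : ℝ} (hb0 : 0 < b)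
    (hC : ∀ n, ‖iteratedDeriv n f 0‖ ≤ C * b ^ n) {r : ℝ} (hr0 : 0 ≤ r) (hr : b * r < 1) :
    Summable (fun n => C * (b * r) ^ n) ∧ ∀ n (v : ℂ), ‖v‖ ≤ r →
      ‖iteratedDeriv n f 0 * v ^ n‖ ≤ C * (b * r) ^ n := by
  refine ⟨(summable_geometric_of_lt_one (by positivity) hr).mul_left C, fun n v hv => ?_⟩
  rw [norm_mul, norm_pow, mul_pow, ← mul_assoc]
  have hC0 : 0 ≤ C * b ^ n := (norm_nonneg _).trans (hC n)
  exact mul_le_mul (hC n) (pow_le_pow_left₀ (norm_nonneg _) hv n) (by positivity) hC0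

lemma pser_hasSum {f : ℂ → ℂ} {C b : ℝ} (hb0 : 0 < b)
    (hC : ∀ n, ‖iteratedDeriv n f 0‖ ≤ C * b ^ n) {v : ℂ} (hv : b * ‖v‖ < 1) :
    HasSum (fun n => iteratedDeriv n f 0 * v ^ n) (pser f v) := by
  obtain ⟨h1, h2⟩ := pser_summable hb0 hC (norm_nonneg v) hv
  exact (Summable.of_norm_bounded h1 (fun n => h2 n v le_rfl)).hasSum

lemma pser_diff {f : ℂ → ℂ} {C b : ℝ} (hb0 : 0 < b)
    (hC : ∀ n, ‖iteratedDeriv n f 0‖ ≤ C * b ^ n) {v : ℂ} (hv : b * ‖v‖ < 1) :
    DifferentiableAt ℂ (pser f) v := by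
  obtain ⟨r, hr1, hr2⟩ : ∃ r, ‖v‖ < r ∧ b * r < 1 := by
    refine ⟨(‖v‖ + 1 / b) / 2, ?_, ?_⟩
    · have : ‖v‖ < 1 / b := by rw [lt_div_iff₀ hb0]; linarith
      linarith
    · have : b * ((‖v‖ + 1 / b) / 2) = (b * ‖v‖ + 1) / 2 := by field_simp
      rw [this]; linarith
  have hr0 : 0 ≤ r := (norm_nonneg v).trans hr1.le
  obtain ⟨h1, h2⟩ := pser_summable hb0 hC hr0 hr2
  have h3 : DifferentiableOn ℂ (pser f) (ball 0 r) := by
    apply Complex.differentiableOn_tsum_of_summable_norm h1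
      (fun n => (((differentiable_id.pow n).const_mul (iteratedDeriv n f 0)).differentiableOn))
      isOpen_ball
    intro n w hw
    rw [mem_ball_zero_iff] at hw
    exact h2 n w hw.le
  exact h3.differentiableAt (isOpen_ball.mem_nhds (by rw [mem_ball_zero_iff]; exact hr1))

lemma borel_diff {f : ℂ → ℂ} {C b : ℝ} (hb0 : 0 < b)
    (hC : ∀ n, ‖iteratedDeriv n f 0‖ ≤ C * b ^ n) {w : ℂ} (hw : b < ‖w‖) :
    DifferentiableAt ℂ (borel f) w := by
  have hw0 : w ≠ 0 := norm_pos_iff.mp (hb0.trans hw)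
  have e : borel f = fun w => w⁻¹ * pser f w⁻¹ := funext (borel_eq f)
  rw [e]
  have h1 : DifferentiableAt ℂ (fun w : ℂ => w⁻¹) w := differentiableAt_inv hw0
  have h2 : DifferentiableAt ℂ (pser f) (w⁻¹) := by
    apply pser_diff hb0 hC
    rw [norm_inv, ← div_eq_mul_inv, div_lt_one (hb0.trans hw)]
    exact hw
  exact h1.mul (h2.comp w h1)

lemma lap_ray {f : ℂ → ℂ} (hf : Differentiable ℂ f) {C b : ℝ} (hb0 : 0 < b)
    (hC : ∀ n, ‖iteratedDeriv n f 0‖ ≤ C * b ^ n) {u : ℂ} (hu : ‖u‖ = 1) {s : ℝ} (hs : b < s) :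
    lap f u (s * u⁻¹) = borel f (s * u⁻¹) := by
  have hu0 : u ≠ 0 := by rintro rfl; simp at hu
  have h1 : lap f u (s * u⁻¹) = u * ∫ t in Set.Ioi (0 : ℝ), f (t * u) * Real.exp (-(s * t)) := by
    unfold lap
    rw [← integral_const_mul]
    congr 1
    funext t
    have : (s : ℂ) * u⁻¹ * (t * u) = s * t := by field_simp
    rw [this]
    push_cast
    ring
  rw [h1, laplace_ray hf hb0 hC hu hs, ← tsum_mul_left]
  unfold borel
  congr 1
  funext n
  have hs0 : (s : ℂ) ≠ 0 := by exact_mod_cast (hb0.trans hs).ne'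
  rw [mul_pow, inv_pow]
  field_simp
  ring

lemma halfplane_convex (u : ℂ) (c : ℝ) : Convex ℝ {ζ : ℂ | c < (ζ * u).re} := by
  intro x hx y hy a b ha hb hab
  have h1 : ((a • x + b • y) * u).re = a * (x * u).re + b * (y * u).re := by
    rw [Complex.real_smul, Complex.real_smul, add_mul, mul_assoc, mul_assoc, Complex.add_re,
      Complex.re_ofReal_mul, Complex.re_ofReal_mul]
  have hx' : c < (x * u).re := hx
  have hy' : c < (y * u).re := hy
  show c < _
  rw [h1]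
  rcases ha.eq_or_lt with h | h
  · rw [← h, zero_add] at hab
    rw [← h, hab]; linarith
  · have h2 : a * c < a * (x * u).re := mul_lt_mul_of_pos_left hx' h
    have h3 : b * c ≤ b * (y * u).re := mul_le_mul_of_nonneg_left hy'.le hb
    have h4 : a * c + b * c = c := by rw [← add_mul, hab, one_mul]
    linarith

lemma halfplane_open (u : ℂ) (c : ℝ) : IsOpen {ζ : ℂ | c < (ζ * u).re} :=
  isOpen_lt continuous_const (Complex.continuous_re.comp (continuous_id.mul continuous_const))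

lemma re_le_of_unit {u : ℂ} (hu : ‖u‖ = 1) (ζ : ℂ) : (ζ * u).re ≤ ‖ζ‖ := by
  have := Complex.re_le_norm (ζ * u)
  rwa [norm_mul, hu, mul_one] at this

/-- growth along a ray -/
def RB (f : ℂ → ℂ) (u : ℂ) (c : ℝ) : Prop :=
  ∃ C : ℝ, ∀ t : ℝ, 0 ≤ t → ‖f (t * u)‖ ≤ C * Real.exp (c * t)

lemma RB_diff {f : ℂ → ℂ} (hf : Differentiable ℂ f) {u : ℂ} (hu : ‖u‖ = 1) {c : ℝ}
    (h : RB f u c) : DifferentiableOn ℂ (lap f u) {ζ | c < (ζ * u).re} := by
  obtain ⟨C, hC⟩ := h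
  intro ζ hζ
  exact (lap_hasDeriv hf hu hC hζ).differentiableWithinAt

lemma lap_eq_borel {f : ℂ → ℂ} (hf : Differentiable ℂ f) {C b : ℝ} (hb0 : 0 < b)
    (hC : ∀ n, ‖iteratedDeriv n f 0‖ ≤ C * b ^ n) {u : ℂ} (hu : ‖u‖ = 1) (hR : RB f u b)
    {ζ : ℂ} (hζ : b < (ζ * u).re) : lap f u ζ = borel f ζ := by
  have hu0 : u ≠ 0 := by rintro rfl; simp at hu
  have ho := halfplane_open u b
  have h1 : AnalyticOnNhd ℂ (lap f u) {ζ | b < (ζ * u).re} :=
    (RB_diff hf hu hR).analyticOnNhd ho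
  have h2 : AnalyticOnNhd ℂ (borel f) {ζ | b < (ζ * u).re} := by
    apply DifferentiableOn.analyticOnNhd _ ho
    intro w hw
    exact (borel_diff hb0 hC (lt_of_lt_of_le hw (re_le_of_unit hu w))).differentiableWithinAt
  have hz : (((b + 1 : ℝ) : ℂ)) * u⁻¹ ∈ {ζ : ℂ | b < (ζ * u).re} := by
    show b < _
    rw [mul_assoc, inv_mul_cancel₀ hu0, mul_one, Complex.ofReal_re]
    linarith
  apply h1.eqOn_of_preconnected_of_frequently_eq h2 (halfplane_convex u b).isPreconnected hz _ hζ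
  have ht : Tendsto (fun s : ℝ => ((s : ℝ) : ℂ) * u⁻¹) (𝓝[>] (b + 1))
      (𝓝[≠] ((((b + 1 : ℝ) : ℂ)) * u⁻¹)) := by
    apply tendsto_nhdsWithin_of_tendsto_nhds_of_eventually_within
    · apply Tendsto.mono_left _ nhdsWithin_le_nhds
      exact (Complex.continuous_ofReal.mul continuous_const).tendsto (b + 1)
    · filter_upwards [self_mem_nhdsWithin] with s hs
      have hs' : b + 1 < s := hs
      intro h
      have h3 := mul_right_cancel₀ (inv_ne_zero hu0) h
      have h4 : s = b + 1 := by exact_mod_cast h3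
      linarith
  apply ht.frequently
  apply Eventually.frequently
  filter_upwards [self_mem_nhdsWithin] with s hs
  have hs' : b + 1 < s := hs
  exact lap_ray hf hb0 hC hu (by linarith)

/-- gluing in non-opposite directions -/
lemma glue₁ {f : ℂ → ℂ} (hf : Differentiable ℂ f) {C b : ℝ} (hb0 : 0 < b)
    (hC : ∀ n, ‖iteratedDeriv n f 0‖ ≤ C * b ^ n) (hRb : ∀ u, ‖u‖ = 1 → RB f u b)
    {u v : ℂ} (hu : ‖u‖ = 1) (hv : ‖v‖ = 1) (huv : v ≠ -u) {c d : ℝ} (hc : RB f u c)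
    (hd : RB f v d) {w : ℂ} (hw1 : c < (w * u).re) (hw2 : d < (w * v).re) :
    lap f u w = lap f v w := by
  have ho : IsOpen ({ζ : ℂ | c < (ζ * u).re} ∩ {ζ : ℂ | d < (ζ * v).re}) :=
    (halfplane_open u c).inter (halfplane_open v d)
  have hcx : Convex ℝ ({ζ : ℂ | c < (ζ * u).re} ∩ {ζ : ℂ | d < (ζ * v).re}) :=
    (halfplane_convex u c).inter (halfplane_convex v d)
  have h1 : AnalyticOnNhd ℂ (lap f u) ({ζ : ℂ | c < (ζ * u).re} ∩ {ζ : ℂ | d < (ζ * v).re}) :=
    ((RB_diff hf hu hc).mono Set.inter_subset_left).analyticOnNhd ho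
  have h2 : AnalyticOnNhd ℂ (lap f v) ({ζ : ℂ | c < (ζ * u).re} ∩ {ζ : ℂ | d < (ζ * v).re}) :=
    ((RB_diff hf hv hd).mono Set.inter_subset_right).analyticOnNhd ho
  -- the far point
  set e : ℂ := (starRingEnd ℂ) u + (starRingEnd ℂ) v with he
  set κ : ℝ := 1 + ((starRingEnd ℂ) u * v).re with hκ
  have hcu : ((starRingEnd ℂ) u * u) = 1 := by
    rw [mul_comm, Complex.mul_conj, Complex.normSq_eq_norm_sq, hu]; simp
  have hcv : ((starRingEnd ℂ) v * v) = 1 := by
    rw [mul_comm, Complex.mul_conj, Complex.normSq_eq_norm_sq, hv]; simp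
  have hre : ((starRingEnd ℂ) v * u).re = ((starRingEnd ℂ) u * v).re := by
    simp only [Complex.mul_re, Complex.conj_re, Complex.conj_im]; ring
  have heu : (e * u).re = κ := by
    rw [he, add_mul, Complex.add_re, hcu, hre, Complex.one_re]
  have hev : (e * v).re = κ := by
    rw [he, add_mul, Complex.add_re, hcv, Complex.one_re]; ring
  have hκ0 : 0 < κ := by
    have h3 : ‖u + v‖ ^ 2 = 2 * κ := by
      have hu2 : u.re ^ 2 + u.im ^ 2 = 1 := by
        have := Complex.normSq_eq_norm_sq u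
        rw [hu, Complex.normSq_apply] at this; nlinarith
      have hv2 : v.re ^ 2 + v.im ^ 2 = 1 := by
        have := Complex.normSq_eq_norm_sq v
        rw [hv, Complex.normSq_apply] at this; nlinarith
      rw [← Complex.normSq_eq_norm_sq, Complex.normSq_apply, hκ]
      simp only [Complex.mul_re, Complex.conj_re, Complex.conj_im, Complex.add_re, Complex.add_im]
      nlinarith
    have h4 : 0 < ‖u + v‖ := by
      rw [norm_pos_iff]
      intro h
      apply huv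
      exact (neg_eq_of_add_eq_zero_right h).symm
    nlinarith [pow_pos h4 2]
  obtain ⟨N, hN0, hN1, hN2⟩ : ∃ N : ℝ, 0 ≤ N ∧ b < (w * u).re + N * κ ∧ b < (w * v).re + N * κ := by
    refine ⟨(|b| + |(w * u).re| + |(w * v).re| + 1) / κ, by positivity, ?_, ?_⟩
    · rw [div_mul_cancel₀ _ hκ0.ne']
      have h3 := le_abs_self b
      have h4 := neg_abs_le (w * u).re
      have h5 := abs_nonneg (w * v).re
      linarith
    · rw [div_mul_cancel₀ _ hκ0.ne']
      have h3 := le_abs_self b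
      have h4 := neg_abs_le (w * v).re
      have h5 := abs_nonneg (w * u).re
      linarith
  set z₁ : ℂ := w + N * e with hz₁
  have hz₁u : (z₁ * u).re = (w * u).re + N * κ := by
    rw [hz₁, add_mul, Complex.add_re, mul_assoc, Complex.re_ofReal_mul, heu]
  have hz₁v : (z₁ * v).re = (w * v).re + N * κ := by
    rw [hz₁, add_mul, Complex.add_re, mul_assoc, Complex.re_ofReal_mul, hev]
  have hz₁m : z₁ ∈ {ζ : ℂ | c < (ζ * u).re} ∩ {ζ : ℂ | d < (ζ * v).re} := by
    constructor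
    · show c < _
      rw [hz₁u]
      have : 0 ≤ N * κ := by positivity
      linarith
    · show d < _
      rw [hz₁v]
      have : 0 ≤ N * κ := by positivity
      linarith
  apply h1.eqOn_of_preconnected_of_eventuallyEq h2 hcx.isPreconnected hz₁m _ ⟨hw1, hw2⟩
  have ho2 : IsOpen ({ζ : ℂ | b < (ζ * u).re} ∩ {ζ : ℂ | b < (ζ * v).re}) :=
    (halfplane_open u b).inter (halfplane_open v b)
  filter_upwards [ho2.mem_nhds ⟨by show b < _; rw [hz₁u]; exact hN1,
    by show b < _; rw [hz₁v]; exact hN2⟩] with ζ hζ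
  rw [lap_eq_borel hf hb0 hC hu (hRb u hu) hζ.1, lap_eq_borel hf hb0 hC hv (hRb v hv) hζ.2]

/-- gluing -/
lemma glue {f : ℂ → ℂ} (hf : Differentiable ℂ f) {C b : ℝ} (hb0 : 0 < b)
    (hC : ∀ n, ‖iteratedDeriv n f 0‖ ≤ C * b ^ n) (hRb : ∀ u, ‖u‖ = 1 → RB f u b)
    {u v : ℂ} (hu : ‖u‖ = 1) (hv : ‖v‖ = 1) {c d : ℝ} (hc : RB f u c)
    (hd : RB f v d) {w : ℂ} (hw1 : c < (w * u).re) (hw2 : d < (w * v).re) :
    lap f u w = lap f v w := by
  by_cases huv : v = -u
  swap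
  · exact glue₁ hf hb0 hC hRb hu hv huv hc hd hw1 hw2
  have hu0 : u ≠ 0 := by rintro rfl; simp at hu
  have ho : IsOpen ({ζ : ℂ | c < (ζ * u).re} ∩ {ζ : ℂ | d < (ζ * v).re}) :=
    (halfplane_open u c).inter (halfplane_open v d)
  have hcx : Convex ℝ ({ζ : ℂ | c < (ζ * u).re} ∩ {ζ : ℂ | d < (ζ * v).re}) :=
    (halfplane_convex u c).inter (halfplane_convex v d)
  have h1 : AnalyticOnNhd ℂ (lap f u) ({ζ : ℂ | c < (ζ * u).re} ∩ {ζ : ℂ | d < (ζ * v).re}) :=
    ((RB_diff hf hu hc).mono Set.inter_subset_left).analyticOnNhd ho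
  have h2 : AnalyticOnNhd ℂ (lap f v) ({ζ : ℂ | c < (ζ * u).re} ∩ {ζ : ℂ | d < (ζ * v).re}) :=
    ((RB_diff hf hv hd).mono Set.inter_subset_right).analyticOnNhd ho
  set p : ℂ := Complex.I * u with hp
  have hpn : ‖p‖ = 1 := by rw [hp, norm_mul, Complex.norm_I, hu, one_mul]
  have hcu : ((starRingEnd ℂ) u * u) = 1 := by
    rw [mul_comm, Complex.mul_conj, Complex.normSq_eq_norm_sq, hu]; simp
  set e : ℂ := (starRingEnd ℂ) p with he
  have heu : (e * u).re = 0 := by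
    rw [he, hp, map_mul, Complex.conj_I, mul_assoc, hcu]; simp
  have hep : (e * p).re = 1 := by
    rw [he, mul_comm, Complex.mul_conj, Complex.normSq_eq_norm_sq, hpn]; simp
  set N : ℝ := |b| + |(w * p).re| + 1 with hN
  set z₁ : ℂ := w + N * e with hz₁
  have hz₁u : (z₁ * u).re = (w * u).re := by
    rw [hz₁, add_mul, Complex.add_re, mul_assoc, Complex.re_ofReal_mul, heu]; ring
  have hz₁v : (z₁ * v).re = (w * v).re := by
    rw [huv, mul_neg, mul_neg, Complex.neg_re, Complex.neg_re, hz₁u]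
  have hz₁p : b < (z₁ * p).re := by
    rw [hz₁, add_mul, Complex.add_re, mul_assoc, Complex.re_ofReal_mul, hep, mul_one, hN]
    have h3 := le_abs_self b
    have h4 := neg_abs_le (w * p).re
    linarith
  have hz₁m : z₁ ∈ {ζ : ℂ | c < (ζ * u).re} ∩ {ζ : ℂ | d < (ζ * v).re} := by
    constructor
    · show c < _
      rw [hz₁u]; exact hw1
    · show d < _
      rw [hz₁v]; exact hw2
  apply h1.eqOn_of_preconnected_of_eventuallyEq h2 hcx.isPreconnected hz₁m _ ⟨hw1, hw2⟩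
  filter_upwards [(ho.inter (halfplane_open p b)).mem_nhds ⟨hz₁m, hz₁p⟩] with ζ hζ
  have hpu : p ≠ -u := by
    intro h
    rw [hp] at h
    have : Complex.I = -1 := mul_right_cancel₀ hu0 (by rw [h]; ring)
    have := congrArg Complex.im this
    simp at this
  have hpv : p ≠ -v := by
    intro h
    rw [hp, huv, neg_neg] at h
    have : Complex.I = 1 := mul_right_cancel₀ hu0 (by rw [h]; ring)
    have := congrArg Complex.im this
    simp at this
  rw [glue₁ hf hb0 hC hRb hu hpn hpu hc (hRb p hpn) hζ.1.1 hζ.2,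
    glue₁ hf hb0 hC hRb hv hpn hpv hd (hRb p hpn) hζ.1.2 hζ.2]

end Pool.Agent.Helper960.Crg
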