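import Pool.Agent.Helper960.Crg.Disc

open Filter Topology Metric MeasureTheory

namespace Pool.Agent.Helper960.Crg

/-- The Borel transform of `f` continues analytically to the complement of `K`. -/
def ContinuesOff (f : ℂ → ℂ) (K : Set ℂ) : Prop :=
  ∃ F : ℂ → ℂ, DifferentiableOn ℂ F Kᶜ ∧ ∃ R : ℝ, ∀ w : ℂ, R < ‖w‖ → w ∉ K → F w = borel f w

/-- The conjugate diagram: the smallest closed convex set outside of which the Borel transform
continues analytically. -/
def conjDiagram (f : ℂ → ℂ) : Set ℂ :=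
  ⋂₀ {K : Set ℂ | IsClosed K ∧ Convex ℝ K ∧ ContinuesOff f K}

lemma unit_norm (θ : ℝ) : ‖Complex.exp (θ * Complex.I)‖ = 1 := Complex.norm_exp_ofReal_mul_I θ

lemma conj_dir (w : ℂ) : (w * Complex.exp (((-w.arg : ℝ) : ℂ) * Complex.I)).re = ‖w‖ := by
  have h := Complex.norm_mul_exp_arg_mul_I w
  have e : (w.arg : ℂ) * Complex.I + ((-w.arg : ℝ) : ℂ) * Complex.I = 0 := by push_cast; ring
  calc (w * Complex.exp (((-w.arg : ℝ) : ℂ) * Complex.I)).re =
      (((‖w‖ : ℂ) * Complex.exp (w.arg * Complex.I)) *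
        Complex.exp (((-w.arg : ℝ) : ℂ) * Complex.I)).re := by rw [h]
    _ = ‖w‖ := by rw [mul_assoc, ← Complex.exp_add, e, Complex.exp_zero, mul_one,
        Complex.ofReal_re]

section polya

variable {f : ℂ → ℂ} {A B : ℝ} {h : ℝ → ℝ}

/-- the convex set with support function `h` -/
def Kset (h : ℝ → ℝ) : Set ℂ := {ζ | ∀ θ : ℝ, (ζ * Complex.exp (θ * Complex.I)).re ≤ h θ}

lemma Kset_closed (h : ℝ → ℝ) : IsClosed (Kset h) := by
  have : Kset h = ⋂ θ : ℝ, {ζ : ℂ | (ζ * Complex.exp (θ * Complex.I)).re ≤ h θ} := by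
    ext z; simp [Kset]
  rw [this]
  exact isClosed_iInter (fun θ => isClosed_le
    (Complex.continuous_re.comp (continuous_id.mul continuous_const)) continuous_const)

lemma Kset_convex (h : ℝ → ℝ) : Convex ℝ (Kset h) := by
  intro x hx y hy a b ha hb hab θ
  have h1 : ((a • x + b • y) * Complex.exp (θ * Complex.I)).re =
      a * (x * Complex.exp (θ * Complex.I)).re + b * (y * Complex.exp (θ * Complex.I)).re := by
    rw [Complex.real_smul, Complex.real_smul, add_mul, mul_assoc, mul_assoc, Complex.add_re,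
      Complex.re_ofReal_mul, Complex.re_ofReal_mul]
  rw [h1]
  have h2 : a * (x * Complex.exp (θ * Complex.I)).re ≤ a * h θ :=
    mul_le_mul_of_nonneg_left (hx θ) ha
  have h3 : b * (y * Complex.exp (θ * Complex.I)).re ≤ b * h θ :=
    mul_le_mul_of_nonneg_left (hy θ) hb
  have h4 : a * h θ + b * h θ = h θ := by rw [← add_mul, hab, one_mul]
  linarith

variable (hf : Differentiable ℂ f) (hA : ∀ z, ‖f z‖ ≤ A * Real.exp (B * ‖z‖))
  (hup : ∀ θ c : ℝ, h θ < c → RB f (Complex.exp (θ * Complex.I)) c)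
  (hlow : ∀ θ c : ℝ, RB f (Complex.exp (θ * Complex.I)) c → h θ ≤ c)

include hf hA hup hlow in
lemma Kset_cont : ContinuesOff f (Kset h) := by
  classical
  set b : ℝ := |B| + 1 with hb
  have hb0 : 0 < b := by positivity
  have hBb : B < b := by
    have := le_abs_self B
    rw [hb]; linarith
  obtain ⟨C, hC, hCb⟩ := coefbound hf hA hBb hb0
  have hA0 : 0 ≤ A := by
    have := (norm_nonneg _).trans (hA 0)
    simpa using this
  have hRb : ∀ u : ℂ, ‖u‖ = 1 → RB f u b := by
    intro u hu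
    refine ⟨A, fun t ht => (hA _).trans ?_⟩
    rw [norm_mul, hu, mul_one, ofReal_norm' ht]
    gcongr
  have hnot : ∀ w : ℂ, w ∉ Kset h → ∃ θ : ℝ, h θ < (w * Complex.exp (θ * Complex.I)).re := by
    intro w hw
    by_contra hcon
    push Not at hcon
    exact hw hcon
  have hnot' : ∀ (w : ℂ) (θ : ℝ), h θ < (w * Complex.exp (θ * Complex.I)).re → w ∉ Kset h := by
    intro w θ hθ hw
    exact absurd (hw θ) (not_le.mpr hθ)
  set F : ℂ → ℂ := fun w => if hw : w ∉ Kset h then
    lap f (Complex.exp (((Classical.choose (hnot w hw) : ℝ) : ℂ) * Complex.I)) w else 0 with hF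
  have key : ∀ (w : ℂ) (θ : ℝ), h θ < (w * Complex.exp (θ * Complex.I)).re →
      F w = lap f (Complex.exp (θ * Complex.I)) w := by
    intro w θ hθ
    have hw := hnot' w θ hθ
    simp only [hF, hw, not_false_eq_true, dite_true]
    have hθ' := Classical.choose_spec (hnot w hw)
    set θ' := Classical.choose (hnot w hw)
    exact glue hf hb0 hCb hRb (unit_norm θ') (unit_norm θ)
      (hup θ' ((h θ' + (w * Complex.exp (θ' * Complex.I)).re) / 2) (by linarith))
      (hup θ ((h θ + (w * Complex.exp (θ * Complex.I)).re) / 2) (by linarith))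
      (by linarith) (by linarith)
  refine ⟨F, ?_, b, ?_⟩
  · intro w hw
    apply DifferentiableAt.differentiableWithinAt
    obtain ⟨θ, hθ⟩ := hnot w hw
    have h1 : F =ᶠ[𝓝 w] lap f (Complex.exp (θ * Complex.I)) := by
      filter_upwards [(halfplane_open (Complex.exp (θ * Complex.I)) (h θ)).mem_nhds hθ] with z hz
      exact key z θ hz
    apply DifferentiableAt.congr_of_eventuallyEq _ h1
    obtain ⟨C', hC'⟩ := hup θ ((h θ + (w * Complex.exp (θ * Complex.I)).re) / 2) (by linarith)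
    exact lap_hasDeriv hf (unit_norm θ) hC' (by linarith)
  · intro w hw _
    have h1 := conj_dir w
    have h2 : h (-w.arg) ≤ b := hlow _ _ (hRb _ (unit_norm _))
    rw [key w (-w.arg) (by rw [h1]; linarith)]
    exact lap_eq_borel hf hb0 hCb (unit_norm _) (hRb _ (unit_norm _)) (by rw [h1]; exact hw)

include hf hA hlow in
lemma fam_le {K : Set ℂ} (hK : IsClosed K) (hc : ContinuesOff f K) {θ c : ℝ}
    (hcK : ∀ ζ ∈ K, (ζ * Complex.exp (θ * Complex.I)).re ≤ c) : h θ ≤ c := by
  obtain ⟨F, hF, R, hR⟩ := hc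
  apply le_of_forall_pos_le_add
  intro ε hε
  exact hlow θ (c + ε) (big_disc hf hA hK hF hR (unit_norm θ) hcK (by linarith))

include hf hA hlow in
lemma fam_nonempty {K : Set ℂ} (hK : IsClosed K) (hc : ContinuesOff f K) : K.Nonempty := by
  by_contra hcon
  rw [Set.not_nonempty_iff_eq_empty] at hcon
  have := fam_le hf hA hlow hK hc (θ := 0) (c := h 0 - 1) (by
    intro ζ hζ
    rw [hcon] at hζ
    exact absurd hζ (Set.notMem_empty ζ))
  linarith

include hf hA hlow in
lemma Kset_subset {K : Set ℂ} (hK : IsClosed K) (hKc : Convex ℝ K) (hc : ContinuesOff f K) :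
    Kset h ⊆ K := by
  intro ζ₀ hζ₀
  by_contra hcon
  obtain ⟨L, s, hL1, hL2⟩ := geometric_hahn_banach_closed_point hKc hK hcon
  set v : ℂ := (L 1 : ℂ) - Complex.I * (L Complex.I : ℂ) with hv
  have hLv : ∀ ζ : ℂ, L ζ = (ζ * v).re := by
    intro ζ
    have h1 : ζ = ζ.re • (1 : ℂ) + ζ.im • Complex.I := by
      rw [Complex.real_smul, Complex.real_smul, mul_one]
      exact (Complex.re_add_im ζ).symm
    have h2 : L ζ = ζ.re * L 1 + ζ.im * L Complex.I := by
      conv_lhs => rw [h1]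
      rw [map_add, map_smul, map_smul, smul_eq_mul, smul_eq_mul]
    rw [h2, hv]
    simp [Complex.mul_re, Complex.sub_re, Complex.sub_im]
  obtain ⟨ζ₁, hζ₁⟩ := fam_nonempty hf hA hlow hK hc
  have hv0 : v ≠ 0 := by
    intro h0
    have h1 := hL1 ζ₁ hζ₁
    rw [hLv, h0, mul_zero] at h1
    rw [hLv, h0, mul_zero] at hL2
    exact absurd (h1.trans hL2) (lt_irrefl _)
  have hvn : 0 < ‖v‖ := norm_pos_iff.mpr hv0
  have hpol : ∀ ζ : ℂ, (ζ * v).re = ‖v‖ * (ζ * Complex.exp (v.arg * Complex.I)).re := by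
    intro ζ
    conv_lhs => rw [← Complex.norm_mul_exp_arg_mul_I v]
    rw [show ζ * ((‖v‖ : ℂ) * Complex.exp (v.arg * Complex.I)) =
      (‖v‖ : ℂ) * (ζ * Complex.exp (v.arg * Complex.I)) by ring, Complex.re_ofReal_mul]
  have h1 := fam_le hf hA hlow hK hc (θ := v.arg) (c := s / ‖v‖) (by
    intro ζ hζ
    have h2 := (hL1 ζ hζ).le
    rw [hLv, hpol] at h2
    rw [le_div_iff₀ hvn]
    linarith)
  have h2 := hζ₀ v.arg
  rw [hLv, hpol] at hL2
  rw [le_div_iff₀ hvn] at h1
  have h3 : (ζ₀ * Complex.exp (v.arg * Complex.I)).re * ‖v‖ ≤ h v.arg * ‖v‖ :=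
    mul_le_mul_of_nonneg_right h2 hvn.le
  linarith

include hf hA hup hlow in
lemma conjDiagram_eq : conjDiagram f = Kset h := by
  apply Set.Subset.antisymm
  · exact Set.sInter_subset_of_mem ⟨Kset_closed h, Kset_convex h, Kset_cont hf hA hup hlow⟩
  · apply Set.subset_sInter
    rintro K ⟨h1, h2, h3⟩
    exact Kset_subset hf hA hlow h1 h2 h3

include hf hA hup hlow in
/-- Pólya's theorem: the conjugate diagram is compact, convex and non-empty and its support
function is the indicator. -/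
theorem polya : IsCompact (conjDiagram f) ∧ Convex ℝ (conjDiagram f) ∧
    (conjDiagram f).Nonempty ∧ ∀ θ : ℝ, H (conjDiagram f) (Complex.exp (θ * Complex.I)) = h θ := by
  rw [conjDiagram_eq hf hA hup hlow]
  have hA0 : 0 ≤ A := by
    have := (norm_nonneg _).trans (hA 0)
    simpa using this
  have hB : ∀ θ, h θ ≤ B := by
    intro θ
    apply hlow
    refine ⟨A, fun t ht => (hA _).trans ?_⟩
    rw [norm_mul, unit_norm, mul_one, ofReal_norm' ht]
  have hcont := Kset_cont hf hA hup hlow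
  have hne := fam_nonempty hf hA hlow (Kset_closed h) hcont
  have hcomp : IsCompact (Kset h) := by
    apply Metric.isCompact_of_isClosed_isBounded (Kset_closed h)
    rw [isBounded_iff_forall_norm_le]
    refine ⟨B, fun ζ hζ => ?_⟩
    have h1 := hζ (-ζ.arg)
    rw [conj_dir] at h1
    exact h1.trans (hB _)
  refine ⟨hcomp, Kset_convex h, hne, fun θ => ?_⟩
  apply le_antisymm
  · exact H_le hne (fun ζ hζ => hζ θ)
  · exact fam_le hf hA hlow (Kset_closed h) hcont (fun ζ hζ => le_H hcomp hζ _)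

end polya

end Pool.Agent.Helper960.Crg
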