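import Pool.Agent.Helper960.Crg.Op

open Filter Topology Metric

namespace Pool.Agent.Helper960.Crg

/-! ### Taylor coefficients and factors -/

/-- Taylor coefficients at the origin -/
noncomputable def coef (φ : ℂ → ℂ) (k : ℕ) : ℂ := iteratedDeriv k φ 0 / k.factorial

lemma Dec_coef {ψ : ℂ → ℂ} {ρ : ℝ} (hρ : 0 < ρ) (hψ : DiffContOnCl ℂ ψ (ball 0 ρ)) :
    Dec (coef ψ) ρ := by
  have hc : ContinuousOn ψ (closedBall 0 ρ) := by
    have := hψ.continuousOn
    rwa [closure_ball 0 hρ.ne'] at this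
  obtain ⟨M, hM⟩ := ((isCompact_closedBall (0 : ℂ) ρ).image_of_continuousOn hc).isBounded.exists_norm_le
  refine ⟨|M| + 1, by positivity, fun k => ?_⟩
  have h1 := Complex.norm_iteratedDeriv_le_of_forall_mem_sphere_norm_le (C := |M| + 1) k hρ hψ
    (fun z hz => by
      have := hM (ψ z) ⟨z, sphere_subset_closedBall hz, rfl⟩
      linarith [le_abs_self M])
  unfold coef
  rw [norm_div, RCLike.norm_natCast]
  have hk : (0 : ℝ) < k.factorial := by exact_mod_cast k.factorial_pos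
  rw [le_div_iff₀ (by positivity)] at h1
  rw [div_mul_eq_mul_div, div_le_iff₀ hk]
  linarith

lemma iteratedDeriv_factor {ψ : ℂ → ℂ} (hψ : Differentiable ℂ ψ) (lam : ℂ) (k : ℕ) :
    iteratedDeriv (k + 1) (fun z => (z - lam) * ψ z) =
      fun z => (z - lam) * iteratedDeriv (k + 1) ψ z + (k + 1) * iteratedDeriv k ψ z := by
  have hd : ∀ j z, HasDerivAt (iteratedDeriv j ψ) (iteratedDeriv (j + 1) ψ z) z := by
    intro j z
    rw [iteratedDeriv_succ]
    exact (iteratedDeriv_diff hψ j z).hasDerivAt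
  induction k with
  | zero =>
    funext z
    rw [zero_add, iteratedDeriv_one]
    have h1 : HasDerivAt (fun z => (z - lam) * ψ z) (1 * ψ z + (z - lam) * deriv ψ z) z :=
      ((hasDerivAt_id z).sub_const lam).mul (hψ z).hasDerivAt
    rw [h1.deriv, iteratedDeriv_one, iteratedDeriv_zero]
    push_cast
    ring
  | succ k ih =>
    funext z
    rw [iteratedDeriv_succ, ih]
    have h1 : HasDerivAt (fun z => (z - lam) * iteratedDeriv (k + 1) ψ z +
        (k + 1) * iteratedDeriv k ψ z) (1 * iteratedDeriv (k + 1) ψ z +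
        (z - lam) * iteratedDeriv (k + 1 + 1) ψ z + (k + 1) * iteratedDeriv (k + 1) ψ z) z :=
      (((hasDerivAt_id z).sub_const lam).mul (hd (k + 1) z)).add ((hd k z).const_mul _)
    rw [h1.deriv]
    push_cast
    ring

lemma coef_factor_zero {ψ : ℂ → ℂ} (lam : ℂ) :
    coef (fun z => (z - lam) * ψ z) 0 = - lam * coef ψ 0 := by
  simp [coef]

lemma coef_factor_succ {ψ : ℂ → ℂ} (hψ : Differentiable ℂ ψ) (lam : ℂ) (k : ℕ) :
    coef (fun z => (z - lam) * ψ z) (k + 1) = coef ψ k - lam * coef ψ (k + 1) := by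
  unfold coef
  rw [iteratedDeriv_factor hψ lam k]
  have hk : (k.factorial : ℂ) ≠ 0 := by exact_mod_cast k.factorial_ne_zero
  have hk1 : ((k : ℂ) + 1) ≠ 0 := by exact_mod_cast Nat.succ_ne_zero k
  rw [Nat.factorial_succ]
  push_cast
  field_simp
  ring

lemma T_factor {f ψ : ℂ → ℂ} {D : Set ℂ} {σ ρ : ℝ}
    (hf : Differentiable ℂ f) (hD : IsCompact D) (hne : D.Nonempty) (hUB : UB f D)
    (hσ : ∀ ζ ∈ D, ‖ζ‖ ≤ σ) (hσρ : σ < ρ) (hψ : Differentiable ℂ ψ) (lam z : ℂ) :
    T (coef (fun z => (z - lam) * ψ z)) f z =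
      deriv (T (coef ψ) f) z - lam * T (coef ψ) f z := by
  have hσ0 : 0 ≤ σ := (norm_nonneg _).trans (hσ _ hne.some_mem)
  have hρ : 0 < ρ := by linarith
  have hdec : Dec (coef ψ) ρ := Dec_coef hρ hψ.diffContOnCl
  rw [(T_hasDerivAt hf hD hne hUB hσ hσρ hdec z).deriv]
  have hs0 : Summable (fun k => coef ψ k * iteratedDeriv k f z) :=
    summable_T hf hD hne hUB hσ hσρ hdec z
  have hf' : Differentiable ℂ (deriv f) := by
    have := iteratedDeriv_diff hf 1
    rwa [iteratedDeriv_one] at this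
  have hs1 : Summable (fun k => coef ψ k * iteratedDeriv k (deriv f) z) :=
    summable_T hf' hD hne (UB_deriv hf hD hne hUB hσ) hσ hσρ hdec z
  have hdec2 : Dec (coef (fun z => (z - lam) * ψ z)) ρ :=
    Dec_coef hρ (((differentiable_id.sub_const lam).mul hψ).diffContOnCl)
  have hs2 : Summable (fun k => coef (fun z => (z - lam) * ψ z) k * iteratedDeriv k f z) :=
    summable_T hf hD hne hUB hσ hσρ hdec2 z
  unfold T
  rw [hs2.tsum_eq_zero_add, hs0.tsum_eq_zero_add]
  have hs0' : Summable (fun k => coef ψ (k + 1) * iteratedDeriv (k + 1) f z) :=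
    (summable_nat_add_iff 1).mpr hs0
  have e1 : ∀ k, coef (fun z => (z - lam) * ψ z) (k + 1) * iteratedDeriv (k + 1) f z =
      coef ψ k * iteratedDeriv k (deriv f) z -
        lam * (coef ψ (k + 1) * iteratedDeriv (k + 1) f z) := by
    intro k
    rw [coef_factor_succ hψ, ← iteratedDeriv_succ']
    ring
  simp_rw [e1]
  rw [(hs1.hasSum.sub (hs0'.hasSum.mul_left lam)).tsum_eq, coef_factor_zero]
  ring

lemma T_single (f : ℂ → ℂ) (z : ℂ) : T (fun n => if n = 0 then 1 else 0) f z = f z := by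
  unfold T
  rw [tsum_eq_single 0 (fun k hk => by simp [hk])]
  simp

lemma coef_conv {ψ φ : ℂ → ℂ} {ρ : ℝ} (hρ : 0 < ρ) (hφ : Differentiable ℂ φ)
    (hne : ∀ z, ‖z‖ ≤ ρ → φ z ≠ 0) (hψ : ψ = fun z => (φ z)⁻¹) (n : ℕ) :
    ∑ p ∈ Finset.HasAntidiagonal.antidiagonal n, coef ψ p.1 * coef φ p.2 =
      if n = 0 then 1 else 0 := by
  have hψa : AnalyticAt ℂ ψ 0 := by
    have h1 : AnalyticAt ℂ φ 0 := hφ.analyticAt 0
    rw [hψ]
    exact h1.inv (hne 0 (by simp [hρ.le]))
  have hcφ : ContDiffAt ℂ (n : WithTop ℕ∞) φ 0 := (hφ.analyticAt 0).contDiffAt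
  have hcψ : ContDiffAt ℂ (n : WithTop ℕ∞) ψ 0 := hψa.contDiffAt
  have h1 := iteratedDeriv_mul hcψ hcφ
  have h2 : (ψ * φ) =ᶠ[𝓝 0] fun _ => (1 : ℂ) := by
    filter_upwards [ball_mem_nhds (0 : ℂ) hρ] with z hz
    rw [mem_ball_zero_iff] at hz
    simp only [Pi.mul_apply, hψ]
    exact inv_mul_cancel₀ (hne z hz.le)
  rw [h2.iteratedDeriv_eq n] at h1
  have h3 : ∑ p ∈ Finset.HasAntidiagonal.antidiagonal n, coef ψ p.1 * coef φ p.2 =
      (∑ i ∈ Finset.range (n + 1), n.choose i * iteratedDeriv i ψ 0 *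
        iteratedDeriv (n - i) φ 0) / n.factorial := by
    rw [Finset.Nat.sum_antidiagonal_eq_sum_range_succ_mk, Finset.sum_div]
    apply Finset.sum_congr rfl
    intro i hi
    rw [Finset.mem_range] at hi
    have hi' : i ≤ n := by omega
    unfold coef
    have hn : (n.factorial : ℂ) ≠ 0 := by exact_mod_cast n.factorial_ne_zero
    have hii : (i.factorial : ℂ) ≠ 0 := by exact_mod_cast i.factorial_ne_zero
    have hni : ((n - i).factorial : ℂ) ≠ 0 := by exact_mod_cast (n - i).factorial_ne_zero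
    have hch : (n.choose i : ℂ) * i.factorial * (n - i).factorial = n.factorial := by
      exact_mod_cast Nat.choose_mul_factorial_mul_factorial hi'
    field_simp
    rw [← hch]
    ring
  rw [h3, ← h1]
  rcases Nat.eq_zero_or_pos n with rfl | hn
  · simp
  · rw [iteratedDeriv_const]
    simp [hn.ne']

/-- inversion of the operator when the symbol has no zeros in a large disc -/
lemma T_inv {f φ : ℂ → ℂ} {D : Set ℂ} {σ ρ : ℝ}
    (hf : Differentiable ℂ f) (hD : IsCompact D) (hne : D.Nonempty) (hUB : UB f D)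
    (hσ : ∀ ζ ∈ D, ‖ζ‖ ≤ σ) (hσρ : σ < ρ) (hφ : Differentiable ℂ φ)
    (hφ0 : ∀ z, ‖z‖ ≤ ρ → φ z ≠ 0) :
    ∃ d : ℕ → ℂ, Dec d ρ ∧ ∀ z, T d (T (coef φ) f) z = f z := by
  have hσ0 : 0 ≤ σ := (norm_nonneg _).trans (hσ _ hne.some_mem)
  have hρ : 0 < ρ := by linarith
  set ψ : ℂ → ℂ := fun z => (φ z)⁻¹ with hψ
  have hψd : DiffContOnCl ℂ ψ (ball 0 ρ) := by
    constructor
    · intro z hz
      rw [mem_ball_zero_iff] at hz
      exact ((hφ z).inv (hφ0 z hz.le)).differentiableWithinAt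
    · rw [closure_ball 0 hρ.ne']
      intro z hz
      rw [mem_closedBall_zero_iff] at hz
      exact ((hφ z).inv (hφ0 z hz)).continuousAt.continuousWithinAt
  refine ⟨coef ψ, Dec_coef hρ hψd, fun z => ?_⟩
  rw [T_comp hf hD hne hUB hσ hσρ (Dec_coef hρ hψd) (Dec_coef hρ hφ.diffContOnCl) z]
  have : (fun n => ∑ p ∈ Finset.HasAntidiagonal.antidiagonal n, coef ψ p.1 * coef φ p.2) =
      fun n => if n = 0 then 1 else 0 := by
    funext n
    exact coef_conv hρ hφ hφ0 hψ n
  rw [this, T_single]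

/-! ### Factoring out zeros -/

/-- product of the linear factors -/
noncomputable def lprod (l : List ℂ) (z : ℂ) : ℂ := (l.map (fun a => z - a)).prod

lemma lprod_nil (z : ℂ) : lprod [] z = 1 := by simp [lprod]

lemma lprod_cons (a : ℂ) (l : List ℂ) (z : ℂ) : lprod (a :: l) z = (z - a) * lprod l z := by
  simp [lprod]

lemma lprod_diff (l : List ℂ) : Differentiable ℂ (lprod l) := by
  induction l with
  | nil =>
    have : lprod [] = fun _ => (1 : ℂ) := by funext z; exact lprod_nil z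
    rw [this]; exact differentiable_const _
  | cons a l ih =>
    have : lprod (a :: l) = fun z => (z - a) * lprod l z := by
      funext z; exact lprod_cons a l z
    rw [this]
    exact (differentiable_id.sub_const a).mul ih

lemma max_princ {ψ : ℂ → ℂ} (hψ : Differentiable ℂ ψ) {z₀ : ℂ} {R M : ℝ} (hR : 0 < R)
    (h : ∀ z, ‖z - z₀‖ = R → ‖ψ z‖ ≤ M) : ∀ z, ‖z - z₀‖ ≤ R → ‖ψ z‖ ≤ M := by
  intro z hz
  have := Complex.norm_le_of_forall_mem_frontier_norm_le (U := ball z₀ R) (f := ψ) (C := M)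
    isBounded_ball hψ.diffContOnCl (by
      intro w hw
      rw [frontier_ball z₀ hR.ne', mem_sphere, dist_eq_norm] at hw
      exact h w hw) (z := z) (by
      rw [closure_ball z₀ hR.ne', mem_closedBall, dist_eq_norm]
      exact hz)
  exact this

lemma zero_bound {G G₂ : ℂ → ℂ} (hG₂ : Differentiable ℂ G₂) (l : List ℂ)
    (hl : ∀ a ∈ l, ‖a‖ ≤ 3) (hG : ∀ z, G z = lprod l z * G₂ z) {M : ℝ}
    (hM : ∀ z, ‖z‖ = 4 → ‖G z‖ ≤ M) : (4 / 3 : ℝ) ^ l.length * ‖G 0‖ ≤ M := by
  have key : ∃ P : ℂ → ℂ, Differentiable ℂ P ∧ (∀ z, ‖z‖ = 4 → ‖P z‖ = ‖lprod l z‖) ∧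
      (4 / 3 : ℝ) ^ l.length * ‖lprod l 0‖ ≤ ‖P 0‖ := by
    clear hG
    induction l with
    | nil =>
      refine ⟨fun _ => 1, differentiable_const _, fun z _ => by rw [lprod_nil], ?_⟩
      simp [lprod_nil]
    | cons a l ih =>
      obtain ⟨P, hP, hP1, hP2⟩ := ih (fun b hb => hl b (List.mem_cons_of_mem _ hb))
      refine ⟨fun z => (16 - (starRingEnd ℂ) a * z) / 4 * P z, ?_, ?_, ?_⟩
      · exact (((differentiable_const _).sub (differentiable_id.const_mul _)).div_const _).mul hP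
      · intro z hz
        rw [norm_mul, hP1 z hz, lprod_cons, norm_mul]
        congr 1
        have h1 : (16 : ℂ) - (starRingEnd ℂ) a * z = (starRingEnd ℂ) (z - a) * z := by
          have h2 : (starRingEnd ℂ) z * z = 16 := by
            rw [mul_comm, Complex.mul_conj, Complex.normSq_eq_norm_sq, hz]
            norm_num
          rw [map_sub, sub_mul, h2]
        rw [h1, norm_div, norm_mul, RCLike.norm_conj, hz]
        norm_num
      · have ha := hl a List.mem_cons_self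
        show (4 / 3 : ℝ) ^ (a :: l).length * ‖lprod (a :: l) 0‖ ≤
          ‖(16 - (starRingEnd ℂ) a * 0) / 4 * P 0‖
        rw [lprod_cons, norm_mul, mul_zero, sub_zero, List.length_cons, pow_succ, zero_sub,
          norm_neg, norm_mul]
        have h3 : ‖(16 : ℂ) / 4‖ = 4 := by norm_num
        rw [h3]
        have h4 : 0 ≤ (4 / 3 : ℝ) ^ l.length * ‖lprod l 0‖ := by positivity
        calc (4 / 3 : ℝ) ^ l.length * (4 / 3) * (‖a‖ * ‖lprod l 0‖)
            = (4 / 3 * ‖a‖) * ((4 / 3 : ℝ) ^ l.length * ‖lprod l 0‖) := by ring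
          _ ≤ 4 * ‖P 0‖ := by
            apply mul_le_mul _ hP2 h4 (by norm_num)
            linarith
  obtain ⟨P, hP, hP1, hP2⟩ := key
  have h1 := max_princ (hP.mul hG₂) (z₀ := 0) (R := 4) (M := M) (by norm_num) (by
    intro z hz
    rw [sub_zero] at hz
    rw [Pi.mul_apply, norm_mul, hP1 z hz, ← norm_mul, ← hG]
    exact hM z hz) 0 (by simp)
  rw [Pi.mul_apply, norm_mul] at h1
  rw [hG 0, norm_mul, ← mul_assoc]
  exact (mul_le_mul_of_nonneg_right hP2 (norm_nonneg _)).trans h1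

lemma exists_factor {G : ℂ → ℂ} (hG : Differentiable ℂ G) (h0 : G 0 ≠ 0) :
    ∃ (l : List ℂ) (G₂ : ℂ → ℂ), Differentiable ℂ G₂ ∧ (∀ a ∈ l, ‖a‖ ≤ 3) ∧
      (∀ z, G z = lprod l z * G₂ z) ∧ ∀ z, ‖z‖ ≤ 3 → G₂ z ≠ 0 := by
  by_contra hcon
  push Not at hcon
  have key : ∀ n : ℕ, ∃ (l : List ℂ) (G₂ : ℂ → ℂ), Differentiable ℂ G₂ ∧ (∀ a ∈ l, ‖a‖ ≤ 3) ∧
      (∀ z, G z = lprod l z * G₂ z) ∧ l.length = n := by
    intro n
    induction n with
    | zero => exact ⟨[], G, hG, by simp, by simp [lprod_nil], rfl⟩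
    | succ n ih =>
      obtain ⟨l, G₂, h1, h2, h3, h4⟩ := ih
      obtain ⟨a, ha, hGa⟩ := hcon l G₂ h1 h2 h3
      refine ⟨a :: l, dslope G₂ a, ?_, ?_, ?_, by simp [h4]⟩
      · rw [← differentiableOn_univ]
        exact (Complex.differentiableOn_dslope univ_mem).mpr h1.differentiableOn
      · intro b hb
        rcases List.mem_cons.mp hb with rfl | hb
        · exact ha
        · exact h2 b hb
      · intro z
        rw [lprod_cons, h3 z]
        have : G₂ z = (z - a) * dslope G₂ a z := by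
          have h5 := sub_smul_dslope G₂ a z
          rw [smul_eq_mul, hGa, sub_zero] at h5
          exact h5.symm
        rw [this]; ring
  obtain ⟨M, hM⟩ := ((isCompact_sphere (0 : ℂ) 4).image hG.continuous).isBounded.exists_norm_le
  obtain ⟨n, hn⟩ := pow_unbounded_of_one_lt (M / ‖G 0‖) (by norm_num : (1 : ℝ) < 4 / 3)
  obtain ⟨l, G₂, h1, h2, h3, h4⟩ := key n
  have h5 := zero_bound h1 l h2 h3 (M := M) (fun z hz => hM _ ⟨z, by simpa using hz, rfl⟩)
  rw [h4] at h5
  have h6 : 0 < ‖G 0‖ := norm_pos_iff.mpr h0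
  rw [div_lt_iff₀ h6] at hn
  linarith

lemma lprod_map_affine (l : List ℂ) (z₀ s z : ℂ) (hs : s ≠ 0) :
    lprod l ((z - z₀) / s) * s ^ l.length = lprod (l.map (fun a => z₀ + s * a)) z := by
  induction l with
  | nil => simp [lprod_nil]
  | cons a l ih =>
    rw [List.map_cons, lprod_cons, lprod_cons, ← ih, List.length_cons, pow_succ]
    field_simp
    ring

/-- Every entire function that is not identically zero is, up to finitely many linear factors,
zero-free on a given disc. -/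
lemma exists_factor' {φ : ℂ → ℂ} (hφ : Differentiable ℂ φ) (h0 : ∃ z, φ z ≠ 0) (R : ℝ) :
    ∃ (l : List ℂ) (φ₁ : ℂ → ℂ), Differentiable ℂ φ₁ ∧
      (∀ z, φ z = lprod l z * φ₁ z) ∧ ∀ z, ‖z‖ ≤ R → φ₁ z ≠ 0 := by
  obtain ⟨z₀, hz₀⟩ := h0
  set s : ℝ := (|R| + ‖z₀‖ + 1) / 3 with hs
  have hs0 : 0 < s := by positivity
  have hsC : (s : ℂ) ≠ 0 := by exact_mod_cast hs0.ne'
  have hG : Differentiable ℂ (fun ζ : ℂ => φ (z₀ + s * ζ)) :=
    hφ.comp ((differentiable_const _).add (differentiable_id.const_mul _))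
  obtain ⟨l, G₂, h1, h2, h3, h4⟩ := exists_factor hG (by simpa using hz₀)
  refine ⟨l.map (fun a => z₀ + s * a), fun z => ((s : ℂ) ^ l.length)⁻¹ * G₂ ((z - z₀) / s),
    ?_, ?_, ?_⟩
  · exact (h1.comp ((differentiable_id.sub_const _).div_const _)).const_mul _
  · intro z
    rw [← lprod_map_affine l z₀ s z hsC]
    have h5 := h3 ((z - z₀) / s)
    have h6 : z₀ + s * ((z - z₀) / s) = z := by field_simp; ring
    rw [h6] at h5
    rw [h5]
    have h7 : (s : ℂ) ^ l.length ≠ 0 := pow_ne_zero _ hsC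
    field_simp
  · intro z hz
    apply mul_ne_zero (inv_ne_zero (pow_ne_zero _ hsC))
    apply h4
    rw [norm_div, Complex.norm_real, Real.norm_eq_abs, abs_of_pos hs0, div_le_iff₀ hs0]
    have := norm_sub_le z z₀
    have h8 := le_abs_self R
    rw [hs]
    linarith

end Pool.Agent.Helper960.Crg
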